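import Mathlib

/-!
Complex ball arithmetic in fixed point with 384 binary digits.
-/

namespace Pool.Agent.Lib.XI

open Complex

/-- a ball: centre `(x + y i) / 2 ^ 384`, radius `r / 2 ^ 384` -/
structure B where
  x : ℤ
  y : ℤ
  r : ℕ

namespace B

/-- evaluate a natural number before going on -/
def fN {α : Type} (n : ℕ) (k : ℕ → α) : α :=
  match n with
  | 0 => k 0
  | Nat.succ m => k (Nat.succ m)

/-- evaluate an integer before going on -/
def fI {α : Type} (n : ℤ) (k : ℤ → α) : α :=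
  match n with
  | Int.ofNat m => fN m fun a => k (Int.ofNat a)
  | Int.negSucc m => fN m fun a => k (Int.negSucc a)

/-- evaluate a ball before going on -/
def force {α : Type} (b : B) (k : B → α) : α :=
  match b with
  | ⟨x, y, r⟩ => fI x fun x' => fI y fun y' => fN r fun r' => k ⟨x', y', r'⟩

@[simp] lemma fN_eq {α : Type} (n : ℕ) (k : ℕ → α) : fN n k = k n := by cases n <;> rfl
@[simp] lemma fI_eq {α : Type} (n : ℤ) (k : ℤ → α) : fI n k = k n := by cases n <;> simp [fI]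
@[simp] lemma force_eq {α : Type} (b : B) (k : B → α) : force b k = k b := by
  cases b; simp [force]

/-- centre -/
noncomputable def c (b : B) : ℂ := ((b.x : ℂ) + (b.y : ℂ) * I) / 2 ^ 384

/-- membership -/
def mem (b : B) (z : ℂ) : Prop := ‖z - b.c‖ ≤ (b.r : ℝ) / 2 ^ 384

def n1 (b : B) : ℕ := b.x.natAbs + b.y.natAbs
def ub (b : B) : ℕ := b.n1 + b.r
def add (a b : B) : B := ⟨a.x + b.x, a.y + b.y, a.r + b.r⟩
def neg (a : B) : B := ⟨-a.x, -a.y, a.r⟩
def widen (a : B) (e : ℕ) : B := ⟨a.x, a.y, a.r + e⟩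
def divN (a : B) (d : ℕ) : B := ⟨a.x / (d : ℤ), a.y / (d : ℤ), a.r / d + 3⟩
def mulG (a : B) (p q : ℤ) : B :=
  ⟨a.x * p - a.y * q, a.x * q + a.y * p, a.r * (p.natAbs + q.natAbs)⟩
def mul (a b : B) : B :=
  ⟨(a.x * b.x - a.y * b.y) >>> (384 : ℕ), (a.x * b.y + a.y * b.x) >>> (384 : ℕ),
    (a.n1 * b.r + b.n1 * a.r + a.r * b.r) >>> 384 + 3⟩
def one : B := ⟨2 ^ 384, 0, 0⟩
def zero : B := ⟨0, 0, 0⟩
def ofQ (p q : ℤ) (d : ℕ) : B := divN (mulG one p q) d

lemma norm_g (p q : ℤ) : ‖(p : ℂ) + (q : ℂ) * I‖ ≤ ((p.natAbs + q.natAbs : ℕ) : ℝ) := by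
  refine (norm_add_le _ _).trans (le_of_eq ?_)
  rw [norm_mul, norm_I, mul_one, norm_intCast, norm_intCast]
  push_cast
  rw [Nat.cast_natAbs, Nat.cast_natAbs]
  push_cast
  rfl

lemma norm_c (b : B) : ‖b.c‖ ≤ (b.n1 : ℝ) / 2 ^ 384 := by
  unfold c n1
  rw [norm_div, norm_pow, Complex.norm_two]
  exact div_le_div_of_nonneg_right (norm_g _ _) (by positivity)

lemma mem.norm_le {b : B} {z : ℂ} (h : b.mem z) : ‖z‖ ≤ (b.ub : ℝ) / 2 ^ 384 := by
  have h1 := norm_c b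
  have h2 := norm_sub_norm_le z b.c
  unfold mem at h
  unfold ub
  push_cast
  rw [add_div]
  linarith

lemma mem.add {a b : B} {z w : ℂ} (h : a.mem z) (k : b.mem w) : (a.add b).mem (z + w) := by
  unfold mem at *
  have e : z + w - (a.add b).c = (z - a.c) + (w - b.c) := by
    simp only [c, B.add]; push_cast; ring
  rw [e]
  refine (norm_add_le _ _).trans ?_
  simp only [B.add]
  push_cast
  rw [add_div]
  linarith

lemma mem.neg {a : B} {z : ℂ} (h : a.mem z) : a.neg.mem (-z) := by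
  unfold mem at *
  have e : -z - a.neg.c = -(z - a.c) := by simp only [c, B.neg]; push_cast; ring
  rwa [e, norm_neg]

lemma mem.widen {a : B} {z w : ℂ} {e : ℕ} (h : a.mem z) (k : ‖w - z‖ ≤ (e : ℝ) / 2 ^ 384) :
    (a.widen e).mem w := by
  unfold mem at *
  have e1 : w - (a.widen e).c = (w - z) + (z - a.c) := by simp only [c, B.widen]; ring
  rw [e1]
  refine (norm_add_le _ _).trans ?_
  simp only [B.widen]
  push_cast
  rw [add_div]
  linarith

lemma abs_ediv (x : ℤ) {d : ℕ} (hd : 0 < d) : |(x : ℝ) / d - ((x / (d : ℤ) : ℤ) : ℝ)| ≤ 1 := by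
  have hd' : (0 : ℝ) < d := by exact_mod_cast hd
  have h1 := Int.emod_nonneg x (b := (d : ℤ)) (by omega)
  have h2 := Int.emod_lt_of_pos x (b := (d : ℤ)) (by omega)
  have h3 := Int.mul_ediv_add_emod x (d : ℤ)
  have e : (x : ℝ) / d - ((x / (d : ℤ) : ℤ) : ℝ) = ((x % (d : ℤ) : ℤ) : ℝ) / d := by
    have : (x : ℝ) = d * ((x / (d : ℤ) : ℤ) : ℝ) + ((x % (d : ℤ) : ℤ) : ℝ) := by exact_mod_cast h3.symm
    field_simp
    linarith
  rw [e, abs_of_nonneg (div_nonneg (by exact_mod_cast h1) hd'.le), div_le_one hd']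
  exact_mod_cast h2.le

lemma norm_ediv (x y : ℤ) {d : ℕ} (hd : 0 < d) :
    ‖((x : ℂ) + (y : ℂ) * I) / d - (((x / (d : ℤ) : ℤ) : ℂ) + ((y / (d : ℤ) : ℤ) : ℂ) * I)‖ ≤ 2 := by
  have e : ((x : ℂ) + (y : ℂ) * I) / d - (((x / (d : ℤ) : ℤ) : ℂ) + ((y / (d : ℤ) : ℤ) : ℂ) * I)
      = (((x : ℝ) / d - ((x / (d : ℤ) : ℤ) : ℝ) : ℝ) : ℂ)
        + (((y : ℝ) / d - ((y / (d : ℤ) : ℤ) : ℝ) : ℝ) : ℂ) * I := by
    push_cast; ring
  rw [e]
  refine (norm_add_le _ _).trans ?_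
  rw [norm_mul, norm_I, mul_one, norm_real, norm_real, Real.norm_eq_abs, Real.norm_eq_abs]
  linarith [abs_ediv x hd, abs_ediv y hd]

lemma nat_div_ge (r : ℕ) {d : ℕ} (hd : 0 < d) : (r : ℝ) / d ≤ ((r / d : ℕ) : ℝ) + 1 := by
  rw [div_le_iff₀ (by exact_mod_cast hd)]
  have := (Nat.lt_div_mul_add (a := r) hd).le
  have h2 : (r : ℝ) ≤ ((r / d : ℕ) : ℝ) * d + d := by exact_mod_cast this
  linarith

lemma mem.divN {a : B} {z : ℂ} (h : a.mem z) {d : ℕ} (hd : 0 < d) : (a.divN d).mem (z / d) := by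
  unfold mem at *
  have hd' : (0 : ℝ) < d := by exact_mod_cast hd
  have e : z / d - (a.divN d).c = (z - a.c) / d + (((a.x : ℂ) + (a.y : ℂ) * I) / d
      - (((a.x / (d : ℤ) : ℤ) : ℂ) + ((a.y / (d : ℤ) : ℤ) : ℂ) * I)) / 2 ^ 384 := by
    simp only [c, B.divN]; ring
  rw [e]
  refine (norm_add_le _ _).trans ?_
  rw [norm_div, norm_div, norm_pow, Complex.norm_two, Complex.norm_natCast]
  have h1 := norm_ediv a.x a.y hd
  have h2 := nat_div_ge a.r hd
  have h3 : ‖z - a.c‖ / d ≤ (a.r : ℝ) / d / 2 ^ 384 := by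
    rw [div_right_comm]; gcongr
  simp only [B.divN]
  push_cast
  calc _ ≤ (((a.r / d : ℕ) : ℝ) + 1) / 2 ^ 384 + 2 / 2 ^ 384 := by
        refine add_le_add (h3.trans ?_) ?_ <;> gcongr
    _ = _ := by ring

lemma mem.mulG {a : B} {z : ℂ} (h : a.mem z) (p q : ℤ) :
    (a.mulG p q).mem (z * ((p : ℂ) + (q : ℂ) * I)) := by
  unfold mem at *
  have e : z * ((p : ℂ) + (q : ℂ) * I) - (a.mulG p q).c = (z - a.c) * ((p : ℂ) + (q : ℂ) * I) := by
    simp only [c, B.mulG]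
    push_cast
    linear_combination (a.y : ℂ) * q / 2 ^ 384 * I_mul_I
  rw [e, norm_mul]
  refine (mul_le_mul h (norm_g p q) (norm_nonneg _) (by positivity)).trans (le_of_eq ?_)
  simp only [B.mulG]
  push_cast
  ring

lemma mem.mul {a b : B} {z w : ℂ} (h : a.mem z) (k : b.mem w) : (a.mul b).mem (z * w) := by
  unfold mem at *
  have hd : 0 < 2 ^ 384 := by positivity
  have h1 := norm_ediv (a.x * b.x - a.y * b.y) (a.x * b.y + a.y * b.x) hd
  have h2 := nat_div_ge (a.n1 * b.r + b.n1 * a.r + a.r * b.r) hd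
  have e : z * w - (a.mul b).c = a.c * (w - b.c) + b.c * (z - a.c) + (z - a.c) * (w - b.c)
      + ((((a.x * b.x - a.y * b.y : ℤ) : ℂ) + ((a.x * b.y + a.y * b.x : ℤ) : ℂ) * I) / (2 ^ 384 : ℕ)
        - ((((a.x * b.x - a.y * b.y) / ((2 ^ 384 : ℕ) : ℤ) : ℤ) : ℂ)
          + (((a.x * b.y + a.y * b.x) / ((2 ^ 384 : ℕ) : ℤ) : ℤ) : ℂ) * I)) / 2 ^ 384 := by
    simp only [c, B.mul, Int.shiftRight_eq_div_pow]
    generalize (a.x * b.x - a.y * b.y) / ((2 ^ 384 : ℕ) : ℤ) = s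
    generalize (a.x * b.y + a.y * b.x) / ((2 ^ 384 : ℕ) : ℤ) = t
    rw [Nat.cast_pow, Nat.cast_ofNat]
    generalize (2 : ℂ) ^ 384 = S
    push_cast
    linear_combination (a.y : ℂ) * b.y / S / S * I_mul_I
  rw [e]
  refine (norm_add_le _ _).trans ?_
  have h3 := norm_add₃_le (a := a.c * (w - b.c)) (b := b.c * (z - a.c)) (c := (z - a.c) * (w - b.c))
  rw [norm_mul, norm_mul, norm_mul] at h3
  have m1 := mul_le_mul (norm_c a) k (norm_nonneg _) (by positivity)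
  have m2 := mul_le_mul (norm_c b) h (norm_nonneg _) (by positivity)
  have m3 := mul_le_mul h k (norm_nonneg _) (by positivity)
  rw [norm_div, norm_pow, Complex.norm_two]
  refine (add_le_add le_rfl (div_le_div_of_nonneg_right h1 (by positivity))).trans ?_
  clear e h1
  simp only [B.mul, Nat.shiftRight_eq_div_pow]
  generalize (a.n1 * b.r + b.n1 * a.r + a.r * b.r) / 2 ^ 384 = s at h2 ⊢
  rw [Nat.cast_pow, Nat.cast_ofNat] at h2
  push_cast at h2 ⊢
  have hS : (0 : ℝ) < 2 ^ 384 := by positivity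
  generalize (2 : ℝ) ^ 384 = S at *
  calc _ ≤ (((a.n1 : ℝ) * b.r + b.n1 * a.r + a.r * b.r) / S) / S + 2 / S := by
        refine add_le_add (h3.trans (le_trans (add_le_add (add_le_add m1 m2) m3) (le_of_eq ?_)))
          le_rfl
        field_simp
    _ ≤ ((s : ℝ) + 1) / S + 2 / S := by gcongr
    _ = _ := by ring

lemma mem_one : one.mem 1 := by
  simp [mem, one, c]

lemma mem_zero : zero.mem 0 := by
  simp [mem, zero, c]

lemma mem_ofQ (p q : ℤ) {d : ℕ} (hd : 0 < d) : (ofQ p q d).mem (((p : ℂ) + (q : ℂ) * I) / d) := by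
  have := (mem_one.mulG p q).divN hd
  rwa [one_mul] at this

/-- Taylor loop -/
def expL (x : B) : ℕ → ℕ → B → B → B
  | 0, _, t, s => s.widen (2 * t.ub)
  | n + 1, m, t, s =>
    force (s.add t) fun s' => force ((t.mul x).divN (m + 1)) fun t' => expL x n (m + 1) t' s'

lemma mem_expL {x : B} {z : ℂ} (h : x.mem z) (n : ℕ) : ∀ (m : ℕ) (t s : B),
    t.mem (z ^ m / (m.factorial : ℂ)) → s.mem (∑ i ∈ Finset.range m, z ^ i / (i.factorial : ℂ)) →
    ‖z‖ / ((n + m).succ : ℕ) ≤ 1 / 2 → (expL x n m t s).mem (cexp z) := by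
  induction n with
  | zero =>
    intro m t s ht hs hz
    rw [zero_add] at hz
    refine hs.widen ((Complex.exp_bound' hz).trans ?_)
    have := ht.norm_le
    rw [norm_div, norm_pow, Complex.norm_natCast] at this
    push_cast
    rw [mul_div_assoc]
    linarith
  | succ n ih =>
    intro m t s ht hs hz
    simp only [expL, force_eq]
    refine ih (m + 1) _ _ ?_ ?_ (by rwa [show n + (m + 1) = n + 1 + m by ring])
    · have := (ht.mul h).divN (d := m + 1) (by omega)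
      convert this using 1
      rw [Nat.factorial_succ]
      have : (m.factorial : ℂ) ≠ 0 := by exact_mod_cast m.factorial_ne_zero
      have : ((m + 1 : ℕ) : ℂ) ≠ 0 := by exact_mod_cast m.succ_ne_zero
      rw [Nat.cast_mul]
      field_simp
      ring
    · rw [Finset.sum_range_succ]
      exact hs.add ht

/-- square -/
def sq (a : B) : B := force a fun a' => a'.mul a'

lemma mem.sq {a : B} {z : ℂ} (h : a.mem z) : a.sq.mem (z ^ 2) := by
  simp only [B.sq, force_eq, pow_two]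
  exact h.mul h

/-- exponential function -/
def exp (a : B) : B := force (a.divN 32) fun x => (expL x 64 0 one zero).sq.sq.sq.sq.sq

lemma mem.exp {a : B} {z : ℂ} (h : a.mem z) (hz : ‖z‖ ≤ 1000) : a.exp.mem (cexp z) := by
  simp only [B.exp, force_eq]
  have h1 := mem_expL (h.divN (d := 32) (by norm_num)) 64 0 one zero (by simpa using mem_one)
    (by simpa using mem_zero) (by
      rw [norm_div, Complex.norm_natCast]
      norm_num
      linarith)
  have h2 := h1.sq.sq.sq.sq.sq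
  convert h2 using 1
  simp only [← Complex.exp_nat_mul]
  congr 1
  push_cast
  ring

/-! ### tests -/

def reGe (b : B) (p : ℤ) (q : ℕ) : Bool := decide (p * 2 ^ 384 ≤ (b.x - b.r) * q)
def reLe (b : B) (p : ℤ) (q : ℕ) : Bool := decide ((b.x + b.r) * q ≤ p * 2 ^ 384)
def normLe (b : B) (p q : ℕ) : Bool := decide (b.ub * q ≤ p * 2 ^ 384)
def normGe (b : B) (p q : ℕ) : Bool :=
  decide ((p * 2 ^ 384 + b.r * q) ^ 2 ≤ (b.x.natAbs ^ 2 + b.y.natAbs ^ 2) * q ^ 2)

lemma mem.abs_re {b : B} {z : ℂ} (h : b.mem z) : |z.re - b.x / 2 ^ 384| ≤ (b.r : ℝ) / 2 ^ 384 := by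
  have h1 := (abs_re_le_norm (z - b.c)).trans h
  have e : b.c.re = b.x / 2 ^ 384 := by
    have : (2 : ℂ) ^ 384 = ((2 ^ 384 : ℝ) : ℂ) := by push_cast; rfl
    unfold c
    rw [this, div_ofReal_re]
    simp
  rwa [sub_re, e] at h1

lemma mem.reGe {b : B} {z : ℂ} (h : b.mem z) {p : ℤ} {q : ℕ} (hq : 0 < q)
    (k : b.reGe p q = true) : (p : ℝ) / q ≤ z.re := by
  have h1 := (abs_le.1 h.abs_re).1
  have h2 : (p : ℝ) * 2 ^ 384 ≤ (b.x - b.r) * q := by exact_mod_cast of_decide_eq_true k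
  have hS : (0 : ℝ) < 2 ^ 384 := by positivity
  have h3 : (p : ℝ) / q ≤ (b.x - b.r) / 2 ^ 384 := by
    rwa [div_le_div_iff₀ (by exact_mod_cast hq) hS]
  rw [sub_div] at h3
  linarith

lemma mem.reLe {b : B} {z : ℂ} (h : b.mem z) {p : ℤ} {q : ℕ} (hq : 0 < q)
    (k : b.reLe p q = true) : z.re ≤ (p : ℝ) / q := by
  have h1 := (abs_le.1 h.abs_re).2
  have h2 : ((b.x : ℝ) + b.r) * q ≤ p * 2 ^ 384 := by exact_mod_cast of_decide_eq_true k
  have hS : (0 : ℝ) < 2 ^ 384 := by positivity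
  have h3 : ((b.x : ℝ) + b.r) / 2 ^ 384 ≤ (p : ℝ) / q := by
    rwa [div_le_div_iff₀ hS (by exact_mod_cast hq)]
  rw [add_div] at h3
  linarith

lemma mem.normLe {b : B} {z : ℂ} (h : b.mem z) {p q : ℕ} (hq : 0 < q)
    (k : b.normLe p q = true) : ‖z‖ ≤ (p : ℝ) / q := by
  refine h.norm_le.trans ?_
  have h2 : (b.ub : ℝ) * q ≤ p * 2 ^ 384 := by exact_mod_cast of_decide_eq_true k
  rwa [div_le_div_iff₀ (by positivity) (by exact_mod_cast hq)]

lemma mem.normGe {b : B} {z : ℂ} (h : b.mem z) {p q : ℕ} (hq : 0 < q)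
    (k : b.normGe p q = true) : (p : ℝ) / q ≤ ‖z‖ := by
  have hq' : (0 : ℝ) < q := by exact_mod_cast hq
  have hS : (0 : ℝ) < 2 ^ 384 := by positivity
  have h2 : ((p : ℝ) * 2 ^ 384 + b.r * q) ^ 2
      ≤ (((b.x.natAbs : ℕ) : ℝ) ^ 2 + ((b.y.natAbs : ℕ) : ℝ) ^ 2) * q ^ 2 := by
    exact_mod_cast of_decide_eq_true k
  rw [Nat.cast_natAbs, Nat.cast_natAbs, Int.cast_abs, Int.cast_abs, sq_abs, sq_abs] at h2
  have h3 : ‖(b.x : ℂ) + (b.y : ℂ) * I‖ ^ 2 = (b.x : ℝ) ^ 2 + (b.y : ℝ) ^ 2 := by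
    rw [Complex.sq_norm, normSq_apply]
    simp [pow_two]
  rw [← h3, ← mul_pow] at h2
  have h4 := le_of_pow_le_pow_left₀ two_ne_zero (by positivity) h2
  have h5 : ‖b.c‖ = ‖(b.x : ℂ) + (b.y : ℂ) * I‖ / 2 ^ 384 := by
    unfold c
    rw [norm_div, norm_pow, Complex.norm_two]
  have h6 : (p : ℝ) / q + b.r / 2 ^ 384 ≤ ‖b.c‖ := by
    rw [h5, div_add_div _ _ hq'.ne' hS.ne', div_le_div_iff₀ (by positivity) hS]
    generalize (2 : ℝ) ^ 384 = S at *
    nlinarith [mul_le_mul_of_nonneg_right h4 hS.le]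
  have h7 := norm_sub_norm_le b.c z
  rw [norm_sub_rev] at h7
  unfold mem at h
  linarith

/-! ### the number pi -/

/-- digits of pi -/
def piN : ℤ :=
  123785053203292407819553701039137184435442376711719744927844101526111311422332618694237111830548352286187237239491692

/-- a ball around pi -/
def pi : B := ⟨piN, 0, 2 ^ 30⟩

lemma pi_check : ((B.mk 0 piN 0).exp.add one).ub ≤ 2 ^ 28 := by decide +kernel

lemma mem_pi : pi.mem (Real.pi : ℂ) := by
  set p : ℝ := (piN : ℝ) / 2 ^ 384 with hp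
  have hp1 : 3 ≤ p ∧ p ≤ 4 := by
    rw [hp, le_div_iff₀ (by positivity), div_le_iff₀ (by positivity)]
    have h1 : 3 * 2 ^ 384 ≤ piN ∧ piN ≤ 4 * 2 ^ 384 := by decide +kernel
    exact ⟨by exact_mod_cast h1.1, by exact_mod_cast h1.2⟩
  have h0 : (B.mk 0 piN 0).mem ((p : ℂ) * I) := by
    simp only [mem, c, hp]
    push_cast
    rw [zero_add, div_mul_eq_mul_div, sub_self, norm_zero, zero_div]
  have h1 := ((h0.exp (by
    rw [norm_mul, norm_I, mul_one, norm_real, Real.norm_of_nonneg (by linarith)]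
    linarith)).add mem_one).norm_le
  have h2 : ‖cexp (p * I) + 1‖ ≤ 2 ^ 28 / 2 ^ 384 := by
    refine h1.trans (div_le_div_of_nonneg_right ?_ (by positivity))
    exact_mod_cast pi_check
  have h3 : |Real.sin (Real.pi - p)| ≤ 2 ^ 28 / 2 ^ 384 := by
    refine le_trans ?_ h2
    refine le_trans (le_of_eq ?_) (abs_im_le_norm _)
    rw [Real.sin_pi_sub, add_im, exp_ofReal_mul_I_im, one_im, add_zero]
  have p3 := Real.pi_gt_three
  have p4 := Real.pi_lt_four
  have h4 := Real.mul_abs_le_abs_sin (x := Real.pi - p) (by rw [abs_le]; constructor <;> linarith)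
  have h5 : (1 / 2 : ℝ) ≤ 2 / Real.pi := by
    rw [div_le_div_iff₀ (by norm_num) (by linarith)]; linarith
  have h6 := mul_le_mul_of_nonneg_right h5 (abs_nonneg (Real.pi - p))
  have e : (Real.pi : ℂ) - pi.c = ((Real.pi - p : ℝ) : ℂ) := by
    simp only [c, pi, hp]
    push_cast
    ring
  unfold mem
  rw [e, norm_real, Real.norm_eq_abs]
  simp only [pi]
  push_cast
  have hS : (0 : ℝ) < 2 ^ 384 := by positivity
  generalize (2 : ℝ) ^ 384 = S at h3 hS ⊢
  rw [le_div_iff₀ hS] at h3 ⊢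
  have h7 : |Real.pi - p| ≤ 2 * |Real.sin (Real.pi - p)| := by linarith
  have h8 := mul_le_mul_of_nonneg_right h7 hS.le
  nlinarith [abs_nonneg (Real.pi - p)]

end B

end Pool.Agent.Lib.XI
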