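import Mathlib

/-!
The model integral for a large truncation point: bounds, a recurrence, and a Lipschitz bound in
the small parameter obtained on a rotated ray.
-/

namespace Pool.Agent.Lib.XI.Big

open Complex MeasureTheory

noncomputable section

/-- the phase -/
def ph (e : ℝ) (r : ℂ) : ℂ := (cexp (-(e * r)) - 1 + e * r) / (e : ℂ) ^ 2

/-- the integrand -/
def gg (e : ℝ) (w r : ℂ) : ℂ := cexp (-(w * r) - ph e r)

/-- the model integral -/
def JJ (e : ℝ) (w : ℂ) (R : ℝ) : ℂ := ∫ x in (0 : ℝ)..R, gg e w x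

lemma leg {y v : ℝ} (h0 : 0 ≤ y) (h1 : y < 1) :
    y * v - (Real.exp (-v) - 1 + v) ≤ y ^ 2 / 2 + y ^ 3 / 6 + y ^ 4 / 12 + y ^ 5 / 4 := by
  have hq : 0 < 1 - y := by linarith
  have h2 := Real.add_one_le_exp (-v - Real.log (1 - y))
  have h3 : Real.exp (-v) = (1 - y) * Real.exp (-v - Real.log (1 - y)) := by
    rw [Real.exp_sub, Real.exp_log hq]; field_simp
  have h4 := sum_le_hasSum (Finset.range 4) (fun i _ => by positivity)
    (Real.hasSum_pow_div_log_of_abs_lt_one (x := y) (by rwa [abs_of_nonneg h0]))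
  simp only [Finset.sum_range_succ, Finset.range_zero, Finset.sum_empty] at h4
  push_cast at h4
  have h5 := mul_le_mul_of_nonneg_left h2 hq.le
  have h6 := mul_le_mul_of_nonneg_left h4 hq.le
  rw [h3]
  nlinarith

lemma exp_two {z : ℝ} (h0 : 0 ≤ z) (h1 : z ≤ 1) : 1 - z ≤ Real.exp (-(2 * z)) * (1 + z) := by
  rcases h1.eq_or_lt with rfl | h1
  · have := Real.exp_pos (-(2 * (1 : ℝ))); linarith
  have hq : 0 < 1 - z := by linarith
  have h2 := Real.le_log_one_add_of_nonneg (x := 2 * z / (1 - z)) (by positivity)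
  have e1 : 2 * (2 * z / (1 - z)) / (2 * z / (1 - z) + 2) = 2 * z := by field_simp; ring
  have e2 : 1 + 2 * z / (1 - z) = (1 + z) / (1 - z) := by field_simp; ring
  rw [e1, e2, Real.le_log_iff_exp_le (by positivity), le_div_iff₀ hq] at h2
  have h3 : Real.exp (-(2 * z)) * Real.exp (2 * z) = 1 := by rw [← Real.exp_add]; simp
  have := mul_le_mul_of_nonneg_left h2 (Real.exp_pos (-(2 * z))).le
  nlinarith

lemma ray_lb {y v θ : ℝ} (hv : 0 ≤ v) (h1 : y ≤ 0.63) (hθ : θ ^ 2 ≤ 1 / 2) :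
    y * v - (Real.exp (-v) * Real.cos (θ * v) - 1 + v) ≤ y ^ 2 := by
  have hE := Real.exp_pos (-v)
  rcases le_total v 2 with h | h
  · have h2 := exp_two (z := v / 2) (by linarith) (by linarith)
    rw [show 2 * (v / 2) = v by ring] at h2
    have h3 : 1 - v ^ 2 / 4 ≤ Real.cos (θ * v) := by
      have := Real.one_sub_sq_div_two_le_cos (x := θ * v)
      nlinarith [mul_le_mul_of_nonneg_right hθ (sq_nonneg v)]
    have h4 := mul_le_mul_of_nonneg_left h3 hE.le
    have h5 := mul_le_mul_of_nonneg_right h2 (show 0 ≤ 1 - v / 2 by linarith)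
    nlinarith [sq_nonneg (y - v / 2)]
  · have h2 : Real.exp (-v) ≤ 0.136 := by
      refine (Real.exp_le_exp.2 (by linarith : -v ≤ -2)).trans ?_
      rw [Real.exp_neg, inv_le_comm₀ (Real.exp_pos _) (by norm_num)]
      have h3 : Real.exp 2 = Real.exp 1 * Real.exp 1 := by rw [← Real.exp_add]; norm_num
      have := Real.exp_one_gt_d9
      nlinarith
    have h3 := mul_le_mul_of_nonneg_left (Real.neg_one_le_cos (θ * v)) hE.le
    nlinarith

lemma norm_gg_eq {e : ℝ} (w : ℂ) (x θ : ℝ) :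
    (-(w * (x * (1 - θ * I))) - ph e (x * (1 - θ * I))).re
      = -(x * (w.re + θ * w.im))
        - (Real.exp (-(e * x)) * Real.cos (θ * (e * x)) - 1 + e * x) / e ^ 2 := by
  unfold ph
  rw [← ofReal_pow, sub_re, div_ofReal_re, add_re, sub_re, exp_re]
  simp
  ring_nf

lemma re_ray {e m x θ : ℝ} (w : ℂ) (he : 0 < e) (hx : 0 ≤ x) (hem : e * m ≤ 0.63)
    (hθ : θ ^ 2 ≤ 1 / 2) :
    (-(w * (x * (1 - θ * I))) - ph e (x * (1 - θ * I))).re
      ≤ -(x * (w.re + θ * w.im)) - m * x + m ^ 2 := by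
  rw [norm_gg_eq]
  have h := ray_lb (y := e * m) (v := e * x) (by positivity) hem hθ
  have : m * x - m ^ 2 ≤ (Real.exp (-(e * x)) * Real.cos (θ * (e * x)) - 1 + e * x) / e ^ 2 := by
    rw [le_div_iff₀ (by positivity)]
    nlinarith
  linarith

lemma norm_gg_real {e : ℝ} (w : ℂ) (x : ℝ) :
    ‖gg e w x‖ = Real.exp (-(x * w.re) - (Real.exp (-(e * x)) - 1 + e * x) / e ^ 2) := by
  have h := norm_gg_eq (e := e) w x 0
  simp only [ofReal_zero, zero_mul, sub_zero, mul_one, add_zero, Real.cos_zero] at h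
  unfold gg
  rw [norm_exp, h]

lemma norm_gg_le {e : ℝ} {w : ℂ} {x : ℝ} (he : 0 < e) (he1 : e ≤ 0.188) (hw : -2.4 ≤ w.re)
    (hx : 0 ≤ x) : ‖gg e w x‖ ≤ Real.exp (18.4 - 2.2 * x) := by
  rw [norm_gg_real]
  refine Real.exp_le_exp.2 ?_
  have h := leg (y := e * 4.6) (v := e * x) (by positivity) (by linarith)
  have h2 : 4.6 * x - 18.4 ≤ (Real.exp (-(e * x)) - 1 + e * x) / e ^ 2 := by
    rw [le_div_iff₀ (by positivity)]
    have e2 : e ^ 2 ≤ 0.188 ^ 2 := by gcongr
    have e3 : e ^ 3 ≤ 0.188 ^ 3 := by gcongr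
    have h3 : 4.6 ^ 2 / 2 + 4.6 ^ 3 / 6 * e + 4.6 ^ 4 / 12 * e ^ 2 + 4.6 ^ 5 / 4 * e ^ 3 ≤ 18.4 := by
      norm_num at e2 e3 ⊢
      linarith
    have h4 := mul_le_mul_of_nonneg_right h3 (sq_nonneg e)
    nlinarith
  nlinarith [mul_le_mul_of_nonneg_left hw hx]

lemma norm_gg_one {e : ℝ} {w : ℂ} {x : ℝ} (hw : 0 ≤ w.re) (hx : 0 ≤ x) : ‖gg e w x‖ ≤ 1 := by
  rw [norm_gg_real, Real.exp_le_one_iff]
  have h1 : 0 ≤ (Real.exp (-(e * x)) - 1 + e * x) / e ^ 2 :=
    div_nonneg (by linarith [Real.add_one_le_exp (-(e * x))]) (sq_nonneg e)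
  nlinarith [mul_nonneg hx hw]

lemma hasDerivAt_ph {e : ℝ} (he : e ≠ 0) (r : ℂ) :
    HasDerivAt (ph e) ((1 - cexp (-(e * r))) / e) r := by
  have h0 : (e : ℂ) ≠ 0 := by exact_mod_cast he
  have h1 : HasDerivAt (fun r : ℂ => (e : ℂ) * r) e r := by
    simpa using (hasDerivAt_id r).const_mul (e : ℂ)
  have h2 := ((h1.neg.cexp.sub_const 1).add h1).div_const ((e : ℂ) ^ 2)
  refine HasDerivAt.congr_deriv (f := ph e) h2 ?_
  simp only [Pi.neg_apply]
  field_simp
  ring

lemma hasDerivAt_gg {e : ℝ} (he : e ≠ 0) (w r : ℂ) :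
    HasDerivAt (gg e w) (gg e w r * (-w - (1 - cexp (-(e * r))) / e)) r := by
  have h1 : HasDerivAt (fun r : ℂ => w * r) w r := by
    simpa using (hasDerivAt_id r).const_mul w
  exact (h1.neg.sub (hasDerivAt_ph he r)).cexp

@[fun_prop] lemma continuous_gg (e : ℝ) (w : ℂ) : Continuous (gg e w) := by
  unfold gg ph
  fun_prop

lemma gg_zero (e : ℝ) (w : ℂ) : gg e w 0 = 1 := by simp [gg, ph]

lemma gg_shift (e : ℝ) (w r : ℂ) : gg e (w + e) r = gg e w r * cexp (-(e * r)) := by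
  unfold gg
  rw [← Complex.exp_add]
  congr 1
  ring

/-- the recurrence -/
theorem JJ_rec {e : ℝ} (he : e ≠ 0) (w : ℂ) (R : ℝ) :
    (1 + e * w) * JJ e w R = JJ e (w + e) R + e - e * gg e w R := by
  have h0 : (e : ℂ) ≠ 0 := by exact_mod_cast he
  have h := intervalIntegral.integral_eq_sub_of_hasDerivAt (a := 0) (b := R)
    (f := fun x : ℝ => (e : ℂ) * gg e w x)
    (f' := fun x : ℝ => gg e (w + e) x - (1 + e * w) * gg e w x)
    (fun x _ => by
      refine (((hasDerivAt_gg he w x).const_mul (e : ℂ)).comp_ofReal).congr_deriv ?_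
      rw [gg_shift]
      field_simp
      ring)
    (Continuous.intervalIntegrable (by fun_prop) _ _)
  rw [intervalIntegral.integral_sub (Continuous.intervalIntegrable (by fun_prop) _ _)
    (Continuous.intervalIntegrable (by fun_prop) _ _), intervalIntegral.integral_const_mul,
    ofReal_zero, gg_zero] at h
  unfold JJ
  linear_combination -h

lemma exp_neg_le (n : ℕ) {x : ℝ} (h : x ≤ -n) : Real.exp x ≤ 0.3679 ^ n := by
  refine (Real.exp_le_exp.2 h).trans ?_
  rw [show -(n : ℝ) = n * (-1) by ring, Real.exp_nat_mul]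
  gcongr
  have := Real.exp_neg_one_lt_d9
  linarith

lemma gg_30 {e : ℝ} {w : ℂ} (he : 0 < e) (he1 : e ≤ 0.188) (hw : -2.4 ≤ w.re) :
    ‖gg e w (30 : ℝ)‖ ≤ 1e-8 := by
  refine (norm_gg_le he he1 hw (by norm_num)).trans ((exp_neg_le 20 (by norm_num)).trans ?_)
  norm_num

lemma JJ_init {e : ℝ} {w : ℂ} (hw : 0 ≤ w.re) : ‖JJ e w 30‖ ≤ 30 := by
  have := intervalIntegral.norm_integral_le_of_norm_le_const (a := 0) (b := 30) (C := 1)
    (f := fun x : ℝ => gg e w x) (fun x hx => by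
      rw [Set.uIoc_of_le (by norm_num)] at hx
      exact norm_gg_one hw hx.1.le)
  simpa [JJ] using this

lemma JJ_tail {e : ℝ} {w : ℂ} (he : 0 < e) (he1 : e ≤ 0.188) (hw : -2.4 ≤ w.re) {R : ℝ}
    (hR : 11.7 ≤ R) : ‖JJ e w R - JJ e w 11.7‖ ≤ 3e-4 := by
  unfold JJ
  rw [intervalIntegral.integral_interval_sub_left (Continuous.intervalIntegrable (by fun_prop) _ _)
    (Continuous.intervalIntegrable (by fun_prop) _ _)]
  refine (intervalIntegral.norm_integral_le_of_norm_le (g := fun x => Real.exp (18.4 - 2.2 * x)) hR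
    (Filter.Eventually.of_forall fun x hx => norm_gg_le he he1 hw (by linarith [hx.1]))
    (Continuous.intervalIntegrable (by fun_prop) _ _)).trans ?_
  rw [intervalIntegral.integral_eq_sub_of_hasDerivAt
    (f := fun x => -Real.exp (18.4 - 2.2 * x) / 2.2)
    (fun x _ => by
      have h1 : HasDerivAt (fun x : ℝ => 18.4 - 2.2 * x) (-2.2) x := by
        simpa using ((hasDerivAt_id x).const_mul (2.2 : ℝ)).const_sub 18.4
      refine (h1.exp.neg.div_const 2.2).congr_deriv ?_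
      ring)
    (Continuous.intervalIntegrable (by fun_prop) _ _)]
  have h1 := Real.exp_pos (18.4 - 2.2 * R)
  have h2 : Real.exp (18.4 - 2.2 * 11.7) ≤ 6.6e-4 := by
    have e1 : Real.exp (18.4 - 2.2 * 11.7) = Real.exp (-7) * Real.exp (-0.34) := by
      rw [← Real.exp_add]; norm_num
    have h3 := exp_neg_le 7 (x := -7) (by norm_num)
    have h4 : Real.exp (-0.34) ≤ 0.72 := by
      rw [Real.exp_neg, inv_le_comm₀ (Real.exp_pos _) (by norm_num)]
      have := Real.quadratic_le_exp_of_nonneg (x := 0.34) (by norm_num)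
      norm_num at this ⊢
      linarith
    rw [e1]
    exact (mul_le_mul h3 h4 (Real.exp_pos _).le (by norm_num)).trans (by norm_num)
  norm_num at h1 h2 ⊢
  linarith

/-! ### the Lipschitz bound -/

lemma exp_lip {A B : ℂ} {t : ℝ} (hA : A.re ≤ t) (hB : B.re ≤ t) :
    ‖cexp A - cexp B‖ ≤ Real.exp t * ‖A - B‖ :=
  Convex.norm_image_sub_le_of_norm_hasDerivWithin_le (𝕜 := ℂ) (f := cexp) (f' := cexp)
    (s := {z : ℂ | z.re ≤ t}) (fun z _ => (Complex.hasDerivAt_exp z).hasDerivWithinAt)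
    (fun z hz => by rw [norm_exp]; exact Real.exp_le_exp.2 hz) (convex_halfSpace_re_le t) hB hA

lemma int_pow {f f' : ℝ → ℂ} (hf : ∀ x, HasDerivAt f (f' x) x) (hc : Continuous f') (h0 : f 0 = 0)
    {K : ℝ} {n : ℕ} (hb : ∀ x, 0 ≤ x → ‖f' x‖ ≤ K * x ^ n) {x : ℝ} (hx : 0 ≤ x) :
    ‖f x‖ ≤ K / (n + 1) * x ^ (n + 1) := by
  have h := intervalIntegral.integral_eq_sub_of_hasDerivAt (a := 0) (b := x) (fun y _ => hf y)
    (hc.intervalIntegrable _ _)
  rw [h0, sub_zero] at h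
  rw [← h]
  refine (intervalIntegral.norm_integral_le_of_norm_le (g := fun y => K * y ^ n) hx
    (Filter.Eventually.of_forall fun y hy => hb y hy.1.le)
    (Continuous.intervalIntegrable (by fun_prop) _ _)).trans (le_of_eq ?_)
  rw [intervalIntegral.integral_const_mul, integral_pow]
  simp
  ring

lemma ph_lip {e f : ℝ} (he : 0 < e) (hf : 0 < f) {c : ℂ} (hc : 0 ≤ c.re) {x : ℝ} (hx : 0 ≤ x) :
    ‖ph e (x * c) - ph f (x * c)‖ ≤ ‖c‖ ^ 3 * |e - f| / 6 * x ^ 3 := by
  have e0 : (e : ℂ) ≠ 0 := by exact_mod_cast he.ne'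
  have f0 : (f : ℂ) ≠ 0 := by exact_mod_cast hf.ne'
  have hl : ∀ y : ℂ, HasDerivAt (fun y : ℂ => y * c) c y := fun y => by
    simpa using (hasDerivAt_id y).mul_const c
  have h1 : ∀ y : ℝ, 0 ≤ y → ‖((1 - cexp (-(e * (y * c)))) / e - (1 - cexp (-(f * (y * c)))) / f) * c‖
      ≤ ‖c‖ ^ 3 * |e - f| / 2 * y ^ 2 := fun y hy => by
    have := int_pow
      (f := fun y : ℝ => ((1 - cexp (-(e * (y * c)))) / e - (1 - cexp (-(f * (y * c)))) / f) * c)
      (f' := fun y : ℝ => (cexp (-(e * (y * c))) - cexp (-(f * (y * c)))) * c ^ 2)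
      (K := ‖c‖ ^ 3 * |e - f|) (n := 1)
      (fun y => by
        have d1 := ((((hl y).const_mul (e : ℂ)).neg.cexp).const_sub 1).div_const (e : ℂ)
        have d2 := ((((hl y).const_mul (f : ℂ)).neg.cexp).const_sub 1).div_const (f : ℂ)
        refine (((d1.sub d2).mul_const c).comp_ofReal).congr_deriv ?_
        simp only [Pi.neg_apply]
        field_simp)
      (by fun_prop) (by simp)
      (fun y hy => by
        have := exp_lip (A := -(e * (y * c))) (B := -(f * (y * c))) (t := 0)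
          (by simp; positivity) (by simp; positivity)
        rw [Real.exp_zero, one_mul, show -((e : ℂ) * (y * c)) - -(f * (y * c))
          = -(((e - f : ℝ) : ℂ) * (y * c)) by push_cast; ring, norm_neg, norm_mul, norm_mul,
          norm_real, norm_real, Real.norm_eq_abs, Real.norm_of_nonneg hy] at this
        rw [norm_mul, norm_pow]
        calc _ ≤ |e - f| * (y * ‖c‖) * ‖c‖ ^ 2 := by gcongr
          _ = _ := by ring) hy
    refine this.trans (le_of_eq ?_)
    norm_num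
  have := int_pow (f := fun y : ℝ => ph e (y * c) - ph f (y * c))
    (f' := fun y : ℝ => ((1 - cexp (-(e * (y * c)))) / e - (1 - cexp (-(f * (y * c)))) / f) * c)
    (K := ‖c‖ ^ 3 * |e - f| / 2) (n := 2)
    (fun y => by
      have d1 := (hasDerivAt_ph he.ne' (y * c)).comp (y : ℂ) (hl y)
      have d2 := (hasDerivAt_ph hf.ne' (y * c)).comp (y : ℂ) (hl y)
      refine ((d1.sub d2).comp_ofReal).congr_deriv ?_
      ring)
    (by fun_prop) (by simp [ph]) h1 hx
  refine this.trans (le_of_eq ?_)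
  push_cast
  ring

lemma int_cube : ∫ x in (0 : ℝ)..30, x ^ 3 * Real.exp (-(1.2 * x)) ≤ 2.894 := by
  rw [intervalIntegral.integral_eq_sub_of_hasDerivAt
    (f := fun x => -(x ^ 3 / 1.2 + 3 * x ^ 2 / 1.2 ^ 2 + 6 * x / 1.2 ^ 3 + 6 / 1.2 ^ 4)
      * Real.exp (-(1.2 * x)))
    (fun x _ => by
      have h1 : HasDerivAt (fun x : ℝ => -(1.2 * x)) (-1.2) x := by
        simpa using ((hasDerivAt_id x).const_mul (1.2 : ℝ)).fun_neg
      have h2 : HasDerivAt (fun x : ℝ =>
          -(x ^ 3 / 1.2 + 3 * x ^ 2 / 1.2 ^ 2 + 6 * x / 1.2 ^ 3 + 6 / 1.2 ^ 4))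
          (-(3 * x ^ 2 / 1.2 + 3 * (2 * x) / 1.2 ^ 2 + 6 / 1.2 ^ 3)) x := by
        have a3 := (hasDerivAt_pow 3 x).div_const 1.2
        have a2 := ((hasDerivAt_pow 2 x).const_mul 3).div_const (1.2 ^ 2)
        have a1 := ((hasDerivAt_id x).const_mul 6).div_const (1.2 ^ 3)
        refine ((((a3.add a2).add a1).add_const (6 / 1.2 ^ 4)).neg).congr_deriv ?_
        norm_num
      refine (h2.mul h1.exp).congr_deriv ?_
      ring)
    (Continuous.intervalIntegrable (by fun_prop) _ _)]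
  have := Real.exp_pos (-(1.2 * 30))
  norm_num at this ⊢
  nlinarith

/-- Lipschitz bound in the small parameter -/
theorem JJ_lip {e f δ : ℝ} {w : ℂ} (he : 0 < e) (he1 : e ≤ 0.188) (hf : 0 < f) (hf1 : f ≤ 0.188)
    (hw : -2.4 ≤ w.re) (hi : 0 ≤ w.im) (hδ1 : δ ≤ 2) (hd : -δ ≤ w.re + 0.7 * w.im) :
    ‖JJ e w 30 - JJ f w 30‖ ≤ 1.071 * Real.exp ((1.2 + δ) ^ 2) * |e - f| + 1e-4 := by
  set D : ℂ → ℂ := fun r => gg e w r - gg f w r with hD
  have hDd : Differentiable ℂ D := fun r =>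
    ((hasDerivAt_gg he.ne' w r).sub (hasDerivAt_gg hf.ne' w r)).differentiableAt
  obtain ⟨P, hP⟩ := hDd.isExactOn_univ
  have hP' : ∀ z, HasDerivAt P (D z) z := fun z => hP z trivial
  have hDc := hDd.continuous
  set c : ℂ := 1 - (0.7 : ℝ) * I with hc
  have nc2 : ‖c‖ ^ 2 = 1.49 := by
    rw [Complex.sq_norm, normSq_apply, hc]; simp; norm_num
  have e1 : JJ e w 30 - JJ f w 30 = P (30 : ℝ) - P (0 : ℝ) := by
    unfold JJ
    rw [← intervalIntegral.integral_sub (Continuous.intervalIntegrable (by fun_prop) _ _)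
      (Continuous.intervalIntegrable (by fun_prop) _ _)]
    exact intervalIntegral.integral_eq_sub_of_hasDerivAt (f := fun x : ℝ => P x)
      (fun x _ => (hP' x).comp_ofReal) (Continuous.intervalIntegrable (by fun_prop) _ _)
  have e2 : ∫ x in (0 : ℝ)..30, D (x * c) * c = P ((30 : ℝ) * c) - P ((0 : ℝ) * c) :=
    intervalIntegral.integral_eq_sub_of_hasDerivAt (f := fun x : ℝ => P (x * c))
      (fun x _ => by
        have hl : HasDerivAt (fun y : ℂ => y * c) c (x : ℂ) := by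
          simpa using (hasDerivAt_id (x : ℂ)).mul_const c
        exact ((hP' (x * c)).comp (x : ℂ) hl).comp_ofReal)
      (Continuous.intervalIntegrable (by fun_prop) _ _)
  have e3 : ∫ θ in (0 : ℝ)..0.7, D ((30 : ℝ) * (1 - θ * I)) * ((30 : ℝ) * -I)
      = P ((30 : ℝ) * (1 - (0.7 : ℝ) * I)) - P ((30 : ℝ) * (1 - (0 : ℝ) * I)) :=
    intervalIntegral.integral_eq_sub_of_hasDerivAt
      (f := fun θ : ℝ => P ((30 : ℝ) * (1 - θ * I)))
      (fun x _ => by
        have hl : HasDerivAt (fun y : ℂ => ((30 : ℝ) : ℂ) * (1 - y * I)) ((30 : ℝ) * -I) (x : ℂ) := by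
          simpa using (((hasDerivAt_id (x : ℂ)).mul_const I).const_sub 1).const_mul ((30 : ℝ) : ℂ)
        exact ((hP' _).comp (x : ℂ) hl).comp_ofReal)
      (Continuous.intervalIntegrable (by fun_prop) _ _)
  have b2 : ‖∫ x in (0 : ℝ)..30, D (x * c) * c‖
      ≤ 1.071 * Real.exp ((1.2 + δ) ^ 2) * |e - f| := by
    refine (intervalIntegral.norm_integral_le_of_norm_le
      (g := fun x => (1.49 ^ 2 / 6 * Real.exp ((1.2 + δ) ^ 2) * |e - f|)
        * (x ^ 3 * Real.exp (-(1.2 * x)))) (by norm_num)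
      (Filter.Eventually.of_forall fun x hx => ?_)
      (Continuous.intervalIntegrable (by fun_prop) _ _)).trans ?_
    · have hx0 := hx.1.le
      have r1 := re_ray (e := e) (m := 1.2 + δ) (θ := 0.7) w he hx0 (by nlinarith)
        (by norm_num)
      have r2 := re_ray (e := f) (m := 1.2 + δ) (θ := 0.7) w hf hx0 (by nlinarith)
        (by norm_num)
      have hxd := mul_le_mul_of_nonneg_left hd hx0
      have h1 := exp_lip (t := (1.2 + δ) ^ 2 + -(1.2 * x)) (r1.trans (by linarith))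
        (r2.trans (by linarith))
      rw [← hc, show -(w * (x * c)) - ph e (x * c) - (-(w * (x * c)) - ph f (x * c))
        = -(ph e (x * c) - ph f (x * c)) by ring, norm_neg, Real.exp_add] at h1
      have h2 := ph_lip he hf (c := c) (by simp [hc]) hx0
      rw [norm_mul, ← nc2]
      calc ‖D (x * c)‖ * ‖c‖ ≤ (Real.exp ((1.2 + δ) ^ 2) * Real.exp (-(1.2 * x))
            * (‖c‖ ^ 3 * |e - f| / 6 * x ^ 3)) * ‖c‖ := by
            gcongr
            exact h1.trans (by gcongr)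
        _ = _ := by ring
    · rw [intervalIntegral.integral_const_mul]
      calc _ ≤ (1.49 ^ 2 / 6 * Real.exp ((1.2 + δ) ^ 2) * |e - f|) * 2.894 := by
            gcongr
            exact int_cube
        _ = (1.49 ^ 2 / 6 * 2.894) * (Real.exp ((1.2 + δ) ^ 2) * |e - f|) := by ring
        _ ≤ 1.071 * (Real.exp ((1.2 + δ) ^ 2) * |e - f|) := by
            gcongr
            norm_num
        _ = _ := by ring
  have b3 : ‖∫ θ in (0 : ℝ)..0.7, D ((30 : ℝ) * (1 - θ * I)) * ((30 : ℝ) * -I)‖ ≤ 1e-4 := by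
    refine (intervalIntegral.norm_integral_le_of_norm_le_const (C := 1e-4) fun θ hθ => ?_).trans
      (by norm_num)
    rw [Set.uIoc_of_le (by norm_num)] at hθ
    have hθ2 : θ ^ 2 ≤ 1 / 2 := by nlinarith [hθ.1, hθ.2]
    have k : ∀ u : ℝ, 0 < u → u ≤ 0.188 → ‖gg u w ((30 : ℝ) * (1 - θ * I))‖ ≤ 1e-6 :=
      fun u hu hu1 => by
        have r1 := re_ray (e := u) (m := 3.3) (x := 30) (θ := θ) w hu (by norm_num)
          (by linarith) hθ2
        unfold gg
        rw [norm_exp]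
        refine (exp_neg_le 15 (r1.trans ?_)).trans (by norm_num)
        have := mul_nonneg hθ.1.le hi
        push_cast
        linarith
    have := (norm_sub_le _ _).trans (add_le_add (k e he he1) (k f hf hf1))
    rw [norm_mul, norm_mul, norm_neg, norm_I, norm_real]
    norm_num at this ⊢
    simp only [hD]
    linarith
  have e4 : JJ e w 30 - JJ f w 30 = (∫ x in (0 : ℝ)..30, D (x * c) * c)
      - ∫ θ in (0 : ℝ)..0.7, D ((30 : ℝ) * (1 - θ * I)) * ((30 : ℝ) * -I) := by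
    rw [e1, e2, e3, ← hc]
    simp
  rw [e4]
  exact (norm_sub_le _ _).trans (add_le_add b2 b3)

end

end Pool.Agent.Lib.XI.Big
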