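import Pool.Agent.Lib.XI.PF

/-!
Dependence of the truncated cosine transform on the truncation point.
-/

namespace Pool.Agent.Lib.XI

open Real Set

noncomputable section

lemma sin_two {h : ℝ → ℝ} (hc : Continuous h) (h0 : ∀ t, 0 ≤ t → 0 ≤ h t)
    (ha : AntitoneOn h (Ici 0)) {s : ℝ} (hs : 0 ≤ s) (h2 : s ≤ 2 * π) :
    0 ≤ ∫ u in (0 : ℝ)..s, h u * sin u := by
  have ii : ∀ (c p q : ℝ), IntervalIntegrable (fun u => h (u + c) * sin u) MeasureTheory.volume p q :=
    fun c p q => Continuous.intervalIntegrable (by fun_prop) _ _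
  have i0 : ∀ (p q : ℝ), IntervalIntegrable (fun u => h u * sin u) MeasureTheory.volume p q :=
    fun p q => Continuous.intervalIntegrable (by fun_prop) _ _
  have pos : ∀ p q, 0 ≤ p → p ≤ q → q ≤ π → 0 ≤ ∫ u in p..q, h u * sin u := fun p q hp hpq hq =>
    intervalIntegral.integral_nonneg hpq fun u hu => mul_nonneg (h0 u (hp.trans hu.1))
      (sin_nonneg_of_nonneg_of_le_pi (hp.trans hu.1) (hu.2.trans hq))
  rcases le_total s π with h1 | h1
  · exact pos 0 s le_rfl hs h1
  have e1 : ∫ u in π..s, h u * sin u = -∫ u in (0 : ℝ)..(s - π), h (u + π) * sin u := by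
    have := intervalIntegral.integral_comp_add_right (a := 0) (b := s - π)
      (fun u => h u * sin u) π
    rw [zero_add, sub_add_cancel] at this
    rw [← this, ← intervalIntegral.integral_neg]
    refine intervalIntegral.integral_congr fun u _ => ?_
    simp [sin_add_pi]
  have e2 : ∫ u in (0 : ℝ)..(s - π), h (u + π) * sin u ≤ ∫ u in (0 : ℝ)..(s - π), h u * sin u := by
    refine intervalIntegral.integral_mono_on (by linarith) (ii _ _ _) (i0 _ _) fun u hu => ?_
    refine mul_le_mul_of_nonneg_right (ha hu.1 ?_ (by linarith [pi_pos]))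
      (sin_nonneg_of_nonneg_of_le_pi hu.1 (by linarith [hu.2]))
    exact mem_Ici.2 (by linarith [pi_pos, hu.1])
  have e3 := intervalIntegral.integral_add_adjacent_intervals (i0 0 π) (i0 π s)
  have e4 := intervalIntegral.integral_add_adjacent_intervals (i0 0 (s - π)) (i0 (s - π) π)
  have e5 := pos (s - π) π (by linarith) (by linarith) le_rfl
  linarith

lemma sin_all (n : ℕ) : ∀ {h : ℝ → ℝ}, Continuous h → (∀ t, 0 ≤ t → 0 ≤ h t) →
    AntitoneOn h (Ici 0) → ∀ {s : ℝ}, 0 ≤ s → s ≤ n * (2 * π) →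
    0 ≤ ∫ u in (0 : ℝ)..s, h u * sin u := by
  induction n with
  | zero =>
    intro h hc h0 ha s hs h2
    exact sin_two hc h0 ha hs (by simp at h2; linarith [pi_pos])
  | succ n ih =>
    intro h hc h0 ha s hs h2
    rcases le_total s (2 * π) with h1 | h1
    · exact sin_two hc h0 ha hs h1
    have i0 : ∀ (p q : ℝ), IntervalIntegrable (fun u => h u * sin u) MeasureTheory.volume p q :=
      fun p q => Continuous.intervalIntegrable (by fun_prop) _ _
    have hp := pi_pos
    have e1 : ∫ u in (2 * π)..s, h u * sin u =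
        ∫ u in (0 : ℝ)..(s - 2 * π), h (u + 2 * π) * sin u := by
      have := intervalIntegral.integral_comp_add_right (a := 0) (b := s - 2 * π)
        (fun u => h u * sin u) (2 * π)
      rw [zero_add, sub_add_cancel] at this
      rw [← this]
      refine intervalIntegral.integral_congr fun u _ => ?_
      simp [sin_add_two_pi]
    have e2 := ih (h := fun u => h (u + 2 * π)) (by fun_prop) (fun t ht => h0 _ (by linarith))
      (fun u hu v hv huv => ha (mem_Ici.2 (by linarith [mem_Ici.1 hu]))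
        (mem_Ici.2 (by linarith [mem_Ici.1 hv])) (by linarith)) (s := s - 2 * π) (by linarith)
      (by push_cast at h2; linarith)
    have e3 := intervalIntegral.integral_add_adjacent_intervals (i0 0 (2 * π)) (i0 (2 * π) s)
    have e4 := sin_two hc h0 ha (s := 2 * π) (by linarith) le_rfl
    linarith

/-- the sine transform of a non-negative antitone function is non-negative -/
lemma sin_nonneg {h : ℝ → ℝ} (hc : Continuous h) (h0 : ∀ t, 0 ≤ t → 0 ≤ h t)
    (ha : AntitoneOn h (Ici 0)) {s x : ℝ} (hs : 0 ≤ s) (hx : 0 < x) :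
    0 ≤ ∫ u in (0 : ℝ)..s, h u * sin (x * u) := by
  obtain ⟨n, hn⟩ := exists_nat_ge (x * s / (2 * π))
  have e := sin_all n (h := fun u => h (u / x)) (by fun_prop) (fun t ht => h0 _ (by positivity))
    (fun u hu v hv huv => ha (mem_Ici.2 (div_nonneg hu hx.le)) (mem_Ici.2 (div_nonneg hv hx.le))
      (by gcongr)) (s := x * s) (by positivity)
    (by rwa [div_le_iff₀ (by linarith [pi_pos])] at hn)
  have e2 := intervalIntegral.integral_comp_mul_left (a := 0) (b := s)
    (fun u => h (u / x) * sin u) hx.ne'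
  simp only [mul_zero, mul_div_cancel_left₀ _ hx.ne', smul_eq_mul] at e2
  rw [e2]; positivity

lemma FR_sub {f : ℝ → ℝ} (hf : Continuous f) (a b x : ℝ) :
    FR f b x - FR f a x = ∫ t in a..b, f t * cos (x * t) :=
  intervalIntegral.integral_interval_sub_left (Continuous.intervalIntegrable (by fun_prop) _ _)
    (Continuous.intervalIntegrable (by fun_prop) _ _)

lemma sgn_cos (k : ℕ) (u : ℝ) : (-1) ^ k * cos u = cos (u - k * π) := by
  rw [cos_sub_nat_mul_pi]

/-- monotonicity in the truncation point inside one half period -/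
theorem FR_mono {f : ℝ → ℝ} (hf : Continuous f) (h0 : ∀ t, 0 ≤ t → 0 ≤ f t) (k : ℕ)
    {a b x : ℝ} (ha : 0 ≤ a) (hab : a ≤ b) (hx : 0 ≤ x) (h1 : (k - 1 / 2) * π ≤ a * x)
    (h2 : b * x ≤ (k + 1 / 2) * π) : (-1) ^ k * FR f a x ≤ (-1) ^ k * FR f b x := by
  rw [← sub_nonneg, ← mul_sub, FR_sub hf, ← intervalIntegral.integral_const_mul]
  refine intervalIntegral.integral_nonneg hab fun t ht => ?_
  rw [mul_left_comm, sgn_cos]
  refine mul_nonneg (h0 t (ha.trans ht.1)) (cos_nonneg_of_mem_Icc ⟨?_, ?_⟩)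
  · nlinarith [mul_le_mul_of_nonneg_right ht.1 hx]
  · nlinarith [mul_le_mul_of_nonneg_right ht.2 hx]

/-- beyond the zero of the cosine the signed transform never gets larger -/
theorem FR_max {f : ℝ → ℝ} (hf : Continuous f) (h0 : ∀ t, 0 ≤ t → 0 ≤ f t)
    (hA : AntitoneOn f (Ici 0)) (k : ℕ) {a b x : ℝ} (ha : 0 ≤ a) (hab : a ≤ b) (hx : 0 < x)
    (h1 : a * x = (k + 1 / 2) * π) : (-1) ^ k * FR f b x ≤ (-1) ^ k * FR f a x := by
  have e := sin_nonneg (h := fun u => f (u + a)) (by fun_prop) (fun t ht => h0 _ (by linarith))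
    (fun u hu v hv huv => hA (mem_Ici.2 (by linarith [mem_Ici.1 hu]))
      (mem_Ici.2 (by linarith [mem_Ici.1 hv])) (by linarith)) (s := b - a) (by linarith) hx
  have e1 := intervalIntegral.integral_comp_add_right (a := 0) (b := b - a)
    (fun t => f t * cos (x * t)) a
  rw [zero_add, sub_add_cancel] at e1
  rw [← sub_nonpos, ← mul_sub, FR_sub hf, ← e1, ← intervalIntegral.integral_const_mul,
    ← neg_nonneg, ← intervalIntegral.integral_neg]
  refine e.trans_eq (intervalIntegral.integral_congr fun u _ => ?_)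
  have : x * (u + a) - k * π = x * u + π / 2 := by linarith
  rw [mul_left_comm, sgn_cos, this, cos_add_pi_div_two]
  ring

/-- one sign check at any later or slightly earlier truncation point gives the sign of a residue -/
theorem bk_nonneg {f : ℝ → ℝ} (hf : Continuous f) (h0 : ∀ t, 0 ≤ t → 0 ≤ f t)
    (hA : AntitoneOn f (Ici 0)) {a : ℝ} (ha : 0 < a) (k : ℕ) {b : ℝ} (hb : 0 ≤ b)
    (h1 : (k - 1 / 2) * π ≤ b * xk a k) (hs : 0 ≤ (-1) ^ k * FR f b (xk a k)) :
    0 ≤ bk f a k := by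
  have hx := xk_pos ha k
  have e : a * xk a k = (k + 1 / 2) * π := by rw [a_xk ha]; ring
  have : (-1) ^ k * FR f b (xk a k) ≤ (-1) ^ k * FR f a (xk a k) := by
    rcases le_total a b with h | h
    · exact FR_max hf h0 hA k ha.le h hx e
    · exact FR_mono hf h0 k hb h hx.le h1 e.le
  unfold bk
  rw [mul_right_comm]
  exact mul_nonneg (hs.trans this) hx.le

theorem bk_zero_pos {f : ℝ → ℝ} (hf : Continuous f) {a : ℝ} (ha : 0 < a)
    (h0 : ∀ t, 0 < t → t < a → 0 < f t) : 0 < bk f a 0 := by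
  have hx := xk_pos ha 0
  have e := a_xk ha 0
  simp only [Nat.cast_zero, zero_mul, zero_add] at e
  unfold bk FR
  rw [pow_zero, one_mul]
  refine mul_pos hx (intervalIntegral.intervalIntegral_pos_of_pos_on
    (Continuous.intervalIntegrable (by fun_prop) _ _) (fun t ht => ?_) ha)
  refine mul_pos (h0 t ht.1 ht.2) (cos_pos_of_mem_Ioo ⟨?_, ?_⟩)
  · nlinarith [mul_pos hx ht.1, pi_pos]
  · nlinarith [mul_lt_mul_of_pos_left ht.2 hx]

lemma FR_cont {f : ℝ → ℝ} (hf : Continuous f) : Continuous fun q : ℝ × ℝ => FR f q.1 q.2 := by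
  unfold FR
  exact intervalIntegral.continuous_parametric_intervalIntegral_of_continuous
    (f := fun (q : ℝ × ℝ) (t : ℝ) => f t * cos (q.2 * t)) (by fun_prop) continuous_fst

/-- the threshold -/
theorem threshold {f : ℝ → ℝ} (hf : Continuous f) (h0 : ∀ t, 0 ≤ t → 0 ≤ f t)
    {lo hi p q : ℝ} (hlo : 0 ≤ lo) (hlh : lo ≤ hi) (hp : 0 ≤ p) (h1 : 3 / 2 * π ≤ lo * p)
    (h2 : hi * q ≤ 5 / 2 * π) (hl : ∃ x ∈ Icc p q, FR f lo x ≤ 0)
    (hh : ∀ x ∈ Icc p q, 0 < FR f hi x) :
    ∃ s, lo ≤ s ∧ s < hi ∧ (∀ a, lo ≤ a → a ≤ s → ∃ x ∈ Icc p q, FR f a x ≤ 0) ∧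
      ∀ a, s < a → a ≤ hi → ∀ x ∈ Icc p q, 0 < FR f a x := by
  have hK : IsCompact ((Icc lo hi ×ˢ Icc p q) ∩ {u : ℝ × ℝ | FR f u.1 u.2 ≤ 0}) :=
    (isCompact_Icc.prod isCompact_Icc).inter_right (isClosed_le (FR_cont hf) continuous_const)
  obtain ⟨x0, hx0, hx1⟩ := hl
  obtain ⟨⟨s, x⟩, ⟨⟨hs, hx⟩, hF⟩, hm⟩ := hK.exists_isMaxOn
    ⟨(lo, x0), ⟨⟨le_rfl, hlh⟩, hx0⟩, hx1⟩ continuous_fst.continuousOn
  simp only [mem_ofPred_eq] at hs hx hF
  refine ⟨s, hs.1, lt_of_le_of_ne hs.2 fun h => ?_, fun a ha has => ⟨x, hx, ?_⟩,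
    fun a hsa ha y hy => ?_⟩
  · exact absurd (hh x hx) (not_lt.2 (h ▸ hF))
  · have hx0 : 0 ≤ x := hp.trans hx.1
    have := FR_mono hf h0 2 (hlo.trans ha) has hx0
      (by push_cast; nlinarith [mul_le_mul ha hx.1 hp (hlo.trans ha)])
      (by push_cast; nlinarith [mul_le_mul hs.2 hx.2 hx0 (hlo.trans hlh)])
    norm_num at this
    linarith
  · by_contra hc
    have := hm (a := (a, y)) ⟨⟨⟨hs.1.trans hsa.le, ha⟩, hy⟩, not_lt.1 hc⟩
    exact absurd hsa (not_lt.2 this)

end

end Pool.Agent.Lib.XI
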