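import Pool.Agent.Lib.XI.Ker
import Pool.Agent.Lib.XI.Mono

/-!
The truncated transform: holomorphy, drift in the truncation point, integration by parts,
monotonicity in the truncation point, and two criteria for zeros in a disc.
-/

namespace Pool.Agent.Lib.XI

open Pool.Agent.Lib.MP_c54d0a_an MeasureTheory

noncomputable section

lemma norm_cos_le (w : ℂ) : ‖Complex.cos w‖ ≤ Real.cosh w.im := by
  rw [Complex.cos, norm_div, Complex.norm_two, Real.cosh_eq]
  have := norm_add_le (Complex.exp (w * Complex.I)) (Complex.exp (-w * Complex.I))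
  rw [Complex.norm_exp, Complex.norm_exp] at this
  simp only [Complex.mul_re, Complex.I_re, mul_zero, Complex.I_im, mul_one, zero_sub,
    Complex.neg_re, Complex.neg_im, neg_neg] at this
  linarith

lemma norm_sin_le (w : ℂ) : ‖Complex.sin w‖ ≤ Real.cosh w.im := by
  rw [Complex.sin, norm_div, Complex.norm_two, Real.cosh_eq, norm_mul, Complex.norm_I, mul_one]
  have := norm_sub_le (Complex.exp (-w * Complex.I)) (Complex.exp (w * Complex.I))
  rw [Complex.norm_exp, Complex.norm_exp] at this
  simp only [Complex.mul_re, Complex.I_re, mul_zero, Complex.I_im, mul_one, zero_sub,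
    Complex.neg_re, Complex.neg_im, neg_neg] at this
  linarith

lemma norm_cos_mul_le (z : ℂ) (t : ℝ) : ‖Complex.cos (z * t)‖ ≤ Real.cosh (z.im * t) := by
  simpa using norm_cos_le (z * t)

lemma norm_sin_mul_le (z : ℂ) (t : ℝ) : ‖Complex.sin (z * t)‖ ≤ Real.cosh (z.im * t) := by
  simpa using norm_sin_le (z * t)

/-- derivative of the truncated cosine transform of a continuous function -/
theorem hasDerivAt_cosT {f : ℝ → ℝ} (hf : Continuous f) (a b : ℝ) (z₀ : ℂ) :
    HasDerivAt (fun z : ℂ => ∫ t in a..b, (f t : ℂ) * Complex.cos (z * t))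
      (∫ t in a..b, (f t : ℂ) * (-Complex.sin (z₀ * t) * t)) z₀ := by
  have h := intervalIntegral.hasDerivAt_integral_of_dominated_loc_of_deriv_le (μ := volume)
    (a := a) (b := b) (F := fun (z : ℂ) (t : ℝ) => (f t : ℂ) * Complex.cos (z * t))
    (F' := fun (z : ℂ) (t : ℝ) => (f t : ℂ) * (-Complex.sin (z * t) * t)) (x₀ := z₀)
    (s := Metric.ball z₀ 1) (bound := fun t => |f t| * (Real.cosh ((‖z₀‖ + 1) * t) * |t|))
    (Metric.ball_mem_nhds z₀ one_pos)
    (Filter.Eventually.of_forall fun z => Continuous.aestronglyMeasurable (by fun_prop))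
    (Continuous.intervalIntegrable (by fun_prop) _ _)
    (Continuous.aestronglyMeasurable (by fun_prop)) (Filter.Eventually.of_forall fun t _ z hz => ?_)
    (Continuous.intervalIntegrable (by fun_prop) _ _) (Filter.Eventually.of_forall fun t _ z _ => ?_)
  · exact h.2
  · have hz' : |z.im| ≤ ‖z₀‖ + 1 := by
      have := norm_sub_norm_le z z₀
      rw [Metric.mem_ball, dist_eq_norm] at hz
      linarith [Complex.abs_im_le_norm z]
    rw [norm_mul, norm_mul, norm_neg, Complex.norm_real, Complex.norm_real, Real.norm_eq_abs,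
      Real.norm_eq_abs]
    gcongr
    refine (norm_sin_mul_le z t).trans (Real.cosh_le_cosh.2 ?_)
    rw [abs_mul, abs_mul, abs_of_nonneg (by positivity : 0 ≤ ‖z₀‖ + 1)]
    gcongr
  · have := (((hasDerivAt_id z).mul_const (t : ℂ)).ccos).const_mul (f t : ℂ)
    simpa using this

theorem hasDerivAt_F (a : ℝ) (z : ℂ) :
    HasDerivAt (F a) (∫ t in (0 : ℝ)..a, (Phi t : ℂ) * (-Complex.sin (z * t) * t)) z :=
  hasDerivAt_cosT continuous_Phi 0 a z

theorem differentiable_F (a : ℝ) : Differentiable ℂ (F a) := fun z =>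
  (hasDerivAt_F a z).differentiableAt

theorem F_sub (a b : ℝ) (z : ℂ) :
    F b z - F a z = ∫ t in a..b, (Phi t : ℂ) * Complex.cos (z * t) :=
  intervalIntegral.integral_interval_sub_left (Continuous.intervalIntegrable (by fun_prop) _ _)
    (Continuous.intervalIntegrable (by fun_prop) _ _)

/-- drift in the truncation point -/
theorem drift_int {a b : ℝ} (hab : a ≤ b) (z : ℂ) :
    ‖F b z - F a z‖ ≤ ∫ t in a..b, Phi t * Real.cosh (z.im * t) := by
  rw [F_sub]
  refine intervalIntegral.norm_integral_le_of_norm_le hab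
    (Filter.Eventually.of_forall fun t _ => ?_) (Continuous.intervalIntegrable (by fun_prop) _ _)
  rw [norm_mul, Complex.norm_real, Real.norm_of_nonneg (Phi_pos t).le]
  exact mul_le_mul_of_nonneg_left (norm_cos_mul_le z t) (Phi_pos t).le

/-- drift, with a constant bound of the integrand -/
theorem drift_const {a b M : ℝ} (hab : a ≤ b) (z : ℂ)
    (hM : ∀ t ∈ Set.Icc a b, Phi t * Real.cosh (z.im * t) ≤ M) :
    ‖F b z - F a z‖ ≤ M * (b - a) := by
  refine (drift_int hab z).trans ?_
  have := intervalIntegral.integral_mono_on (μ := volume) hab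
    (Continuous.intervalIntegrable (u := fun t => Phi t * Real.cosh (z.im * t)) (by fun_prop) _ _)
    (intervalIntegrable_const (c := M)) hM
  simpa [mul_comm] using this

/-- drift, crude form -/
theorem drift {a b y : ℝ} (ha : 0 ≤ a) (hab : a ≤ b) {z : ℂ} (hz : |z.im| ≤ y) :
    ‖F b z - F a z‖ ≤ Phi a * Real.cosh (y * b) * (b - a) := by
  refine drift_const hab z fun t ht => ?_
  have h0 : 0 ≤ t := ha.trans ht.1
  have hy : 0 ≤ y := (abs_nonneg _).trans hz
  refine mul_le_mul (Phi_le_Phi ha ht.1) (Real.cosh_le_cosh.2 ?_) (Real.cosh_pos _).le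
    (Phi_pos a).le
  rw [abs_mul, abs_of_nonneg h0, abs_of_nonneg (mul_nonneg hy (h0.trans ht.2))]
  exact mul_le_mul hz ht.2 h0 hy

theorem F_eq_FC (a : ℝ) : F a = FC Phi a := rfl

theorem F_ofReal (a x : ℝ) : F a x = (FR Phi a x : ℂ) := FC_real Phi a x

theorem hasDerivAt_FR_left (a x : ℝ) :
    HasDerivAt (fun s => FR Phi s x) (Phi a * Real.cos (x * a)) a :=
  ((show Continuous fun t => Phi t * Real.cos (x * t) by fun_prop).integral_hasStrictDerivAt
    0 a).hasDerivAt

theorem continuous_F : Continuous fun p : ℝ × ℂ => F p.1 p.2 := by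
  unfold F
  fun_prop

theorem FR_zero_pos {a : ℝ} (ha : 0 < a) : 0 < FR Phi a 0 := by
  unfold FR
  simp only [zero_mul, Real.cos_zero, mul_one]
  exact intervalIntegral.intervalIntegral_pos_of_pos (continuous_Phi.intervalIntegrable _ _)
    Phi_pos ha

lemma ibp_cos {f g : ℝ → ℝ} (h : ∀ t, HasDerivAt f (g t) t) (hg : Continuous g) (a b x c : ℝ) :
    x * ∫ t in a..b, f t * Real.cos (x * t)
      = f b * (Real.sin (x * b) - c) - f a * (Real.sin (x * a) - c)
        - ∫ t in a..b, g t * (Real.sin (x * t) - c) := by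
  have h1 : ∀ t, HasDerivAt (fun s => Real.sin (x * s) - c) (Real.cos (x * t) * x) t := fun t => by
    simpa using (((hasDerivAt_id t).const_mul x).sin).sub_const c
  rw [← intervalIntegral.integral_mul_deriv_eq_deriv_mul (fun t _ => h t) (fun t _ => h1 t)
    (hg.intervalIntegrable _ _) (Continuous.intervalIntegrable (by fun_prop) _ _),
    ← intervalIntegral.integral_const_mul]
  congr 1
  funext t
  ring

lemma ibp_sin {f g : ℝ → ℝ} (h : ∀ t, HasDerivAt f (g t) t) (hg : Continuous g) (a b x : ℝ) :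
    x * ∫ t in a..b, f t * Real.sin (x * t)
      = -(f b * Real.cos (x * b)) + f a * Real.cos (x * a)
        + ∫ t in a..b, g t * Real.cos (x * t) := by
  have h1 : ∀ t, HasDerivAt (fun s => Real.cos (x * s)) (-Real.sin (x * t) * x) t := fun t => by
    simpa using ((hasDerivAt_id t).const_mul x).cos
  have := intervalIntegral.integral_mul_deriv_eq_deriv_mul (a := a) (b := b) (fun t _ => h t)
    (fun t _ => h1 t) (hg.intervalIntegrable _ _) (Continuous.intervalIntegrable (by fun_prop) _ _)
  have e : ∫ t in a..b, f t * (-Real.sin (x * t) * x)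
      = -(x * ∫ t in a..b, f t * Real.sin (x * t)) := by
    rw [← intervalIntegral.integral_const_mul, ← intervalIntegral.integral_neg]
    congr 1
    funext t
    ring
  linarith

/-- one integration by parts -/
theorem FR_ibp1 (a x : ℝ) :
    x * FR Phi a x = Phi a * Real.sin (x * a) - ∫ t in (0 : ℝ)..a, Phi1 t * Real.sin (x * t) := by
  have := ibp_cos hasDerivAt_Phi continuous_Phi1 0 a x 0
  simpa [FR] using this

/-- two integrations by parts -/
theorem FR_ibp2 (a x : ℝ) :
    x ^ 2 * FR Phi a x = x * Phi a * Real.sin (x * a) + Phi1 a * Real.cos (x * a)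
      - ∫ t in (0 : ℝ)..a, Phi2 t * Real.cos (x * t) := by
  have h1 := FR_ibp1 a x
  have h2 := ibp_sin hasDerivAt_Phi1 continuous_Phi2 0 a x
  rw [Phi1_zero] at h2
  linear_combination x * h1 - h2

/-- three integrations by parts -/
theorem FR_ibp3 (a x : ℝ) :
    x ^ 3 * FR Phi a x = x ^ 2 * Phi a * Real.sin (x * a) + x * Phi1 a * Real.cos (x * a)
      - Phi2 a * Real.sin (x * a) + ∫ t in (0 : ℝ)..a, Phi3 t * Real.sin (x * t) := by
  have h1 := FR_ibp2 a x
  have h2 := ibp_cos hasDerivAt_Phi2 continuous_Phi3 0 a x 0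
  simp only [sub_zero, mul_zero, Real.sin_zero] at h2
  linear_combination x * h1 - h2

/-- lower bound of the coefficients from three integrations by parts -/
theorem bk_ibp3 {a : ℝ} (ha : 0 < a) (k : ℕ) :
    xk a k ^ 2 * bk Phi a k = xk a k ^ 2 * Phi a - Phi2 a
      + (-1) ^ k * ∫ t in (0 : ℝ)..a, Phi3 t * Real.sin (xk a k * t) := by
  have h := FR_ibp3 a (xk a k)
  have e : xk a k * a = Real.pi / 2 + k * Real.pi := by rw [mul_comm, a_xk ha]; ring
  rw [e, Real.sin_add_nat_mul_pi, Real.cos_add_nat_mul_pi, Real.sin_pi_div_two,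
    Real.cos_pi_div_two] at h
  have hs : ((-1 : ℝ) ^ k) * (-1) ^ k = 1 := by rw [← mul_pow]; simp
  unfold bk
  linear_combination (-1) ^ k * h + (xk a k ^ 2 * Phi a - Phi2 a) * hs

/-- the same from two integrations by parts -/
theorem bk_ibp2 {a : ℝ} (ha : 0 < a) (k : ℕ) :
    xk a k * bk Phi a k = xk a k * Phi a
      - (-1) ^ k * ∫ t in (0 : ℝ)..a, Phi2 t * Real.cos (xk a k * t) := by
  have h := FR_ibp2 a (xk a k)
  have e : xk a k * a = Real.pi / 2 + k * Real.pi := by rw [mul_comm, a_xk ha]; ring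
  rw [e, Real.sin_add_nat_mul_pi, Real.cos_add_nat_mul_pi, Real.sin_pi_div_two,
    Real.cos_pi_div_two] at h
  have hs : ((-1 : ℝ) ^ k) * (-1) ^ k = 1 := by rw [← mul_pow]; simp
  unfold bk
  linear_combination (-1) ^ k * h + (xk a k * Phi a) * hs

/-- minimum modulus principle on a disc -/
theorem zero_of_min_modulus {g : ℂ → ℂ} (hg : Differentiable ℂ g) {c : ℂ} {r m : ℝ} (hr : 0 < r)
    (hc : ‖g c‖ < m) (hs : ∀ z, ‖z - c‖ = r → m ≤ ‖g z‖) : ∃ z, ‖z - c‖ ≤ r ∧ g z = 0 := by
  by_contra hcon
  push Not at hcon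
  have hm : 0 < m := (norm_nonneg _).trans_lt hc
  have hd : DiffContOnCl ℂ (fun z => (g z)⁻¹) (Metric.ball c r) := by
    apply DifferentiableOn.diffContOnCl
    rw [closure_ball c hr.ne']
    exact hg.differentiableOn.inv fun z hz => hcon z (mem_closedBall_iff_norm.1 hz)
  have h1 := Complex.norm_le_of_forall_mem_frontier_norm_le (C := m⁻¹) Metric.isBounded_ball hd
    (fun z hz => by
      rw [frontier_ball c hr.ne'] at hz
      rw [norm_inv]
      exact inv_anti₀ hm (hs z (mem_sphere_iff_norm.1 hz)))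
    (z := c) (subset_closure (Metric.mem_ball_self hr))
  have hne : 0 < ‖g c‖ := norm_pos_iff.2 (hcon c (by simpa using hr.le))
  rw [norm_inv, inv_le_inv₀ hne hm] at h1
  linarith

/-- a function close to a linear function with a zero near the centre has a zero in the disc -/
theorem zero_of_linear {g : ℂ → ℂ} (hg : Differentiable ℂ g) {c A B : ℂ} {r e : ℝ} (hr : 0 < r)
    (he : ∀ z, ‖z - c‖ ≤ r → ‖g z - (A + B * (z - c))‖ ≤ e)
    (h : 2 * ‖A‖ + 2 * e < ‖B‖ * r) : ∃ z, ‖z - c‖ ≤ r ∧ g z = 0 := by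
  refine zero_of_min_modulus hg hr (m := ‖B‖ * r - ‖A‖ - e) ?_ fun z hz => ?_
  · have h1 := he c (by simpa using hr.le)
    rw [sub_self, mul_zero, add_zero] at h1
    have := norm_sub_norm_le (g c) A
    linarith
  · have h1 := he z hz.le
    have e1 : B * (z - c) = g z + -A + -(g z - (A + B * (z - c))) := by ring
    have h2 := norm_add₃_le (a := g z) (b := -A) (c := -(g z - (A + B * (z - c))))
    rw [← e1, norm_mul, hz, norm_neg, norm_neg] at h2
    linarith

end

end Pool.Agent.Lib.XI
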