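import Pool.Agent.Lib.XI.BigA
import Pool.Agent.Lib.XI.Ent

/-!
Normal form of the truncated transform near the imaginary axis for a large truncation point.
-/

namespace Pool.Agent.Lib.XI.Big

open Complex MeasureTheory Pool.Agent.Lib.MP_c54d0a_an

noncomputable section

/-- the rescaled variable -/
def ss (y : ℝ) (w : ℂ) : ℂ := 4 * (y : ℂ) ^ 2 + 4 * y * w - 5

/-- the normalising factor -/
def NN (a y : ℝ) (w : ℂ) : ℂ := (y : ℂ) ^ 2 * cexp ((ss y w + 1) * a - (y : ℂ) ^ 2)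

lemma uu_eq {a y : ℝ} (hy : y ^ 2 = Real.pi * Real.exp (4 * a)) (t : ℝ) :
    uu 0 t = y ^ 2 * Real.exp (-(4 * (a - t))) := by
  unfold uu
  rw [hy, mul_assoc Real.pi, ← Real.exp_add, show 4 * a + -(4 * (a - t)) = 4 * t by ring]
  norm_num

lemma key {a y : ℝ} (hy0 : 0 < y) (hy : y ^ 2 = Real.pi * Real.exp (4 * a)) (w : ℂ) (t : ℝ) :
    ((Real.exp t * uu 0 t * Real.exp (-uu 0 t) : ℝ) : ℂ) * cexp (ss y w * t)
      = NN a y w * gg y⁻¹ w ((4 * y * (a - t) : ℝ) : ℂ) := by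
  have h0 : (y : ℂ) ≠ 0 := by exact_mod_cast hy0.ne'
  rw [uu_eq hy]
  unfold NN gg ph
  push_cast
  have e1 : (y : ℂ)⁻¹ * (4 * y * (a - t)) = 4 * (a - t) := by field_simp
  rw [e1]
  set E : ℂ := cexp (-(4 * ((a : ℂ) - t))) with hE
  have e2 : cexp t * E * cexp (-((y : ℂ) ^ 2 * E)) * cexp (ss y w * t)
      = cexp ((ss y w + 1) * a - (y : ℂ) ^ 2)
        * cexp (-(w * (4 * y * (a - t))) - (E - 1 + 4 * (a - t)) / (y : ℂ)⁻¹ ^ 2) := by
    nth_rewrite 1 [hE]
    rw [← Complex.exp_add, ← Complex.exp_add, ← Complex.exp_add, ← Complex.exp_add]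
    congr 1
    unfold ss
    field_simp
    ring
  linear_combination (y : ℂ) ^ 2 * e2

lemma main_int {a y : ℝ} (hy0 : 0 < y) (hy : y ^ 2 = Real.pi * Real.exp (4 * a)) (w : ℂ) :
    ∫ t in (0 : ℝ)..a, ((TT P0 0 t : ℝ) : ℂ) * cexp (ss y w * t)
      = NN a y w * (-1 / 2 + (ss y w - 1) / (8 * y) * JJ y⁻¹ w (4 * y * a)
        + gg y⁻¹ w ((4 * y * a : ℝ) : ℂ) / 2) := by
  have h0 : (y : ℂ) ≠ 0 := by exact_mod_cast hy0.ne'
  have hc : Continuous fun t : ℝ => ((TT P0 0 t : ℝ) : ℂ) :=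
    continuous_ofReal.comp (continuous_iff_continuousAt.2 fun t =>
      (hasDerivAt_TT P0 0 t).continuousAt)
  rw [intervalIntegral.integral_eq_sub_of_hasDerivAt
    (f := fun t : ℝ => NN a y w * (-((ss y w - 1) / (8 * y)) * JJ y⁻¹ w (4 * y * (a - t))
      - gg y⁻¹ w ((4 * y * (a - t) : ℝ) : ℂ) / 2))
    (fun t _ => by
      have hl : HasDerivAt (fun t : ℝ => 4 * y * (a - t)) (-(4 * y)) t := by
        simpa using ((hasDerivAt_id t).const_sub a).const_mul (4 * y)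
      have d1 : HasDerivAt (fun R => JJ y⁻¹ w R) (gg y⁻¹ w ((4 * y * (a - t) : ℝ) : ℂ))
          (4 * y * (a - t)) :=
        ((show Continuous fun x : ℝ => gg y⁻¹ w x by fun_prop).integral_hasStrictDerivAt
          0 (4 * y * (a - t))).hasDerivAt
      have d2 := (hasDerivAt_gg (inv_ne_zero hy0.ne') w ((4 * y * (a - t) : ℝ) : ℂ)).comp_ofReal
      have d3 := ((((d1.scomp t hl).const_mul (-((ss y w - 1) / (8 * y)))).sub
        ((d2.scomp t hl).div_const 2)).const_mul (NN a y w))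
      refine HasDerivAt.congr_deriv d3 ?_
      have k := key hy0 hy w t
      have e1 : ((TT P0 0 t : ℝ) : ℂ) = ((Real.exp t * uu 0 t * Real.exp (-uu 0 t) : ℝ) : ℂ)
          * (2 * (uu 0 t : ℝ) - 3) := by
        unfold TT
        rw [eval_P0]
        push_cast
        ring
      have e2 : cexp (-(((y⁻¹ : ℝ) : ℂ) * ((4 * y * (a - t) : ℝ) : ℂ)))
          = ((uu 0 t : ℝ) : ℂ) / (y : ℂ) ^ 2 := by
        rw [uu_eq hy]
        push_cast
        rw [show (y : ℂ)⁻¹ * (4 * y * (a - t)) = 4 * (a - t) by field_simp]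
        field_simp
      rw [e1, mul_right_comm _ _ (cexp (ss y w * t)), k, e2]
      generalize gg y⁻¹ w ((4 * y * (a - t) : ℝ) : ℂ) = G
      simp only [real_smul]
      unfold ss
      push_cast
      field_simp
      ring)
    (Continuous.intervalIntegrable (by fun_prop) _ _)]
  simp only [sub_self, mul_zero, sub_zero, ofReal_zero, gg_zero]
  have : JJ y⁻¹ w 0 = 0 := by simp [JJ]
  rw [this]
  ring

lemma Phi_zero_le : Phi 0 ≤ 0.6 := by
  have h := (abs_le.1 (Phi_tail (N := 1) le_rfl (le_refl (0 : ℝ)))).2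
  rw [Finset.sum_range_one] at h
  unfold TT at h
  rw [eval_P0] at h
  have u0 : uu 0 0 = Real.pi := by simp [uu]
  have u1 : uu 1 0 = 4 * Real.pi := by simp [uu]; norm_num
  rw [u0, u1, Real.exp_zero] at h
  have p1 := Real.pi_gt_three
  have p2 := Real.pi_lt_d2
  have h1 := exp_neg_le 3 (x := -Real.pi) (by push_cast; linarith)
  have h2 := exp_neg_le 12 (x := -(4 * Real.pi)) (by push_cast; linarith)
  have h3 : (2 * Real.pi ^ 2 - 3 * Real.pi) * Real.exp (-Real.pi) ≤ 10.9 * 0.3679 ^ 3 :=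
    mul_le_mul (by nlinarith) h1 (Real.exp_pos _).le (by norm_num)
  have h4 : (4 * Real.pi) ^ 2 * Real.exp (-(4 * Real.pi)) ≤ 160 * 0.3679 ^ 12 :=
    mul_le_mul (by nlinarith) h2 (Real.exp_pos _).le (by norm_num)
  norm_num at h h3 h4 ⊢
  linarith

lemma y_facts {a y : ℝ} (ha : 11 / 20 ≤ a) (hy0 : 0 < y)
    (hy : y ^ 2 = Real.pi * Real.exp (4 * a)) : 5.32 ≤ y ∧ a ≤ y ^ 2 / 50 := by
  have h1 : 9.014 ≤ Real.exp 2.2 := by
    have e : Real.exp 2.2 = Real.exp 1 * Real.exp 1 * Real.exp 0.2 := by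
      rw [← Real.exp_add, ← Real.exp_add]; norm_num
    have h1 := Real.exp_one_gt_d9
    have h2 := Real.quadratic_le_exp_of_nonneg (x := 0.2) (by norm_num)
    rw [e]
    calc (9.014 : ℝ) ≤ 2.7182818283 * 2.7182818283 * (1 + 0.2 + 0.2 ^ 2 / 2) := by norm_num
      _ ≤ _ := by gcongr
  have h2 : Real.exp (4 * a) = Real.exp 2.2 * Real.exp (4 * a - 2.2) := by
    rw [← Real.exp_add]; congr 1; ring
  have h3 := Real.add_one_le_exp (4 * a - 2.2)
  have h4 : 3.1415 * (9.014 * (4 * a - 2.2 + 1)) ≤ y ^ 2 := by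
    rw [hy, h2]
    have := Real.pi_gt_d4
    have : 0 ≤ 4 * a - 2.2 + 1 := by linarith
    gcongr
  refine ⟨by_contra fun h => ?_, by linarith⟩
  nlinarith

lemma second_int {a y : ℝ} (ha : 11 / 20 ≤ a) (hy0 : 0 < y)
    (hy : y ^ 2 = Real.pi * Real.exp (4 * a)) {w : ℂ} (hw : -2.4 ≤ w.re) :
    ‖∫ t in (0 : ℝ)..a, ((Phi t - TT P0 0 t : ℝ) : ℂ) * cexp (ss y w * t)‖
      ≤ ‖NN a y w‖ * (1e-4 * y) := by
  obtain ⟨h1, h2⟩ := y_facts ha hy0 hy
  have ha0 : 0 ≤ a := by linarith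
  refine (intervalIntegral.norm_integral_le_of_norm_le_const
    (C := ‖NN a y w‖ * (32.07 * y ^ 2 * Real.exp (-(0.62 * y ^ 2)))) fun t ht => ?_).trans ?_
  · rw [Set.uIoc_of_le ha0] at ht
    have h := Phi_tail (N := 1) le_rfl ht.1.le
    rw [Finset.sum_range_one] at h
    have u1 : uu 1 t = 4 * uu 0 t := by simp [uu]; ring
    have up := uu_pos 0 t
    have e4 : Real.exp (-(4 * uu 0 t)) = Real.exp (-(3 * uu 0 t)) * Real.exp (-uu 0 t) := by
      rw [← Real.exp_add]; congr 1; ring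
    rw [u1, e4] at h
    have k := congrArg norm (key hy0 hy w t)
    rw [norm_mul, norm_mul, norm_real, Real.norm_of_nonneg (by positivity)] at k
    have hv : 0 ≤ a - t := by linarith [ht.2]
    have b1 : Real.exp (-(3 * uu 0 t)) * ‖gg y⁻¹ w ((4 * y * (a - t) : ℝ) : ℂ)‖
        ≤ Real.exp (-(0.62 * y ^ 2)) := by
      rw [norm_gg_real, ← Real.exp_add, uu_eq hy,
        show y⁻¹ * (4 * y * (a - t)) = 4 * (a - t) by field_simp, inv_pow, div_inv_eq_mul]
      refine Real.exp_le_exp.2 ?_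
      set v := 4 * (a - t) with hv0
      have hv1 : 0 ≤ v := by positivity
      have c1 : 0.1353 * (3 - v) ≤ Real.exp (-v) := by
        rcases le_total v 3 with h3 | h3
        · have e : Real.exp (-v) = Real.exp (-1) * Real.exp (-1) * Real.exp (2 - v) := by
            rw [← Real.exp_add, ← Real.exp_add]; congr 1; ring
          have c2 := Real.exp_neg_one_gt_d9
          have c3 := Real.add_one_le_exp (2 - v)
          rw [e]
          calc 0.1353 * (3 - v) ≤ 0.36787944116 * 0.36787944116 * (2 - v + 1) := by nlinarith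
            _ ≤ _ := by
              have : 0 ≤ 2 - v + 1 := by linarith
              gcongr
        · nlinarith [Real.exp_pos (-v)]
      have c2 := mul_le_mul_of_nonneg_left c1 (sq_nonneg y)
      have c3 := mul_le_mul_of_nonneg_left hw (mul_nonneg hy0.le hv1)
      have c4 := mul_le_mul_of_nonneg_left h1 (mul_nonneg hy0.le hv1)
      have c5 : 4 * y * (a - t) = y * v := by rw [hv0]; ring
      rw [c5]
      nlinarith [mul_nonneg hy0.le hv1, sq_nonneg y]
    have b2 : uu 0 t ≤ y ^ 2 := by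
      rw [uu_eq hy]
      exact mul_le_of_le_one_right (sq_nonneg y) (Real.exp_le_one_iff.2 (by linarith))
    rw [norm_mul, norm_real, Real.norm_eq_abs]
    calc _ ≤ (1.002 * (Real.exp t * 2 * (4 * uu 0 t) ^ 2
          * (Real.exp (-(3 * uu 0 t)) * Real.exp (-uu 0 t)))) * ‖cexp (ss y w * t)‖ := by gcongr
      _ = 32.064 * uu 0 t * Real.exp (-(3 * uu 0 t))
          * (Real.exp t * uu 0 t * Real.exp (-uu 0 t) * ‖cexp (ss y w * t)‖) := by ring
      _ = ‖NN a y w‖ * (32.064 * uu 0 t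
          * (Real.exp (-(3 * uu 0 t)) * ‖gg y⁻¹ w ((4 * y * (a - t) : ℝ) : ℂ)‖)) := by
          rw [k]; ring
      _ ≤ _ := by
          gcongr
          norm_num
  · rw [sub_zero, abs_of_nonneg ha0, mul_assoc]
    refine mul_le_mul_of_nonneg_left ?_ (norm_nonneg _)
    have e : Real.exp (-(0.62 * y ^ 2)) = Real.exp (-(0.4 * y ^ 2)) * Real.exp (-(0.22 * y ^ 2)) := by
      rw [← Real.exp_add]; congr 1; ring
    have c1 := exp_neg_le 11 (x := -(0.4 * y ^ 2)) (by push_cast; nlinarith)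
    have c2 : y ^ 4 * Real.exp (-(0.22 * y ^ 2)) ≤ 42 := by
      rw [Real.exp_neg, ← div_eq_mul_inv, div_le_iff₀ (Real.exp_pos _)]
      have := Real.quadratic_le_exp_of_nonneg (x := 0.22 * y ^ 2) (by positivity)
      nlinarith [sq_nonneg y, sq_nonneg (y ^ 2)]
    rw [e]
    calc _ ≤ 32.07 * y ^ 2 * (0.3679 ^ 11 * Real.exp (-(0.22 * y ^ 2))) * (y ^ 2 / 50) := by gcongr
      _ = 32.07 * 0.3679 ^ 11 / 50 * (y ^ 4 * Real.exp (-(0.22 * y ^ 2))) := by ring
      _ ≤ 32.07 * 0.3679 ^ 11 / 50 * 42 := by gcongr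
      _ ≤ 1e-4 * 5.32 := by norm_num
      _ ≤ _ := by gcongr

lemma third_int {a y : ℝ} (ha : 11 / 20 ≤ a) (hy0 : 0 < y)
    (hy : y ^ 2 = Real.pi * Real.exp (4 * a)) {w : ℂ} (hw : -2.4 ≤ w.re) :
    ‖∫ t in (0 : ℝ)..a, (Phi t : ℂ) * cexp (-(ss y w * t))‖ ≤ ‖NN a y w‖ * (3e-4 * y) := by
  obtain ⟨h1, h2⟩ := y_facts ha hy0 hy
  have ha0 : 0 ≤ a := by linarith
  have hs : (ss y w).re = 4 * y ^ 2 + 4 * y * w.re - 5 := by
    unfold ss
    rw [← ofReal_pow]
    simp [-ofReal_pow]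
  have c0 := mul_le_mul_of_nonneg_left hw hy0.le
  refine (intervalIntegral.norm_integral_le_of_norm_le_const (C := 0.6) fun t ht => ?_).trans ?_
  · rw [Set.uIoc_of_le ha0] at ht
    rw [norm_mul, norm_real, Real.norm_of_nonneg (Phi_pos t).le, norm_exp]
    have c1 : Real.exp (-(ss y w * t)).re ≤ 1 := by
      rw [Real.exp_le_one_iff, neg_re, re_mul_ofReal, hs, neg_nonpos]
      exact mul_nonneg (by nlinarith) ht.1.le
    calc _ ≤ 0.6 * 1 := mul_le_mul ((Phi_le_Phi le_rfl ht.1.le).trans Phi_zero_le) c1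
          (Real.exp_pos _).le (by norm_num)
      _ = _ := by norm_num
  · rw [sub_zero, abs_of_nonneg ha0]
    have c1 : y ^ 2 * 8.5 ≤ ‖NN a y w‖ := by
      unfold NN
      rw [norm_mul, norm_pow, norm_real, Real.norm_of_nonneg hy0.le, norm_exp, sub_re,
        re_mul_ofReal, add_re, hs, ← ofReal_pow, ofReal_re, one_re]
      refine mul_le_mul_of_nonneg_left ?_ (sq_nonneg y)
      have c2 : 3 ≤ (4 * y ^ 2 + 4 * y * w.re - 5 + 1) * a - y ^ 2 := by
        have c3 : 0 ≤ 4 * y ^ 2 + 4 * y * w.re - 5 + 1 := by nlinarith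
        have := mul_le_mul_of_nonneg_left ha c3
        nlinarith
      refine le_trans ?_ (Real.exp_le_exp.2 c2)
      have := Real.quadratic_le_exp_of_nonneg (x := 3) (by norm_num)
      norm_num at this ⊢
      linarith
    calc 0.6 * a ≤ y ^ 2 * 8.5 * (3e-4 * 5.32) := by nlinarith [sq_nonneg y]
      _ ≤ _ := by gcongr

/-- the normalised function -/
def EE (a y : ℝ) (w : ℂ) : ℂ := F a (I * ss y w) * (4 / y / NN a y w)

lemma NN_ne {a y : ℝ} (hy0 : 0 < y) (w : ℂ) : NN a y w ≠ 0 :=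
  mul_ne_zero (pow_ne_zero _ (by exact_mod_cast hy0.ne')) (exp_ne_zero _)

lemma differentiable_EE {a y : ℝ} (hy0 : 0 < y) : Differentiable ℂ (EE a y) := by
  have h1 : Differentiable ℂ (ss y) := by unfold ss; fun_prop
  have h2 : Differentiable ℂ (NN a y) := by unfold NN; fun_prop
  exact ((differentiable_F a).comp (h1.const_mul I)).mul
    ((differentiable_const _).div h2 (NN_ne hy0))

/-- normal form -/
theorem nf {a y : ℝ} (ha : 11 / 20 ≤ a) (hy0 : 0 < y)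
    (hy : y ^ 2 = Real.pi * Real.exp (4 * a)) {w : ℂ} (hw : -2.4 ≤ w.re) (hn : ‖w‖ ≤ 4) :
    ‖EE a y w - ((1 + (y⁻¹ : ℝ) * w - 3 / 2 * ((y⁻¹ : ℝ) : ℂ) ^ 2) * JJ y⁻¹ w 30 - (y⁻¹ : ℝ))‖
      ≤ 0.0021 := by
  obtain ⟨h1, h2⟩ := y_facts ha hy0 hy
  have h0 : (y : ℂ) ≠ 0 := by exact_mod_cast hy0.ne'
  have hN := NN_ne (a := a) hy0 w
  have he : 0 < y⁻¹ := inv_pos.2 hy0
  have he1 : y⁻¹ ≤ 0.188 := by
    rw [inv_le_comm₀ hy0 (by norm_num)]
    exact le_trans (by norm_num) h1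
  have hc : Continuous fun t : ℝ => TT P0 0 t :=
    continuous_iff_continuousAt.2 fun t => (hasDerivAt_TT P0 0 t).continuousAt
  have e1 : F a (I * ss y w) = ((∫ t in (0 : ℝ)..a, ((TT P0 0 t : ℝ) : ℂ) * cexp (ss y w * t))
      + (∫ t in (0 : ℝ)..a, ((Phi t - TT P0 0 t : ℝ) : ℂ) * cexp (ss y w * t))
      + ∫ t in (0 : ℝ)..a, (Phi t : ℂ) * cexp (-(ss y w * t))) / 2 := by
    rw [← intervalIntegral.integral_add (Continuous.intervalIntegrable (by fun_prop) _ _)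
      (Continuous.intervalIntegrable (by fun_prop) _ _),
      ← intervalIntegral.integral_add (Continuous.intervalIntegrable (by fun_prop) _ _)
      (Continuous.intervalIntegrable (by fun_prop) _ _), ← intervalIntegral.integral_div]
    unfold F
    refine intervalIntegral.integral_congr fun t _ => ?_
    rw [show I * ss y w * t = ss y w * t * I by ring, Complex.cos_mul_I, Complex.cosh]
    push_cast
    ring
  have b2 := second_int ha hy0 hy hw
  have b3 := third_int ha hy0 hy hw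
  have hR : 11.7 ≤ 4 * y * a := by nlinarith
  have b4 := JJ_tail he he1 hw hR
  have b5 := JJ_tail he he1 hw (R := 30) (by norm_num)
  have b6 : ‖gg y⁻¹ w ((4 * y * a : ℝ) : ℂ)‖ ≤ 0.3679 ^ 7 :=
    (norm_gg_le he he1 hw (by linarith)).trans (exp_neg_le 7 (by push_cast; linarith))
  rw [main_int hy0 hy] at e1
  unfold EE
  rw [e1]
  generalize (∫ t in (0 : ℝ)..a, ((Phi t - TT P0 0 t : ℝ) : ℂ) * cexp (ss y w * t)) = I2 at b2
  generalize (∫ t in (0 : ℝ)..a, (Phi t : ℂ) * cexp (-(ss y w * t))) = I3 at b3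
  generalize gg y⁻¹ w ((4 * y * a : ℝ) : ℂ) = G at b6
  generalize JJ y⁻¹ w (4 * y * a) = J1 at b4
  generalize JJ y⁻¹ w 30 = J2 at b5
  generalize JJ y⁻¹ w 11.7 = J0 at b4 b5
  generalize NN a y w = N at b2 b3 hN
  set f : ℂ := 1 + (y⁻¹ : ℝ) * w - 3 / 2 * ((y⁻¹ : ℝ) : ℂ) ^ 2 with hf
  have e2 : (N * (-1 / 2 + (ss y w - 1) / (8 * y) * J1 + G / 2) + I2 + I3) / 2 * (4 / y / N)
      - (f * J2 - (y⁻¹ : ℝ))
      = f * ((J1 - J0) - (J2 - J0)) + (y⁻¹ : ℝ) * G + (I2 + I3) * (2 / y / N) := by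
    rw [hf]
    unfold ss
    push_cast
    field_simp
    ring
  rw [e2]
  have n1 : ‖f‖ ≤ 1.81 := by
    have := (norm_sub_le (1 + (y⁻¹ : ℝ) * w) (3 / 2 * ((y⁻¹ : ℝ) : ℂ) ^ 2)).trans
      (add_le_add (norm_add_le _ _) le_rfl)
    rw [norm_mul, norm_mul, norm_pow, norm_real, Real.norm_of_nonneg he.le, norm_one] at this
    have c1 : ‖(3 / 2 : ℂ)‖ = 3 / 2 := by simp
    rw [c1] at this
    nlinarith [mul_le_mul he1 hn (norm_nonneg _) (by norm_num), mul_le_mul he1 he1 he.le (by norm_num)]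
  have n2 : ‖f * ((J1 - J0) - (J2 - J0))‖ ≤ 1.81 * (3e-4 + 3e-4) := by
    rw [norm_mul]
    exact mul_le_mul n1 ((norm_sub_le _ _).trans (add_le_add b4 b5)) (norm_nonneg _) (by norm_num)
  have n3 : ‖((y⁻¹ : ℝ) : ℂ) * G‖ ≤ 0.188 * 0.3679 ^ 7 := by
    rw [norm_mul, norm_real, Real.norm_of_nonneg he.le]
    exact mul_le_mul he1 b6 (norm_nonneg _) (by norm_num)
  have n4 : ‖(I2 + I3) * (2 / y / N)‖ ≤ 8e-4 := by
    have hN0 : 0 < ‖N‖ := norm_pos_iff.2 hN
    rw [norm_mul, norm_div, norm_div, norm_real, Real.norm_of_nonneg hy0.le, Complex.norm_two]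
    calc _ ≤ (‖N‖ * (1e-4 * y) + ‖N‖ * (3e-4 * y)) * (2 / y / ‖N‖) := by
          gcongr
          exact (norm_add_le _ _).trans (add_le_add b2 b3)
      _ = _ := by field_simp; norm_num
  refine (norm_add₃_le).trans ?_
  norm_num at n2 n3 n4 ⊢
  linarith

end

end Pool.Agent.Lib.XI.Big
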