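import Pool.Agent.Lib.XI.BigB

/-!
A polynomial model of the normal form on a chain of discs, and the non-real zero for a large
truncation point.
-/

namespace Pool.Agent.Lib.XI.Big

open Complex MeasureTheory Pool.Agent.Lib.MP_c54d0a_an

/-- evaluate a natural number before going on -/
def fN {α : Type} (n : ℕ) (k : ℕ → α) : α :=
  match n with
  | 0 => k 0
  | n + 1 => k (n + 1)

/-- evaluate an integer before going on -/
def fI {α : Type} (n : ℤ) (k : ℤ → α) : α :=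
  match n with
  | .ofNat m => fN m fun m => k (.ofNat m)
  | .negSucc m => fN m fun m => k (.negSucc m)

/-- division of a polynomial with carry by a linear polynomial, with the rounding error -/
def go (Ar Ai B den : ℤ) : List (ℤ × ℤ) → ℤ → ℤ → (List (ℤ × ℤ) → ℤ → Bool) → Bool
  | [], ur, ui, k => fI (|ur| + |ui|) (k [])
  | x :: xs, ur, ui, k =>
    fI (100000000 * x.1 - ur) fun nr => fI (100000000 * x.2 - ui) fun ni =>
    fI ((nr * Ar + ni * Ai) / den) fun qr => fI ((ni * Ar - nr * Ai) / den) fun qi =>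
    go Ar Ai B den xs (B * qr) (B * qi) fun l N =>
    fI (|Ar * qr - Ai * qi - nr| + |Ar * qi + Ai * qr - ni| + N) (k ((qr, qi) :: l))

/-- the backward recurrence -/
def loop (n cr Ai B : ℤ) : ℕ → List (ℤ × ℤ) → ℤ → (List (ℤ × ℤ) → ℤ → Bool) → Bool
  | 0, p, e, k => k p e
  | j + 1, p, e, k =>
    fI (100000000 + n * (cr + j * n)) fun Ar => fI (Ar * Ar + Ai * Ai) fun den =>
    go Ar Ai B den p (-(n * 10000000000000000)) 0 fun q N =>
    fI ((100000000 * e + n * 100000000 + N) / (Ar - B) + 1) fun e' => loop n cr Ai B j q e' k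

/-- Newton steps for a square root -/
def nw (N : ℤ) : ℕ → ℤ → ℤ
  | 0, s => s
  | f + 1, s => fI ((s + N / s) / 2) (nw N f)

/-- upper bound for the modulus -/
def nu (x : ℤ × ℤ) : ℤ :=
  fI x.1 fun r => fI x.2 fun i => fI (r * r + i * i) fun N =>
  fI (nw N 8 (|r| + |i| + 1) + 2) fun s => if 0 ≤ s ∧ N ≤ s * s then s else |r| + |i|

/-- lower bound for the modulus -/
def nl (x : ℤ × ℤ) : ℤ :=
  fI x.1 fun r => fI x.2 fun i => fI (r * r + i * i) fun N =>
  fI (nw N 8 (|r| + |i| + 1) - 2) fun s => if s * s ≤ N then s else 0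

/-- upper bound for a polynomial on the unit disc -/
def sn : List (ℤ × ℤ) → ℤ
  | [] => 0
  | x :: xs => nu x + sn xs

/-- product with a linear polynomial, with carry -/
def mul (Ar Ai B : ℤ) : List (ℤ × ℤ) → ℤ × ℤ → List (ℤ × ℤ)
  | [], u => [u]
  | x :: xs, u =>
    (Ar * x.1 - Ai * x.2 + u.1, Ar * x.2 + Ai * x.1 + u.2) :: mul Ar Ai B xs (B * x.1, B * x.2)

/-- the final test -/
def fin (n dd cr ci rr X : ℤ) (p : List (ℤ × ℤ)) (e : ℤ) : Bool :=
  match mul (200000000 + 2 * n * cr - 3 * n * n) (2 * n * ci) (2 * n * rr) p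
    (-(n * 20000000000000000), 0) with
  | q0 :: q1 :: qs => decide (2 * nu q0 + sn qs + 2 * (420000000000000000
      + (nu (200000000 + 2 * n * cr - 3 * n * n, 2 * n * ci) + 2 * n * rr + 92000 * dd)
        * (1071000 * X * dd + 100000000 + e) + 92000 * dd * sn p + 20000000000000000 * dd) < nl q1)
  | _ => false

/-- the test for one disc -/
def disc (n dd cr ci rr dl : ℤ) (K : ℕ) (X : ℤ) : Bool :=
  decide (0 < n ∧ n ≤ 1880 ∧ 0 ≤ rr ∧ rr ≤ 40000 ∧ -24000 ≤ cr - rr ∧ 0 ≤ ci - rr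
    ∧ cr ^ 2 + ci ^ 2 ≤ (40000 - rr) ^ 2 ∧ 0 ≤ 1000 * cr + 700 * ci - 1221 * rr + 1000 * dl
    ∧ 0 ≤ dl ∧ dl ≤ 20000 ∧ 0 ≤ cr + K * n - rr
    ∧ 100 * 25600000000 ^ 256 ≤ X * (25600000000 - (12000 + dl) ^ 2) ^ 256)
  && fI (n * ci) fun Ai => fI (n * rr) fun B =>
    loop n cr Ai B K (List.replicate 9 (0, 0)) 30000000000000 (fin n dd cr ci rr X)

/-- a chain of discs -/
def cover (hi : ℤ) : ℤ → List (ℤ × ℤ × ℤ × ℤ × ℤ × ℤ × ℕ × ℤ) → Bool
  | lo, [] => decide (hi ≤ lo)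
  | lo, (n, dd, cr, ci, rr, dl, K, X) :: L =>
    decide (n - dd ≤ lo) && disc n dd cr ci rr dl K X && cover hi (n + dd) L

lemma fN_eq {α : Type} (n : ℕ) (k : ℕ → α) : fN n k = k n := by cases n <;> rfl

lemma fI_eq {α : Type} (n : ℤ) (k : ℤ → α) : fI n k = k n := by
  cases n <;> simp [fI, fN_eq]

noncomputable section

/-- the complex number of a pair -/
def tc (x : ℤ × ℤ) : ℂ := x.1 + x.2 * I

/-- the polynomial of a list -/
def ev : List (ℤ × ℤ) → ℂ → ℂ
  | [], _ => 0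
  | x :: xs, τ => tc x + τ * ev xs τ

/-- the point of the disc -/
def WW (cr ci rr : ℤ) (τ : ℂ) : ℂ := (tc (cr, ci) + rr * τ) / 10000

lemma tc_sq (x : ℤ × ℤ) : ‖tc x‖ ^ 2 = ((x.1 * x.1 + x.2 * x.2 : ℤ) : ℝ) := by
  rw [Complex.sq_norm, normSq_apply, tc]
  simp

lemma tc_le (r i : ℤ) : ‖tc (r, i)‖ ≤ ((|r| + |i| : ℤ) : ℝ) := by
  refine (norm_le_abs_re_add_abs_im _).trans (le_of_eq ?_)
  simp [tc]

lemma le_nu (x : ℤ × ℤ) : ‖tc x‖ ≤ (nu x : ℝ) := by
  unfold nu
  simp only [fI_eq]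
  split_ifs with h
  · obtain ⟨h1, h2⟩ := h
    generalize nw (x.1 * x.1 + x.2 * x.2) 8 (|x.1| + |x.2| + 1) + 2 = s at h1 h2
    refine abs_le_of_sq_le_sq' ?_ (by exact_mod_cast h1) |>.2
    rw [tc_sq, sq]
    exact_mod_cast h2
  · exact tc_le x.1 x.2

lemma nl_le (x : ℤ × ℤ) : (nl x : ℝ) ≤ ‖tc x‖ := by
  unfold nl
  simp only [fI_eq]
  split_ifs with h
  · generalize nw (x.1 * x.1 + x.2 * x.2) 8 (|x.1| + |x.2| + 1) - 2 = s at h
    refine abs_le_of_sq_le_sq' ?_ (norm_nonneg _) |>.2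
    rw [tc_sq, sq]
    exact_mod_cast h
  · simp

lemma ev_le {τ : ℂ} (hτ : ‖τ‖ ≤ 1) : ∀ p : List (ℤ × ℤ), ‖ev p τ‖ ≤ (sn p : ℝ)
  | [] => by simp [ev, sn]
  | x :: xs => by
    have h1 := ev_le hτ xs
    have h2 := le_nu x
    have h3 := norm_add_le (tc x) (τ * ev xs τ)
    have h4 := mul_le_mul_of_nonneg_right hτ (norm_nonneg (ev xs τ))
    rw [norm_mul] at h3
    simp only [ev, sn]
    push_cast
    linarith

lemma ev_mul (Ar Ai B : ℤ) (τ : ℂ) : ∀ (p : List (ℤ × ℤ)) (u : ℤ × ℤ),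
    ev (mul Ar Ai B p u) τ = (tc (Ar, Ai) + B * τ) * ev p τ + tc u
  | [], u => by simp [mul, ev]
  | x :: xs, u => by
    simp only [mul, ev, ev_mul Ar Ai B τ xs, tc]
    push_cast
    linear_combination (-(Ai : ℂ) * x.2) * I_sq

lemma go_spec (Ar Ai B den : ℤ) : ∀ (p : List (ℤ × ℤ)) (ur ui : ℤ)
    (k : List (ℤ × ℤ) → ℤ → Bool), go Ar Ai B den p ur ui k = true →
    ∃ l N, k l N = true ∧ ∀ τ : ℂ, ‖τ‖ ≤ 1 →
      ‖(tc (Ar, Ai) + B * τ) * ev l τ + tc (ur, ui) - 100000000 * ev p τ‖ ≤ (N : ℝ)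
  | [], ur, ui, k, h => by
    simp only [go, fI_eq] at h
    exact ⟨_, _, h, fun τ _ => by simpa [ev] using tc_le ur ui⟩
  | x :: xs, ur, ui, k, h => by
    simp only [go, fI_eq] at h
    obtain ⟨l, N, h1, h2⟩ := go_spec Ar Ai B den xs _ _ _ h
    refine ⟨_, _, h1, fun τ hτ => ?_⟩
    have h3 := h2 τ hτ
    generalize ((100000000 * x.1 - ur) * Ar + (100000000 * x.2 - ui) * Ai) / den = qr at *
    generalize ((100000000 * x.2 - ui) * Ar - (100000000 * x.1 - ur) * Ai) / den = qi at *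
    have h4 := tc_le (Ar * qr - Ai * qi - (100000000 * x.1 - ur))
      (Ar * qi + Ai * qr - (100000000 * x.2 - ui))
    have e1 : (tc (Ar, Ai) + B * τ) * ev ((qr, qi) :: l) τ + tc (ur, ui)
        - 100000000 * ev (x :: xs) τ
        = tc (Ar * qr - Ai * qi - (100000000 * x.1 - ur), Ar * qi + Ai * qr - (100000000 * x.2 - ui))
          + τ * ((tc (Ar, Ai) + B * τ) * ev l τ + tc (B * qr, B * qi) - 100000000 * ev xs τ) := by
      simp only [ev, tc]
      push_cast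
      linear_combination ((Ai : ℂ) * qi) * I_sq
    rw [e1]
    refine (norm_add_le _ _).trans ?_
    rw [norm_mul, Int.cast_add _ N]
    have h5 := mul_le_mul hτ h3 (norm_nonneg _) zero_le_one
    linarith

lemma re_WW (cr ci rr : ℤ) (τ : ℂ) : (WW cr ci rr τ).re = (cr + rr * τ.re) / 10000 := by
  simp [WW, tc]

lemma im_WW (cr ci rr : ℤ) (τ : ℂ) : (WW cr ci rr τ).im = (ci + rr * τ.im) / 10000 := by
  simp [WW, tc]

lemma loop_spec {n cr ci rr : ℤ} (hn : 0 < n) (hn1 : n ≤ 1880) (hr : 0 ≤ rr)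
    (hc : -24000 ≤ cr - rr) : ∀ (j : ℕ) (p : List (ℤ × ℤ)) (e : ℤ)
    (k : List (ℤ × ℤ) → ℤ → Bool), loop n cr (n * ci) (n * rr) j p e k = true →
    (∀ τ : ℂ, ‖τ‖ ≤ 1 →
      ‖1000000000000 * JJ (n / 10000) (WW (cr + j * n) ci rr τ) 30 - ev p τ‖ ≤ (e : ℝ)) →
    ∃ q e', k q e' = true ∧ ∀ τ : ℂ, ‖τ‖ ≤ 1 →
      ‖1000000000000 * JJ (n / 10000) (WW cr ci rr τ) 30 - ev q τ‖ ≤ (e' : ℝ)
  | 0, p, e, k, h, H => ⟨p, e, h, by simpa using H⟩
  | j + 1, p, e, k, h, H => by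
    simp only [loop, fI_eq] at h
    obtain ⟨l, N, h1, h2⟩ := go_spec _ _ _ _ _ _ _ _ h
    refine loop_spec hn hn1 hr hc j _ _ k h1 fun τ hτ => ?_
    have h3 := h2 τ hτ
    have h4 := H τ hτ
    have hn' : (0 : ℝ) < n := by exact_mod_cast hn
    have hn1' : (n : ℝ) ≤ 1880 := by exact_mod_cast hn1
    have hr' : (0 : ℝ) ≤ rr := by exact_mod_cast hr
    have hc' : (-24000 : ℝ) ≤ cr - rr := by exact_mod_cast hc
    have hj : (0 : ℝ) ≤ j * n := by positivity
    have hre : -1 ≤ τ.re := (abs_le.1 ((abs_re_le_norm τ).trans hτ)).1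
    have hre' := mul_le_mul_of_nonneg_left hre hr'
    have he : (0 : ℝ) < n / 10000 := by positivity
    have h5 := JJ_rec he.ne' (WW (cr + j * n) ci rr τ) 30
    have h6 := gg_30 (w := WW (cr + j * n) ci rr τ) he (by linarith)
      (by rw [re_WW]; push_cast; linarith)
    have e0 : WW (cr + j * n) ci rr τ + ((n / 10000 : ℝ) : ℂ)
        = WW (cr + ((j + 1 : ℕ) : ℤ) * n) ci rr τ := by
      simp only [WW, tc]
      push_cast
      ring
    rw [e0] at h5
    generalize JJ (n / 10000) (WW (cr + ((j + 1 : ℕ) : ℤ) * n) ci rr τ) 30 = J1 at h4 h5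
    generalize JJ (n / 10000) (WW (cr + j * n) ci rr τ) 30 = J0 at h5 ⊢
    generalize gg (n / 10000) (WW (cr + j * n) ci rr τ) (30 : ℝ) = g at h5 h6
    set A : ℂ := tc (100000000 + n * (cr + j * n), n * ci) + ((n * rr : ℤ) : ℂ) * τ with hA
    have e1 : A * (1000000000000 * J0 - ev l τ) = 100000000 * (1000000000000 * J1 - ev p τ)
        + -(n * 10000000000000000 * g)
        + -(A * ev l τ + tc (-(n * 10000000000000000), 0) - 100000000 * ev p τ) := by
      simp only [hA, WW, tc] at h5 ⊢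
      push_cast at h5 ⊢
      linear_combination 100000000000000000000 * h5
    have b1 : ‖A‖ * ‖1000000000000 * J0 - ev l τ‖
        ≤ ((100000000 * e + n * 100000000 + N : ℤ) : ℝ) := by
      rw [← norm_mul, e1]
      refine norm_add₃_le.trans ?_
      rw [norm_neg, norm_neg, norm_mul, norm_mul, norm_mul, norm_intCast, abs_of_pos hn']
      simp only [Complex.norm_ofNat]
      push_cast
      nlinarith
    have hp : 0 < 100000000 + n * (cr + j * n) - n * rr := by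
      have : (0 : ℝ) < 100000000 + n * (cr + j * n) - n * rr := by nlinarith
      exact_mod_cast this
    have b2 : ((100000000 + n * (cr + j * n) - n * rr : ℤ) : ℝ) ≤ ‖A‖ := by
      refine le_trans ?_ (re_le_norm A)
      simp only [hA, tc]
      simp
      nlinarith
    have b3 := Int.lt_ediv_add_one_mul_self (100000000 * e + n * 100000000 + N) hp
    generalize 100000000 + n * (cr + j * n) - n * rr = d at hp b2 b3 ⊢
    generalize (100000000 * e + n * 100000000 + N) / d + 1 = e' at b3 ⊢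
    generalize 100000000 * e + n * 100000000 + N = M at b1 b3
    have hp' : (0 : ℝ) < d := by exact_mod_cast hp
    have b3' : (M : ℝ) < e' * d := by exact_mod_cast b3
    have b4 := mul_le_mul_of_nonneg_right b2 (norm_nonneg (1000000000000 * J0 - ev l τ))
    exact le_of_mul_le_mul_left (a := (d : ℝ)) (by linarith) hp'

lemma exp_le_of {dl X : ℤ} (h0 : 0 ≤ dl) (h1 : dl ≤ 20000)
    (h : 100 * 25600000000 ^ 256 ≤ X * (25600000000 - (12000 + dl) ^ 2) ^ 256) :
    Real.exp ((1.2 + dl / 10000) ^ 2) ≤ X / 100 := by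
  have h2 : (1 - ((1.2 + dl / 10000) ^ 2 : ℝ) / (256 : ℕ)) ^ 256
      ≤ Real.exp (-(1.2 + dl / 10000) ^ 2) := by
    clear h
    have h0' : (0 : ℝ) ≤ dl := by exact_mod_cast h0
    have h1' : (dl : ℝ) ≤ 20000 := by exact_mod_cast h1
    exact Real.one_sub_div_pow_le_exp_neg (by push_cast; nlinarith)
  have e1 : (25600000000 - (12000 + dl) ^ 2 : ℝ)
      = 25600000000 * (1 - ((1.2 + dl / 10000) ^ 2 : ℝ) / (256 : ℕ)) := by
    clear h h2
    push_cast; ring
  have h' := (Int.cast_le (R := ℝ)).2 h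
  rw [Int.cast_mul, Int.cast_mul, Int.cast_pow, Int.cast_pow, Int.cast_sub, Int.cast_pow,
    Int.cast_add, Int.cast_ofNat, Int.cast_ofNat, Int.cast_ofNat, e1, mul_pow, ← mul_assoc,
    mul_right_comm] at h'
  have h3 := le_of_mul_le_mul_right h' (pow_pos (by norm_num) _)
  clear h h' e1
  generalize ((1.2 + dl / 10000) ^ 2 : ℝ) = x at h2 h3 ⊢
  have h4 : 0 ≤ (1 - x / (256 : ℕ)) ^ 256 := Even.pow_nonneg (by decide) _
  generalize (1 - x / (256 : ℕ)) ^ 256 = u at h2 h3 h4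
  have hX : (0 : ℝ) < X := by
    by_contra hc
    nlinarith
  have h5 := mul_le_mul_of_nonneg_left h2 hX.le
  have h6 : Real.exp (-x) * Real.exp x = 1 := by rw [← Real.exp_add]; simp
  have h7 := mul_le_mul_of_nonneg_right (h3.trans h5) (Real.exp_pos x).le
  rw [mul_assoc, h6] at h7
  linarith

lemma err_bound {n dd cr ci rr X e : ℤ} {p : List (ℤ × ℤ)} {ε : ℝ} {τ G J Jn : ℂ}
    (hτ : ‖τ‖ ≤ 1) (hn : 0 < n) (hn1 : n ≤ 1880) (hr : 0 ≤ rr) (he : 0 < ε) (he1 : ε ≤ 0.188)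
    (hd : |ε - n / 10000| ≤ dd / 10000) (hw : ‖WW cr ci rr τ‖ ≤ 4)
    (h1 : ‖G - ((1 + ε * WW cr ci rr τ - 3 / 2 * (ε : ℂ) ^ 2) * J - ε)‖ ≤ 0.0021)
    (h2 : ‖J - Jn‖ ≤ 1.071 * (X / 100) * (dd / 10000) + 1e-4)
    (h3 : ‖1000000000000 * Jn - ev p τ‖ ≤ (e : ℝ)) :
    ‖200000000000000000000 * G - ev (mul (200000000 + 2 * n * cr - 3 * n * n) (2 * n * ci)
      (2 * n * rr) p (-(n * 20000000000000000), 0)) τ‖ ≤ ((420000000000000000
      + (nu (200000000 + 2 * n * cr - 3 * n * n, 2 * n * ci) + 2 * n * rr + 92000 * dd)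
        * (1071000 * X * dd + 100000000 + e) + 92000 * dd * sn p + 20000000000000000 * dd : ℤ) : ℝ) := by
  have hn' : (0 : ℝ) < n := by exact_mod_cast hn
  have hn1' : (n : ℝ) ≤ 1880 := by exact_mod_cast hn1
  have hr' : (0 : ℝ) ≤ rr := by exact_mod_cast hr
  have hd0 : (0 : ℝ) ≤ dd / 10000 := (abs_nonneg _).trans hd
  have hP := ev_le hτ p
  have hA := le_nu (200000000 + 2 * n * cr - 3 * n * n, 2 * n * ci)
  rw [ev_mul]
  set A : ℂ := tc (200000000 + 2 * n * cr - 3 * n * n, 2 * n * ci) with hA'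
  set f : ℂ := 1 + ε * WW cr ci rr τ - 3 / 2 * (ε : ℂ) ^ 2 with hf
  set Δ : ℂ := 200000000 * f - (A + ((2 * n * rr : ℤ) : ℂ) * τ) with hΔ
  have e1 : Δ = ((ε - n / 10000 : ℝ) : ℂ)
      * (200000000 * WW cr ci rr τ - ((300000000 * (ε + n / 10000) : ℝ) : ℂ)) := by
    simp only [hΔ, hf, hA', WW, tc]
    push_cast
    ring
  have b1 : ‖Δ‖ ≤ 92000 * dd := by
    rw [e1, norm_mul, norm_real, Real.norm_eq_abs]
    have c1 := norm_sub_le (200000000 * WW cr ci rr τ) ((300000000 * (ε + n / 10000) : ℝ) : ℂ)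
    rw [norm_mul, norm_real, Real.norm_of_nonneg (by positivity), Complex.norm_ofNat] at c1
    calc _ ≤ (dd : ℝ) / 10000 * 920000000 := mul_le_mul hd (by linarith) (norm_nonneg _) hd0
      _ = _ := by ring
  have b2 : ‖200000000 * f‖
      ≤ nu (200000000 + 2 * n * cr - 3 * n * n, 2 * n * ci) + 2 * n * rr + 92000 * dd := by
    rw [show 200000000 * f = A + ((2 * n * rr : ℤ) : ℂ) * τ + Δ by rw [hΔ]; ring]
    refine norm_add₃_le.trans ?_
    rw [norm_mul, norm_intCast]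
    push_cast
    rw [abs_of_nonneg (by positivity)]
    have := mul_le_mul_of_nonneg_left hτ (show (0 : ℝ) ≤ 2 * n * rr by positivity)
    linarith
  have b3 : ‖1000000000000 * J - ev p τ‖ ≤ 1071000 * X * dd + 100000000 + e := by
    rw [show 1000000000000 * J - ev p τ
      = 1000000000000 * (J - Jn) + (1000000000000 * Jn - ev p τ) by ring]
    refine (norm_add_le _ _).trans ?_
    rw [norm_mul, Complex.norm_ofNat]
    nlinarith
  have e2 : 200000000000000000000 * G - ((A + ((2 * n * rr : ℤ) : ℂ) * τ) * ev p τ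
      + tc (-(n * 20000000000000000), 0))
      = 200000000000000000000 * (G - (f * J - ε)) + 200000000 * f * (1000000000000 * J - ev p τ)
        + (Δ * ev p τ + -(200000000000000000000 * ((ε - n / 10000 : ℝ) : ℂ))) := by
    simp only [hΔ, tc]
    push_cast
    ring
  rw [e2]
  refine norm_add₃_le.trans ?_
  have c1 := norm_add_le (Δ * ev p τ) (-(200000000000000000000 * ((ε - n / 10000 : ℝ) : ℂ)))
  rw [norm_neg, norm_mul, norm_mul, norm_real, Real.norm_eq_abs, Complex.norm_ofNat] at c1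
  have c2 := mul_le_mul b1 hP (norm_nonneg _) ((norm_nonneg _).trans b1)
  have c3 := mul_le_mul b2 b3 (norm_nonneg _) ((norm_nonneg _).trans b2)
  rw [norm_mul, norm_mul (200000000 * f), Complex.norm_ofNat]
  generalize ‖Δ * ev p τ + -(200000000000000000000 * ((ε - n / 10000 : ℝ) : ℂ))‖ = t at c1 ⊢
  push_cast
  linarith

lemma zero_of_list {g : ℂ → ℂ} (hg : Differentiable ℂ g) {q0 q1 : ℤ × ℤ} {qs : List (ℤ × ℤ)}
    {E : ℤ} (h : ∀ τ, ‖τ‖ ≤ 1 → ‖g τ - ev (q0 :: q1 :: qs) τ‖ ≤ (E : ℝ))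
    (hc : 2 * nu q0 + sn qs + 2 * E < nl q1) : ∃ τ, ‖τ‖ ≤ 1 ∧ g τ = 0 := by
  have hc' : (2 * nu q0 + sn qs + 2 * E : ℝ) < nl q1 := by exact_mod_cast hc
  have h0 := le_nu q0
  have h1 := nl_le q1
  have := zero_of_min_modulus hg (c := 0) one_pos (m := nl q1 - nu q0 - sn qs - E) ?_ ?_
  · simpa using this
  · have h2 := h 0 (by simp)
    simp only [ev, zero_mul, add_zero] at h2
    have := norm_sub_norm_le (g 0) (tc q0)
    linarith
  · intro τ hτ
    rw [sub_zero] at hτ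
    have h2 := h τ hτ.le
    have h3 := ev_le hτ.le qs
    have e1 : τ * tc q1 = g τ + -(g τ - ev (q0 :: q1 :: qs) τ) + -(tc q0 + τ * (τ * ev qs τ)) := by
      simp only [ev]
      ring
    have h4 := norm_add₃_le (a := g τ) (b := -(g τ - ev (q0 :: q1 :: qs) τ))
      (c := -(tc q0 + τ * (τ * ev qs τ)))
    have h5 := norm_add_le (tc q0) (τ * (τ * ev qs τ))
    rw [← e1, norm_neg, norm_neg, norm_mul, hτ] at h4
    rw [norm_mul, norm_mul, hτ] at h5
    linarith

theorem disc_sound {n dd cr ci rr dl X : ℤ} {K : ℕ} (h : disc n dd cr ci rr dl K X = true)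
    {a y : ℝ} (ha : 11 / 20 ≤ a) (hy0 : 0 < y) (hy : y ^ 2 = Real.pi * Real.exp (4 * a))
    (hd : |y⁻¹ - n / 10000| ≤ dd / 10000) : ∃ z : ℂ, z.im ≠ 0 ∧ F a z = 0 := by
  simp only [disc, fI_eq, Bool.and_eq_true, decide_eq_true_eq] at h
  obtain ⟨⟨hn, hn1, hr, hr1, hc, hi, hw, hl, hl0, hl1, hK, hX⟩, h⟩ := h
  obtain ⟨y1, -⟩ := y_facts ha hy0 hy
  have he : 0 < y⁻¹ := inv_pos.2 hy0
  have he1 : y⁻¹ ≤ 0.188 := by
    rw [inv_le_comm₀ hy0 (by norm_num)]
    exact le_trans (by norm_num) y1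
  have hn' : (0 : ℝ) < n := by exact_mod_cast hn
  have hn1' : (n : ℝ) ≤ 1880 := by exact_mod_cast hn1
  have hr' : (0 : ℝ) ≤ rr := by exact_mod_cast hr
  have hr1' : (rr : ℝ) ≤ 40000 := by exact_mod_cast hr1
  have hc' : (-24000 : ℝ) ≤ cr - rr := by exact_mod_cast hc
  have hi' : (0 : ℝ) ≤ ci - rr := by exact_mod_cast hi
  have hl' : (0 : ℝ) ≤ 1000 * cr + 700 * ci - 1221 * rr + 1000 * dl := by exact_mod_cast hl
  have hl1' : (dl : ℝ) ≤ 20000 := by exact_mod_cast hl1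
  have hK' : (0 : ℝ) ≤ cr + K * n - rr := by exact_mod_cast hK
  have hw' : ‖tc (cr, ci)‖ ≤ 40000 - rr := by
    refine abs_le_of_sq_le_sq' ?_ (by linarith) |>.2
    rw [tc_sq, ← sq, ← sq]
    exact_mod_cast hw
  have hre : ∀ τ : ℂ, ‖τ‖ ≤ 1 → -(rr : ℝ) ≤ rr * τ.re := fun τ hτ => by
    have := mul_le_mul_of_nonneg_left (abs_le.1 ((abs_re_le_norm τ).trans hτ)).1 hr'
    linarith
  have hw1 : ∀ τ : ℂ, ‖τ‖ ≤ 1 → -2.4 ≤ (WW cr ci rr τ).re := fun τ hτ => by
    have := hre τ hτ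
    rw [re_WW]
    linarith
  obtain ⟨p, e, h1, h2⟩ := loop_spec hn hn1 hr hc K _ _ _ h fun τ hτ => by
    have c1 := JJ_init (e := n / 10000) (w := WW (cr + K * n) ci rr τ) (by
      have := hre τ hτ
      rw [re_WW]
      push_cast
      linarith)
    have c2 : ev (List.replicate 9 (0, 0)) τ = 0 := by simp [List.replicate, ev, tc]
    rw [c2, sub_zero, norm_mul, Complex.norm_ofNat]
    push_cast
    linarith
  have hE := fun (τ : ℂ) (hτ : ‖τ‖ ≤ 1) => err_bound (X := X) (G := EE a y (WW cr ci rr τ))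
    hτ hn hn1 hr he he1 hd (hw := ?_) (nf ha hy0 hy (hw1 τ hτ) ?_) ?_ (h2 τ hτ)
  rotate_left
  · rw [WW, norm_div, Complex.norm_ofNat]
    have c1 := norm_add_le (tc (cr, ci)) (rr * τ)
    rw [norm_mul, norm_intCast, abs_of_nonneg hr'] at c1
    have := mul_le_mul_of_nonneg_left hτ hr'
    linarith
  · rw [WW, norm_div, Complex.norm_ofNat]
    have c1 := norm_add_le (tc (cr, ci)) (rr * τ)
    rw [norm_mul, norm_intCast, abs_of_nonneg hr'] at c1
    have := mul_le_mul_of_nonneg_left hτ hr'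
    linarith
  · have c1 := mul_le_mul_of_nonneg_left (abs_le.1 ((abs_im_le_norm τ).trans hτ)).1 hr'
    have c2 : -1.221 ≤ τ.re + 0.7 * τ.im := by
      have c3 : ‖τ‖ ^ 2 ≤ 1 := pow_le_one₀ (norm_nonneg _) hτ
      rw [Complex.sq_norm, normSq_apply] at c3
      nlinarith [sq_nonneg (τ.re + 0.819), sq_nonneg (τ.im + 0.5733)]
    have c3 := mul_le_mul_of_nonneg_left c2 hr'
    refine (JJ_lip (δ := dl / 10000) he he1 (by positivity) (by linarith) (hw1 τ hτ)
      (by rw [im_WW]; linarith) (by linarith) (by rw [re_WW, im_WW]; linarith)).trans ?_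
    have c4 := exp_le_of hl0 hl1 hX
    have c5 := (Real.exp_pos _).le.trans c4
    gcongr
  unfold fin at h1
  split at h1
  · rename_i q0 q1 qs hq
    rw [hq] at hE
    have hW : Differentiable ℂ (WW cr ci rr) := by unfold WW; fun_prop
    obtain ⟨τ, hτ, h0⟩ := zero_of_list (g := fun τ => 200000000000000000000 * EE a y (WW cr ci rr τ))
      (((differentiable_EE hy0).comp hW).const_mul _) hE (of_decide_eq_true h1)
    have hs : (ss y (WW cr ci rr τ)).re = 4 * y ^ 2 + 4 * y * (WW cr ci rr τ).re - 5 := by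
      unfold ss
      rw [← ofReal_pow]
      simp [-ofReal_pow]
    refine ⟨I * ss y (WW cr ci rr τ), ?_, ?_⟩
    · have := mul_le_mul_of_nonneg_left (hw1 τ hτ) hy0.le
      rw [I_mul_im, hs]
      nlinarith
    · have c1 : (4 : ℂ) / y / NN a y (WW cr ci rr τ) ≠ 0 :=
        div_ne_zero (div_ne_zero (by norm_num) (by exact_mod_cast hy0.ne')) (NN_ne hy0 _)
      simpa [EE, c1, NN_ne hy0, hy0.ne'] using h0
  · cases h1

theorem cover_sound {hi : ℤ} {a y : ℝ} (ha : 11 / 20 ≤ a) (hy0 : 0 < y)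
    (hy : y ^ 2 = Real.pi * Real.exp (4 * a)) (h2 : y⁻¹ ≤ hi / 10000) :
    ∀ (lo : ℤ) (L : List (ℤ × ℤ × ℤ × ℤ × ℤ × ℤ × ℕ × ℤ)), cover hi lo L = true →
      (lo : ℝ) / 10000 < y⁻¹ → ∃ z : ℂ, z.im ≠ 0 ∧ F a z = 0
  | lo, [], h, h1 => by
    have : (hi : ℝ) ≤ lo := by exact_mod_cast of_decide_eq_true h
    linarith
  | lo, (n, dd, cr, ci, rr, dl, K, X) :: L, h, h1 => by
    simp only [cover, Bool.and_eq_true, decide_eq_true_eq] at h
    obtain ⟨⟨h3, h4⟩, h5⟩ := h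
    have h3' : (n - dd : ℝ) ≤ lo := by exact_mod_cast h3
    rcases le_or_gt y⁻¹ (((n + dd : ℤ) : ℝ) / 10000) with h6 | h6
    · push_cast at h6
      exact disc_sound h4 ha hy0 hy (abs_le.2 ⟨by linarith, by linarith⟩)
    · exact cover_sound ha hy0 hy h2 _ L h5 h6

theorem c1 : cover 116 0
   [(58, 58, -19240, 28059, 1400, 1309, 1349, 592)] = true := by
  decide +kernel

theorem c2 : cover 524 116
   [(171, 55, -19397, 27855, 1400, 1608, 463, 642),
    (278, 52, -19547, 27662, 1300, 1771, 288, 671),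
    (380, 50, -19691, 27477, 1400, 2167, 213, 751),
    (477, 47, -19830, 27302, 1300, 2306, 171, 781)] = true := by
  decide +kernel

theorem c3 : cover 1262 524
   [(569, 45, -19963, 27134, 1300, 2557, 145, 840),
    (657, 43, -20091, 26975, 1300, 2796, 127, 902),
    (741, 41, -20215, 26822, 1300, 3027, 114, 967),
    (821, 39, -20334, 26676, 1200, 3126, 103, 996),
    (897, 37, -20449, 26538, 1200, 3338, 95, 1063),
    (970, 36, -20560, 26405, 1300, 3664, 89, 1177),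
    (1040, 34, -20667, 26278, 1200, 3738, 83, 1205),
    (1107, 33, -20771, 26157, 1300, 4049, 79, 1332),
    (1171, 31, -20872, 26041, 1200, 4109, 75, 1358),
    (1232, 30, -20968, 25931, 1200, 4282, 72, 1437)] = true := by
  decide +kernel

theorem c4 : cover 1880 1262
   [(1291, 29, -21063, 25824, 1300, 4574, 69, 1583),
    (1347, 27, -21153, 25723, 1100, 4490, 66, 1540),
    (1400, 26, -21240, 25628, 1100, 4644, 64, 1621),
    (1451, 25, -21323, 25537, 1100, 4791, 62, 1704),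
    (1500, 24, -21405, 25449, 1100, 4934, 61, 1789),
    (1547, 23, -21483, 25366, 1000, 4948, 59, 1797),
    (1593, 23, -21561, 25284, 1200, 5328, 58, 2050),
    (1638, 22, -21637, 25204, 1200, 5460, 56, 2148),
    (1681, 21, -21711, 25129, 1100, 5464, 55, 2151),
    (1722, 20, -21781, 25057, 1000, 5463, 54, 2150),
    (1762, 20, -21851, 24987, 1200, 5826, 53, 2448),
    (1801, 19, -21919, 24919, 1100, 5819, 52, 2442),
    (1838, 18, -21984, 24855, 1000, 5807, 51, 2431),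
    (1874, 18, -22047, 24793, 1200, 6158, 51, 2763)] = true := by
  decide +kernel

/-- for a truncation point at least 11/20 the truncated transform has a non-real zero -/
theorem big {a : ℝ} (ha : 11 / 20 ≤ a) : ∃ z : ℂ, z.im ≠ 0 ∧ F a z = 0 := by
  have hp : 0 < Real.pi * Real.exp (4 * a) := by positivity
  have hy0 := Real.sqrt_pos.2 hp
  have hy := Real.sq_sqrt hp.le
  generalize √(Real.pi * Real.exp (4 * a)) = y at hy0 hy
  obtain ⟨y1, -⟩ := y_facts ha hy0 hy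
  have he1 : y⁻¹ ≤ 0.188 := by
    rw [inv_le_comm₀ hy0 (by norm_num)]
    exact le_trans (by norm_num) y1
  rcases le_or_gt y⁻¹ (((116 : ℤ) : ℝ) / 10000) with h1 | h1
  · exact cover_sound ha hy0 hy h1 _ _ c1 (by simpa using hy0)
  rcases le_or_gt y⁻¹ (((524 : ℤ) : ℝ) / 10000) with h2 | h2
  · exact cover_sound ha hy0 hy h2 _ _ c2 h1
  rcases le_or_gt y⁻¹ (((1262 : ℤ) : ℝ) / 10000) with h3 | h3
  · exact cover_sound ha hy0 hy h3 _ _ c3 h2
  exact cover_sound ha hy0 hy (by push_cast; linarith) _ _ c4 h3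

end

end Pool.Agent.Lib.XI.Big
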