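import Pool.Agent.Lib.XI.PF

/-!
If all zeros of a truncated cosine transform are real, its modulus grows along vertical lines.
Two or three point values therefore certify a zero off the real axis.
-/

namespace Pool.Agent.Lib.XI

open Real Set Filter

noncomputable section

lemma nexp (w : ℂ) : ‖Complex.exp (w * Complex.I)‖ = exp (-w.im) ∧
    ‖Complex.exp (-w * Complex.I)‖ = exp w.im := by
  constructor <;> rw [Complex.norm_exp] <;> simp

lemma ncos (w : ℂ) : ‖Complex.cos w‖ ≤ exp |w.im| := by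
  have h := norm_add_le (Complex.exp (w * Complex.I)) (Complex.exp (-w * Complex.I))
  rw [← Complex.two_cos, norm_mul, Complex.norm_two, (nexp w).1, (nexp w).2] at h
  have h1 := exp_le_exp.2 (le_abs_self w.im)
  have h2 := exp_le_exp.2 (neg_le_abs w.im)
  linarith

lemma nsin (w : ℂ) : ‖Complex.sin w‖ ≤ exp |w.im| ∧
    (exp w.im - exp (-w.im)) / 2 ≤ ‖Complex.sin w‖ := by
  have e : 2 * ‖Complex.sin w‖ =
      ‖Complex.exp (-w * Complex.I) - Complex.exp (w * Complex.I)‖ := by
    rw [← Complex.norm_two, ← norm_mul, Complex.two_sin, norm_mul, Complex.norm_I, mul_one]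
  have h := norm_sub_le (Complex.exp (-w * Complex.I)) (Complex.exp (w * Complex.I))
  have h0 := norm_sub_norm_le (Complex.exp (-w * Complex.I)) (Complex.exp (w * Complex.I))
  rw [← e, (nexp w).1, (nexp w).2] at h h0
  have h1 := exp_le_exp.2 (le_abs_self w.im)
  have h2 := exp_le_exp.2 (neg_le_abs w.im)
  constructor <;> linarith

lemma FC_diff {f : ℝ → ℝ} (hf : Continuous f) (a : ℝ) : Differentiable ℂ (FC f a) := by
  intro z
  have := intervalIntegral.hasDerivAt_integral_of_dominated_loc_of_deriv_le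
    (μ := MeasureTheory.volume) (a := 0) (b := a) (x₀ := z) (s := Metric.ball z 1)
    (F := fun z t => (f t : ℂ) * Complex.cos (z * t))
    (F' := fun z t => (f t : ℂ) * (-Complex.sin (z * t) * t))
    (bound := fun t => |f t| * (exp ((‖z‖ + 1) * |t|) * |t|)) (Metric.ball_mem_nhds _ one_pos)
    (Eventually.of_forall fun _ => Continuous.aestronglyMeasurable (by fun_prop))
    (Continuous.intervalIntegrable (by fun_prop) _ _)
    (Continuous.aestronglyMeasurable (by fun_prop))
    (MeasureTheory.ae_of_all _ fun t _ w hw => by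
      rw [norm_mul, norm_mul, norm_neg, Complex.norm_real, Complex.norm_real, Real.norm_eq_abs,
        Real.norm_eq_abs]
      have h1 : ‖w‖ ≤ ‖z‖ + 1 := by
        have := norm_sub_norm_le w z
        rw [mem_ball_iff_norm] at hw
        linarith
      have h2 : |(w * t).im| ≤ (‖z‖ + 1) * |t| := by
        refine (Complex.abs_im_le_norm _).trans ?_
        rw [norm_mul, Complex.norm_real, Real.norm_eq_abs]
        gcongr
      have h3 := (nsin (w * t)).1.trans (exp_le_exp.2 h2)
      gcongr)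
    (Continuous.intervalIntegrable (by fun_prop) _ _)
    (MeasureTheory.ae_of_all _ fun t _ w _ => by
      have e2 : HasDerivAt (fun w : ℂ => w * t) t w := by
        simpa using (hasDerivAt_id w).mul_const (t : ℂ)
      exact e2.ccos.const_mul _)
  exact this.2.differentiableAt

lemma FC_conj (f : ℝ → ℝ) (a : ℝ) (z : ℂ) :
    FC f a (starRingEnd ℂ z) = starRingEnd ℂ (FC f a z) := by
  unfold FC intervalIntegral
  rw [map_sub, ← integral_conj, ← integral_conj]
  simp only [map_mul, Complex.conj_ofReal, ← Complex.cos_conj]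

lemma FC_le {f : ℝ → ℝ} (hf : Continuous f) {a : ℝ} (ha : 0 ≤ a) (z : ℂ) :
    ‖FC f a z‖ ≤ (∫ t in (0 : ℝ)..a, |f t|) * exp (a * |z.im|) := by
  rw [← intervalIntegral.integral_mul_const]
  refine intervalIntegral.norm_integral_le_of_norm_le ha (MeasureTheory.ae_of_all _ fun t ht => ?_)
    (Continuous.intervalIntegrable (by fun_prop) _ _)
  rw [norm_mul, Complex.norm_real, Real.norm_eq_abs]
  refine mul_le_mul_of_nonneg_left ((ncos _).trans (exp_le_exp.2 ?_)) (abs_nonneg _)
  simp only [Complex.mul_im, Complex.ofReal_im, Complex.ofReal_re, mul_zero, zero_add, abs_mul]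
  rw [abs_of_pos ht.1, mul_comm]
  exact mul_le_mul_of_nonneg_right ht.2 (abs_nonneg _)

/-- smoothness data -/
structure Sm (f f1 f2 : ℝ → ℝ) (a : ℝ) : Prop where
  c0 : Continuous f
  c2 : Continuous f2
  d0 : ∀ t ∈ Icc 0 a, HasDerivAt f (f1 t) t
  d1 : ∀ t ∈ Icc 0 a, HasDerivAt f1 (f2 t) t

/-- two integrations by parts -/
lemma parts2 {f f1 f2 : ℝ → ℝ} {a : ℝ} (ha : 0 ≤ a) (h : Sm f f1 f2 a) (z : ℂ) :
    z ^ 2 * FC f a z = z * f a * Complex.sin (a * z) + f1 a * Complex.cos (a * z) - f1 0 -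
      FC f2 a z := by
  have c0 := h.c0
  have c2 := h.c2
  have := intervalIntegral.integral_eq_sub_of_hasDerivAt (a := 0) (b := a)
    (f := fun t : ℝ => z * f t * Complex.sin (z * t) + f1 t * Complex.cos (z * t))
    (f' := fun t : ℝ => z ^ 2 * ((f t : ℂ) * Complex.cos (z * t)) + f2 t * Complex.cos (z * t))
    (fun t ht => by
      rw [uIcc_of_le ha] at ht
      have e2 : HasDerivAt (fun t : ℂ => z * t) z t := by
        simpa using (hasDerivAt_id (t : ℂ)).const_mul z
      refine HasDerivAt.congr_deriv ((((h.d0 t ht).ofReal_comp.const_mul z).mul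
        e2.csin.comp_ofReal).add ((h.d1 t ht).ofReal_comp.mul e2.ccos.comp_ofReal)) ?_
      ring)
    (Continuous.intervalIntegrable (by fun_prop) _ _)
  rw [intervalIntegral.integral_add (Continuous.intervalIntegrable (by fun_prop) _ _)
    (Continuous.intervalIntegrable (by fun_prop) _ _), intervalIntegral.integral_const_mul] at this
  unfold FC
  simp only [Complex.ofReal_zero, mul_zero, Complex.sin_zero, Complex.cos_zero, mul_one, zero_add,
    mul_comm z (a : ℂ)] at this
  linear_combination this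

lemma rest {f f1 f2 : ℝ → ℝ} {a : ℝ} (ha : 0 ≤ a) (h : Sm f f1 f2 a) :
    ∃ K, 0 ≤ K ∧ ∀ z : ℂ, ‖z ^ 2 * FC f a z - z * f a * Complex.sin (a * z)‖ ≤
      K * exp (a * |z.im|) := by
  refine ⟨|f1 a| + |f1 0| + ∫ t in (0 : ℝ)..a, |f2 t|, add_nonneg (by positivity)
    (intervalIntegral.integral_nonneg ha fun _ _ => abs_nonneg _), fun z => ?_⟩
  rw [parts2 ha h, show z * f a * Complex.sin (a * z) + f1 a * Complex.cos (a * z) - f1 0 -
      FC f2 a z - z * f a * Complex.sin (a * z) = f1 a * Complex.cos (a * z) - f1 0 - FC f2 a z by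
    ring]
  have h1 := FC_le h.c2 ha z
  have h2 := ncos (a * z)
  rw [Complex.im_ofReal_mul, abs_mul, abs_of_nonneg ha] at h2
  have h3 : 1 ≤ exp (a * |z.im|) := one_le_exp (by positivity)
  have h4 := norm_sub_le ((f1 a : ℂ) * Complex.cos (a * z) - f1 0) (FC f2 a z)
  have h5 := norm_sub_le ((f1 a : ℂ) * Complex.cos (a * z)) (f1 0)
  rw [norm_mul, Complex.norm_real, Complex.norm_real, Real.norm_eq_abs, Real.norm_eq_abs] at h5
  nlinarith [mul_le_mul_of_nonneg_left h2 (abs_nonneg (f1 a)),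
    mul_le_mul_of_nonneg_left h3 (abs_nonneg (f1 0))]

lemma far {f f1 f2 : ℝ → ℝ} {a : ℝ} (ha : 0 < a) (h : Sm f f1 f2 a) (hfa : f a ≠ 0) {s : ℝ}
    (hs : 0 < s) : ∃ R C : ℝ, ∀ z : ℂ, R ≤ ‖z‖ → 0 ≤ z.im →
      ‖FC f a (z - s * Complex.I) / FC f a (z + s * Complex.I)‖ ≤ C := by
  obtain ⟨K, hK, hr⟩ := rest ha.le h
  have hA : 0 < |f a| := abs_pos.2 hfa
  set A := |f a|
  have hk : 0 < (1 - exp (-(2 * a * s))) / 2 := by
    have : exp (-(2 * a * s)) < 1 := by
      rw [← exp_zero]; exact exp_lt_exp.2 (by nlinarith [mul_pos ha hs])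
    linarith
  set k := (1 - exp (-(2 * a * s))) / 2 with hk0
  refine ⟨3 * s + 1 + 2 * K / (A * k), 4 * (A + K) / (A * k), fun z hz hy => ?_⟩
  have hq : 0 ≤ 2 * K / (A * k) := by positivity
  have ns : ‖(s : ℂ) * Complex.I‖ = s := by simp [abs_of_pos hs]
  set u := z - s * Complex.I
  set v := z + s * Complex.I
  have u1 : ‖z‖ - s ≤ ‖u‖ := by have := norm_sub_norm_le z (s * Complex.I); rwa [ns] at this
  have v1 : ‖v‖ ≤ ‖z‖ + s := by have := norm_add_le z (s * Complex.I); rwa [ns] at this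
  have v2 : ‖z‖ - s ≤ ‖v‖ := by
    have := norm_sub_le v (s * Complex.I)
    rw [ns, show v - s * Complex.I = z by ring] at this
    linarith
  have ui : |u.im| ≤ z.im + s := by
    have : u.im = z.im - s := by simp [u]
    rw [this, abs_le]; constructor <;> linarith
  have vi : v.im = z.im + s := by simp [v]
  set E := exp (a * (z.im + s)) with hE
  have E0 : 0 < E := exp_pos _
  have up : ‖u‖ * ‖FC f a u‖ ≤ (A + K) * E := by
    have h1 := hr u
    have h2 := norm_sub_norm_le (u ^ 2 * FC f a u) (u * f a * Complex.sin (a * u))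
    have h3 := (nsin (a * u)).1
    rw [Complex.im_ofReal_mul, abs_mul, abs_of_pos ha] at h3
    have h4 : exp (a * |u.im|) ≤ E := exp_le_exp.2 (by gcongr)
    rw [norm_mul, norm_mul, norm_mul, norm_pow, Complex.norm_real, Real.norm_eq_abs] at h2
    have h5 : 1 ≤ ‖u‖ := by linarith
    have h6 : ‖u‖ * A * ‖Complex.sin (a * u)‖ ≤ ‖u‖ * A * E := by gcongr; exact h3.trans h4
    have h7 : K * exp (a * |u.im|) ≤ ‖u‖ * (K * E) := by
      nlinarith [mul_le_mul_of_nonneg_left h4 hK, mul_nonneg hK E0.le]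
    refine le_of_mul_le_mul_left ?_ (zero_lt_one.trans_le h5)
    nlinarith
  have lo : A * k * E / 2 ≤ ‖v‖ * ‖FC f a v‖ := by
    have h1 := hr v
    have h2 := norm_sub_norm_le (v * f a * Complex.sin (a * v)) (v ^ 2 * FC f a v)
    rw [norm_sub_rev] at h1
    have h3 := (nsin (a * v)).2
    rw [Complex.im_ofReal_mul, vi] at h3
    rw [vi, abs_of_pos (by linarith)] at h1
    have h4 : exp (-(a * (z.im + s))) ≤ exp (-(2 * a * s)) * E := by
      rw [hE, ← exp_add]
      exact exp_le_exp.2 (by nlinarith [mul_nonneg ha.le hy])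
    have h8 : k * E ≤ ‖Complex.sin (a * v)‖ := by rw [hk0]; linarith
    rw [norm_mul, norm_mul, norm_mul, norm_pow, Complex.norm_real, Real.norm_eq_abs] at h2
    have h5 : 1 ≤ ‖v‖ := by linarith
    have h6 : ‖v‖ * A * (k * E) ≤ ‖v‖ * A * ‖Complex.sin (a * v)‖ := by gcongr
    have h9 : 2 * K ≤ ‖v‖ * (A * k) := by
      rw [← div_le_iff₀ (by positivity)]; linarith
    refine le_of_mul_le_mul_left ?_ (zero_lt_one.trans_le h5)
    nlinarith [mul_le_mul_of_nonneg_right h9 E0.le]
  have p1 : 0 < A * k * E / 2 := by positivity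
  have p2 : 0 < ‖FC f a v‖ := by
    by_contra hc
    have : ‖FC f a v‖ = 0 := le_antisymm (not_lt.1 hc) (norm_nonneg _)
    rw [this] at lo; linarith
  have u0 : 0 < ‖u‖ := by linarith
  rw [norm_div, div_le_div_iff₀ p2 (by positivity)]
  refine le_of_mul_le_mul_left ?_ u0
  have w1 : ‖v‖ * ‖FC f a v‖ ≤ 2 * ‖u‖ * ‖FC f a v‖ := by gcongr; linarith
  have w2 : ‖u‖ * ‖FC f a u‖ * (A * k) ≤ (A + K) * E * (A * k) := by gcongr
  nlinarith [mul_le_mul_of_nonneg_left (lo.trans w1) (by positivity : 0 ≤ A + K)]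

/-- real zeros only: the modulus grows along vertical lines -/
theorem vert_mono {f f1 f2 : ℝ → ℝ} {a : ℝ} (ha : 0 < a) (h : Sm f f1 f2 a) (hfa : f a ≠ 0)
    (hz : ∀ z, FC f a z = 0 → z.im = 0) (x : ℝ) {y1 y2 : ℝ} (h1 : 0 ≤ y1) (h2 : y1 ≤ y2) :
    ‖FC f a (x + y1 * Complex.I)‖ ≤ ‖FC f a (x + y2 * Complex.I)‖ := by
  rcases h2.eq_or_lt with rfl | h2
  · exact le_rfl
  have hs : 0 < (y2 - y1) / 2 := by linarith
  set s := (y2 - y1) / 2 with hs0
  obtain ⟨R, C, hC⟩ := far ha h hfa hs
  have hd := FC_diff h.c0 a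
  have ne : ∀ u : ℂ, 0 ≤ u.re → FC f a (Complex.I * u + s * Complex.I) ≠ 0 := fun u hu h0 => by
    have := hz _ h0
    simp at this
    linarith
  have hb : ∀ u : ℂ, R ≤ ‖u‖ → 0 ≤ u.re → ‖FC f a (Complex.I * u - s * Complex.I) /
      FC f a (Complex.I * u + s * Complex.I)‖ ≤ C := fun u hu hr =>
    hC _ (by simpa using hu) (by simpa using hr)
  have d1 : Differentiable ℂ fun u : ℂ => FC f a (Complex.I * u - s * Complex.I) :=
    hd.comp (f := fun u : ℂ => Complex.I * u - s * Complex.I) (by fun_prop)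
  have d2 : Differentiable ℂ fun u : ℂ => FC f a (Complex.I * u + s * Complex.I) :=
    hd.comp (f := fun u : ℂ => Complex.I * u + s * Complex.I) (by fun_prop)
  have key := PhragmenLindelof.right_half_plane_of_bounded_on_real (C := 1)
    (f := fun u => FC f a (Complex.I * u - s * Complex.I) / FC f a (Complex.I * u + s * Complex.I))
    (z := ((y1 + y2) / 2 : ℝ) - x * Complex.I)
    (DifferentiableOn.diffContOnCl (by
      rw [Complex.closure_setOfPred_lt_re]
      exact fun u hu => ((d1 u).div (d2 u) (ne u hu)).differentiableWithinAt))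
    ⟨0, by norm_num, 0, Asymptotics.IsBigO.of_bound C (by
      rw [eventually_inf_principal]
      filter_upwards [eventually_cobounded_le_norm R] with u hu hr
      simpa using hb u hu (le_of_lt hr))⟩
    ⟨C, eventually_map.2 (by
      filter_upwards [eventually_ge_atTop R, eventually_ge_atTop 0] with t ht h0
      exact hb t (by simpa [abs_of_nonneg h0] using ht) (by simpa using h0))⟩
    (fun t => by
      have : Complex.I * (t * Complex.I) - s * Complex.I =
          starRingEnd ℂ (Complex.I * (t * Complex.I) + s * Complex.I) := by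
        apply Complex.ext <;> simp
      rw [this, FC_conj, norm_div, Complex.norm_conj]
      exact div_self_le_one _)
    (by simp; linarith)
  have e1 : Complex.I * ((((y1 + y2) / 2 : ℝ) : ℂ) - x * Complex.I) - s * Complex.I =
      x + y1 * Complex.I := by
    apply Complex.ext <;> simp [hs0] <;> ring
  have e2 : Complex.I * ((((y1 + y2) / 2 : ℝ) : ℂ) - x * Complex.I) + s * Complex.I =
      x + y2 * Complex.I := by
    apply Complex.ext <;> simp [hs0] <;> ring
  have n2 := ne ((((y1 + y2) / 2 : ℝ) : ℂ) - x * Complex.I) (by simp; linarith)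
  simp only [e1, e2] at key n2
  rwa [norm_div, div_le_one (norm_pos_iff.2 n2)] at key

/-- two point values certify a zero off the real axis -/
theorem two_point {f f1 f2 : ℝ → ℝ} {a : ℝ} (ha : 0 < a) (h : Sm f f1 f2 a) (hfa : f a ≠ 0)
    {u v : ℂ} (hre : u.re = v.re) (h1 : 0 ≤ u.im) (h2 : u.im ≤ v.im)
    (hlt : ‖FC f a v‖ < ‖FC f a u‖) : ∃ z, z.im ≠ 0 ∧ FC f a z = 0 := by
  by_contra hc
  have := vert_mono ha h hfa (fun z hz => by_contra fun h0 => hc ⟨z, h0, hz⟩) u.re h1 h2
  rw [Complex.re_add_im, hre, Complex.re_add_im] at this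
  linarith

/-- three real values certify a zero off the real axis -/
theorem three_point {f f1 f2 : ℝ → ℝ} {a : ℝ} (ha : 0 < a) (h : Sm f f1 f2 a) (hfa : f a ≠ 0)
    {p q x : ℝ} (hx : x ∈ Icc p q) (hpos : ∀ t ∈ Icc p q, 0 < FR f a t)
    (hp : FR f a x < FR f a p) (hq : FR f a x < FR f a q) : ∃ z, z.im ≠ 0 ∧ FC f a z = 0 := by
  by_contra hc
  have hz : ∀ z, FC f a z = 0 → z.im = 0 := fun z hz => by_contra fun h0 => hc ⟨z, h0, hz⟩
  have hd := FC_diff h.c0 a
  have nr : ∀ t ∈ Icc p q, ‖FC f a t‖ = FR f a t := fun t ht => by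
    rw [FC_real, Complex.norm_real, Real.norm_eq_abs, abs_of_pos (hpos t ht)]
  have up : ∀ z : ℂ, z.re ∈ Icc p q → FR f a z.re ≤ ‖FC f a z‖ := fun z hz1 => by
    have := vert_mono ha h hfa hz z.re le_rfl (abs_nonneg z.im)
    rw [Complex.ofReal_zero, zero_mul, add_zero, nr _ hz1] at this
    rcases le_total 0 z.im with h0 | h0
    · rwa [abs_of_nonneg h0, Complex.re_add_im] at this
    · rwa [abs_of_nonpos h0, show (z.re : ℂ) + (-z.im : ℝ) * Complex.I = starRingEnd ℂ z by
        apply Complex.ext <;> simp, FC_conj, Complex.norm_conj] at this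
  have hcont : Continuous fun t : ℝ => ‖FC f a t‖ :=
    (hd.continuous.comp Complex.continuous_ofReal).norm
  obtain ⟨m, hm, hmin⟩ := isCompact_Icc.exists_isMinOn ⟨x, hx⟩ hcont.continuousOn
  have hmx : FR f a m ≤ FR f a x := by
    have := hmin hx
    simp only [mem_ofPred_eq] at this
    rwa [nr m hm, nr x hx] at this
  have m1 : p < m := lt_of_le_of_ne hm.1 fun e => by rw [e] at hp; linarith
  have m2 : m < q := lt_of_le_of_ne hm.2 fun e => by rw [← e] at hq; linarith
  have cl : closure (Complex.re ⁻¹' Ioo p q) = Complex.re ⁻¹' Icc p q := by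
    rw [Complex.closure_preimage_re, closure_Ioo (m1.trans m2).ne]
  have key := Complex.norm_eqOn_closure_of_isPreconnected_of_isMaxOn
    (f := fun z => (FC f a z)⁻¹) (U := Complex.re ⁻¹' Ioo p q) (c := m)
    (((convex_Ioo p q).is_linear_preimage Complex.reLm.isLinear).isPreconnected)
    (isOpen_Ioo.preimage Complex.continuous_re)
    (DifferentiableOn.diffContOnCl (by
      rw [cl]
      exact fun z hz1 => ((hd z).inv (norm_pos_iff.1
        ((hpos _ hz1).trans_le (up z hz1)))).differentiableWithinAt))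
    ⟨m1, m2⟩ (fun z hz1 => by
      have z1 : z.re ∈ Icc p q := Ioo_subset_Icc_self hz1
      have := hmin z1
      simp only [mem_ofPred_eq, Function.comp, norm_inv] at this ⊢
      rw [nr _ z1] at this
      exact inv_anti₀ (by rw [nr m hm]; exact hpos m hm) (this.trans (up z z1)))
  have pp : p ∈ Icc p q := ⟨le_rfl, (m1.trans m2).le⟩
  have := key (x := (p : ℂ)) (by rw [cl]; exact pp)
  simp only [Function.comp, Function.const, norm_inv, inv_inj] at this
  rw [nr p pp, nr m hm] at this
  linarith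

end

end Pool.Agent.Lib.XI
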