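import Pool.Agent.Lib.XI.Ev
import Pool.Agent.Lib.XI.Two

/-!
A checker for intervals of truncation points with a zero off the real axis.
-/

namespace Pool.Agent.Lib.XI

open Complex Pool.Agent.Lib.MP_c54d0a_an

lemma sm_Phi (a : ℝ) : Sm Phi Phi1 Phi2 a :=
  ⟨continuous_Phi, continuous_Phi2, fun t _ => hasDerivAt_Phi t, fun t _ => hasDerivAt_Phi1 t⟩

lemma Phi_upper {t : ℝ} (ht : 0 ≤ t) : Phi t ≤ Real.exp t * ((uu 0 t ^ 2 * 2 + uu 0 t * (-3))
    * Real.exp (-uu 0 t) + uu 0 t ^ 2 * 33 * (Real.exp (-uu 0 t) ^ 2) ^ 2) := by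
  have h := (abs_le.1 (Phi_tail (N := 1) le_rfl ht)).2
  have u4 : uu 1 t = 4 * uu 0 t := by unfold uu; norm_num; ring
  have e : Real.exp (-uu 1 t) = (Real.exp (-uu 0 t) ^ 2) ^ 2 := by
    rw [← pow_mul, ← Real.exp_nat_mul, u4]; congr 1; push_cast; ring
  rw [Finset.sum_range_one, e, u4] at h
  simp only [TT, eval_P0] at h
  have : 0 ≤ Real.exp t * (uu 0 t ^ 2 * (Real.exp (-uu 0 t) ^ 2) ^ 2) := by positivity
  nlinarith

lemma drift2 {l h a c : ℝ} (h0 : 0 ≤ l) (h1 : l ≤ a) (h2 : a ≤ h) (hc : 2 * c = l + h) {z : ℂ}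
    (hz : 0 ≤ z.im) : ‖F a z - F c z‖ ≤ Phi l * Real.cosh (z.im * h) * ((h - l) / 2) := by
  have key : ∀ s t, l ≤ s → s ≤ t → t ≤ h → t - s ≤ (h - l) / 2 →
      ‖F t z - F s z‖ ≤ Phi l * Real.cosh (z.im * h) * ((h - l) / 2) := fun s t k1 k2 k3 k4 => by
    refine (drift (h0.trans k1) k2 (abs_of_nonneg hz).le).trans ?_
    have p1 := Phi_pos l
    have t0 : 0 ≤ t := h0.trans (k1.trans k2)
    refine mul_le_mul (mul_le_mul (Phi_le_Phi h0 k1) (Real.cosh_le_cosh.2 ?_)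
      (Real.cosh_pos _).le p1.le) k4 (by linarith) (mul_pos p1 (Real.cosh_pos _)).le
    rw [abs_of_nonneg (mul_nonneg hz t0), abs_of_nonneg (mul_nonneg hz (t0.trans k3))]
    exact mul_le_mul_of_nonneg_left k3 hz
  rcases le_total a c with h3 | h3
  · rw [norm_sub_rev]
    exact key a c h1 h3 (by linarith) (by linarith)
  · exact key c a (by linarith) h3 h2 (by linarith)

namespace B

/-- a ball around an upper bound of the kernel -/
def phi (an ad : ℕ) : B :=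
  force (pi.mul (ofQ (4 * an) 0 ad).exp) fun U => force U.neg.exp fun f =>
    (ofQ an 0 ad).exp.mul ((((U.sq.mulG 2 0).add (U.mulG (-3) 0)).mul f).add
      ((U.sq.mulG 33 0).mul f.sq.sq))

lemma mem_real (p : ℤ) {d : ℕ} (hd : 0 < d) : (ofQ p 0 d).mem (((p : ℝ) / d : ℝ) : ℂ) := by
  simpa using mem_ofQ p 0 hd

lemma mem.rexp {b : B} {r : ℝ} (h : b.mem r) (hr : |r| ≤ 1000) : b.exp.mem (Real.exp r : ℝ) := by
  rw [ofReal_exp]
  exact h.exp (by rwa [norm_real])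

lemma mem_phi {an ad : ℕ} (had : 0 < ad) (ha : 5 * an ≤ 3 * ad) :
    ∃ r : ℝ, Phi ((an : ℝ) / ad) ≤ r ∧ (phi an ad).mem r := by
  have had' : (0 : ℝ) < ad := by exact_mod_cast had
  have h1 := mem_real an had
  have h4 := mem_real (4 * an) had
  rw [show (((4 * an : ℤ) : ℝ) / ad) = 4 * ((an : ℝ) / ad) by push_cast; ring] at h4
  rw [Int.cast_natCast] at h1
  have a1 : (an : ℝ) / ad ≤ 0.6 := by
    rw [div_le_iff₀ had']
    have : (5 : ℝ) * an ≤ 3 * ad := by exact_mod_cast ha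
    linarith
  have a0 : 0 ≤ (an : ℝ) / ad := by positivity
  generalize (an : ℝ) / ad = a at *
  refine ⟨_, Phi_upper a0, ?_⟩
  have hU := mem_pi.mul (h4.rexp (by rw [abs_of_nonneg (by positivity)]; linarith))
  rw [← ofReal_mul, ← uu0] at hU
  have hn := hU.neg
  rw [← ofReal_neg] at hn
  have hf := hn.rexp (by rw [abs_neg, abs_of_pos (uu_pos _ _)]; linarith [uu_six a1])
  have := (h1.rexp (by rw [abs_of_nonneg a0]; linarith)).mul
    ((((hU.sq.mulG 2 0).add (hU.mulG (-3) 0)).mul hf).add ((hU.sq.mulG 33 0).mul hf.sq.sq))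
  simp only [phi, force_eq]
  convert this using 1
  push_cast
  ring

/-- a ball around the hyperbolic cosine -/
def ch (p d : ℕ) : B := ((ofQ p 0 d).exp.add (ofQ p 0 d).neg.exp).divN 2

lemma mem_ch {p d : ℕ} (hd : 0 < d) (h : p ≤ 1000 * d) :
    (ch p d).mem (Real.cosh ((p : ℝ) / d) : ℝ) := by
  have h1 := mem_real p hd
  rw [Int.cast_natCast] at h1
  have h2 : |(p : ℝ) / d| ≤ 1000 := by
    rw [abs_of_nonneg (by positivity), div_le_iff₀ (by exact_mod_cast hd)]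
    exact_mod_cast h
  have hn := h1.neg
  rw [← ofReal_neg] at hn
  have := ((h1.rexp h2).add (hn.rexp (by rwa [abs_neg]))).divN (d := 2) (by norm_num)
  unfold ch
  convert this using 1
  rw [Real.cosh_eq]
  push_cast
  ring

end B

open B in
/-- one interval `[l, h] / 10 ^ 5`, points `(x + y i) / 100` and `(x + v i) / 100` -/
def chk (l h x y v J0 J1 : ℕ) : Bool :=
  decide (0 < l ∧ l ≤ h ∧ h ≤ 60000 ∧ 0 < x ∧ x ≤ 50000 ∧ y ≤ v ∧ v ≤ 10000 ∧ 32 ≤ J0 ∧ 137 ≤ J1) &&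
    force ((((phi l 100000).mul ((ch (y * h) 10000000).add (ch (v * h) 10000000))).mulG
      ((h : ℤ) - l) 0).divN 200000) fun D =>
    force (ev (l + h) 200000 x v 100 J0 J1) fun G =>
      (ev (l + h) 200000 x y 100 J0 J1).normGe (G.ub + D.ub + 1) (2 ^ 384)

theorem chk_sound {l h x y v J0 J1 : ℕ} (hc : chk l h x y v J0 J1 = true) {a : ℝ}
    (h1 : (l : ℝ) / 100000 ≤ a) (h2 : a ≤ (h : ℝ) / 100000) : ∃ z, z.im ≠ 0 ∧ F a z = 0 := by
  simp only [chk, B.force_eq, Bool.and_eq_true, decide_eq_true_eq] at hc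
  obtain ⟨⟨c1, c2, c3, c4, c5, c6, c7, c8, c9⟩, hc⟩ := hc
  have l0 : (0 : ℝ) < (l : ℝ) / 100000 := by positivity
  have hG := B.ev_sound (an := l + h) (ad := 200000) (d := 100) (x := x) (y := v) (by norm_num)
    (by norm_num) (by omega) (by omega) (by omega) (by omega) c8 c9
  have hH := B.ev_sound (an := l + h) (ad := 200000) (d := 100) (x := x) (y := y) (by norm_num)
    (by norm_num) (by omega) (by omega) (by omega) (by omega) c8 c9
  have k1 := hH.normGe (by positivity) hc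
  have k2 := hG.norm_le
  obtain ⟨r, r1, r2⟩ := B.mem_phi (an := l) (ad := 100000) (by norm_num) (by omega)
  have m1 : y * h ≤ 1000 * 10000000 := (Nat.mul_le_mul (c6.trans c7) c3).trans (by norm_num)
  have m2 : v * h ≤ 1000 * 10000000 := (Nat.mul_le_mul c7 c3).trans (by norm_num)
  have k3 := (((r2.mul ((B.mem_ch (by norm_num) m1).add (B.mem_ch (by norm_num) m2))).mulG
    ((h : ℤ) - l) 0).divN (d := 200000) (by norm_num)).norm_le
  have im : ∀ w : ℕ, ((((x : ℤ) : ℂ) + ((w : ℤ) : ℂ) * I) / ((100 : ℕ) : ℂ)).im = (w : ℝ) / 100 := by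
    intro w; simp
  have d1 := drift2 (c := ((l + h : ℕ) : ℝ) / (200000 : ℕ)) l0.le h1 h2 (by push_cast; ring)
    (z := (((x : ℤ) : ℂ) + ((y : ℤ) : ℂ) * I) / ((100 : ℕ) : ℂ)) (by rw [im]; positivity)
  have d2 := drift2 (c := ((l + h : ℕ) : ℝ) / (200000 : ℕ)) l0.le h1 h2 (by push_cast; ring)
    (z := (((x : ℤ) : ℂ) + ((v : ℤ) : ℂ) * I) / ((100 : ℕ) : ℂ)) (by rw [im]; positivity)
  rw [im] at d1 d2
  have e1 : ∀ w : ℕ, ((w * h : ℕ) : ℝ) / (10000000 : ℕ) = (w : ℝ) / 100 * (h / 100000) := by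
    intro w; push_cast; ring
  rw [e1, e1] at k3
  have hl : (0 : ℝ) ≤ ((h : ℝ) / 100000 - l / 100000) / 2 := by linarith
  have k4 : r * (Real.cosh ((y : ℝ) / 100 * (h / 100000)) + Real.cosh ((v : ℝ) / 100 * (h / 100000)))
      * (((h : ℝ) / 100000 - l / 100000) / 2) ≤ _ := le_trans ((le_abs_self _).trans (le_of_eq (by
        rw [← Real.norm_eq_abs, ← norm_real]; congr 1; push_cast; ring))) k3
  refine two_point (l0.trans_le h1) (sm_Phi a) (Phi_pos a).ne'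
    (u := (((x : ℤ) : ℂ) + ((y : ℤ) : ℂ) * I) / ((100 : ℕ) : ℂ))
    (v := (((x : ℤ) : ℂ) + ((v : ℤ) : ℂ) * I) / ((100 : ℕ) : ℂ)) (by simp) (by rw [im]; positivity)
    (by rw [im, im]; gcongr) ?_
  rw [← F_eq_FC]
  have n1 := norm_sub_norm_le (F a ((((x : ℤ) : ℂ) + ((v : ℤ) : ℂ) * I) / ((100 : ℕ) : ℂ)))
    (F (((l + h : ℕ) : ℝ) / (200000 : ℕ)) ((((x : ℤ) : ℂ) + ((v : ℤ) : ℂ) * I) / ((100 : ℕ) : ℂ)))
  have n2 := norm_sub_norm_le
    (F (((l + h : ℕ) : ℝ) / (200000 : ℕ)) ((((x : ℤ) : ℂ) + ((y : ℤ) : ℂ) * I) / ((100 : ℕ) : ℂ)))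
    (F a ((((x : ℤ) : ℂ) + ((y : ℤ) : ℂ) * I) / ((100 : ℕ) : ℂ)))
  rw [norm_sub_rev] at n2
  rw [Nat.cast_add, Nat.cast_add, Nat.cast_one, Nat.cast_pow, Nat.cast_ofNat, add_div, add_div] at k1
  have p0 : (0 : ℝ) < 1 / 2 ^ 384 := by positivity
  have r3 : Phi ((l : ℝ) / 100000) ≤ r := by simpa using r1
  have q1 := mul_le_mul_of_nonneg_right (mul_le_mul_of_nonneg_right r3
    (Real.cosh_pos ((y : ℝ) / 100 * (h / 100000))).le) hl
  have q2 := mul_le_mul_of_nonneg_right (mul_le_mul_of_nonneg_right r3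
    (Real.cosh_pos ((v : ℝ) / 100 * (h / 100000))).le) hl
  generalize (1 : ℝ) / 2 ^ 384 = ε at *
  linarith

/-- a chain of intervals -/
def chkL : ℕ → List (ℕ × ℕ × ℕ × ℕ × ℕ × ℕ) → ℕ → Bool
  | l, [], e => decide (e ≤ l)
  | l, (h, x, y, v, J0, J1) :: t, e => chk l h x y v J0 J1 && chkL h t e

theorem chkL_sound {e : ℕ} {a : ℝ} (h2 : a ≤ (e : ℝ) / 100000) :
    ∀ (L : List (ℕ × ℕ × ℕ × ℕ × ℕ × ℕ)) (l : ℕ), chkL l L e = true → (l : ℝ) / 100000 < a →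
      ∃ z, z.im ≠ 0 ∧ F a z = 0
  | [], l, hc, h1 => by
    have : (e : ℝ) ≤ l := by exact_mod_cast of_decide_eq_true hc
    linarith
  | (h, x, y, v, J0, J1) :: t, l, hc, h1 => by
    simp only [chkL, Bool.and_eq_true] at hc
    rcases le_or_gt a ((h : ℝ) / 100000) with h3 | h3
    · exact chk_sound hc.1 h1.le h3
    · exact chkL_sound h2 t h hc.2 h3

end Pool.Agent.Lib.XI
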