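import Pool.Agent.Lib.XI.Tail
import Pool.Agent.Lib.XI.Ball

/-!
A certified evaluator of the truncated transform at rational points.
-/

namespace Pool.Agent.Lib.XI

open Complex Pool.Agent.Lib.MP_c54d0a_an MeasureTheory

noncomputable section

/-- coefficients of the polynomial of the kernel -/
def pc (j : ℕ) : ℂ := if j = 1 then -3 else if j = 2 then 2 else 0

/-- coefficients of the Kummer series -/
def kc (s : ℂ) : ℕ → ℂ
  | 0 => 0
  | j + 1 => (pc (j + 1) + 4 * kc s j) / (s + 4 * ((j + 1 : ℕ) : ℂ))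

lemma kc_succ (s : ℂ) (j : ℕ) :
    kc s (j + 1) = (pc (j + 1) + 4 * kc s j) / (s + 4 * ((j + 1 : ℕ) : ℂ)) := rfl

/-- truncated Kummer series -/
def KS (s : ℂ) (J : ℕ) (u : ℂ) : ℂ := ∑ j ∈ Finset.range (J + 1), kc s j * u ^ j

lemma shift_ne {s : ℂ} (hs : s.im ≠ 0) (j : ℕ) : s + 4 * (j : ℂ) ≠ 0 := fun h =>
  hs (by simpa using congrArg Complex.im h)

lemma kum_id {s : ℂ} (hs : s.im ≠ 0) (u : ℂ) (J : ℕ) :
    ∑ j ∈ Finset.range (J + 1), kc s j * ((s + 4 * j) * u ^ j - 4 * u ^ (j + 1))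
      = ∑ j ∈ Finset.range (J + 1), pc j * u ^ j - 4 * kc s J * u ^ (J + 1) := by
  induction J with
  | zero => simp [kc, pc]
  | succ J ih =>
    rw [Finset.sum_range_succ, ih, Finset.sum_range_succ _ (J + 1)]
    have h : kc s (J + 1) * (s + 4 * ((J + 1 : ℕ) : ℂ)) = pc (J + 1) + 4 * kc s J := by
      rw [kc, div_mul_cancel₀ _ (shift_ne hs (J + 1))]
    linear_combination u ^ (J + 1) * h

lemma pc_sum (u : ℂ) (J : ℕ) :
    ∑ j ∈ Finset.range (J + 2 + 1), pc j * u ^ j = 2 * u ^ 2 - 3 * u := by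
  induction J with
  | zero => simp [Finset.sum_range_succ, pc]; ring
  | succ J ih =>
    rw [show J + 1 + 2 + 1 = (J + 2 + 1) + 1 by ring, Finset.sum_range_succ, ih]
    simp [pc]

lemma hasDerivAt_HH {s : ℂ} (hs : s.im ≠ 0) (J n : ℕ) (t : ℝ) :
    HasDerivAt (fun t : ℝ => cexp (s * t) * (cexp (-(uu n t : ℂ)) * KS s (J + 2) (uu n t)))
      (cexp (s * t) * cexp (-(uu n t : ℂ)) * (2 * (uu n t : ℂ) ^ 2 - 3 * uu n t)
        - cexp (s * t) * cexp (-(uu n t : ℂ)) * (4 * kc s (J + 2) * (uu n t : ℂ) ^ (J + 2 + 1)))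
      t := by
  have hu : HasDerivAt (fun t : ℝ => (uu n t : ℂ)) ((4 * uu n t : ℝ) : ℂ) t :=
    (hasDerivAt_uu n t).ofReal_comp
  have hl : HasDerivAt (fun t : ℝ => s * (t : ℂ)) (s * ((1 : ℝ) : ℂ)) t :=
    (hasDerivAt_id t).ofReal_comp.const_mul s
  have hj : ∀ j ∈ Finset.range (J + 2 + 1), HasDerivAt
      (fun t : ℝ => cexp (s * t) * (cexp (-(uu n t : ℂ)) * (kc s j * (uu n t : ℂ) ^ j)))
      (cexp (s * t) * cexp (-(uu n t : ℂ))
        * (kc s j * ((s + 4 * j) * (uu n t : ℂ) ^ j - 4 * (uu n t : ℂ) ^ (j + 1)))) t := by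
    intro j _
    have h := hl.cexp.fun_mul (hu.fun_neg.cexp.fun_mul ((hu.fun_pow j).const_mul (kc s j)))
    refine h.congr_deriv ?_
    push_cast
    rcases j with _ | j
    · simp [kc]
    · simp only [Nat.add_sub_cancel]
      push_cast
      ring
  have h := HasDerivAt.fun_sum hj
  rw [← Finset.mul_sum, kum_id hs, pc_sum, mul_sub] at h
  have e : (fun t : ℝ => cexp (s * t) * (cexp (-(uu n t : ℂ)) * KS s (J + 2) (uu n t)))
      = fun t : ℝ => ∑ j ∈ Finset.range (J + 2 + 1),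
        cexp (s * t) * (cexp (-(uu n t : ℂ)) * (kc s j * (uu n t : ℂ) ^ j)) := by
    funext t
    simp only [KS, Finset.mul_sum]
  rw [e]
  exact h

/-- the integral of one term against an exponential -/
def GG (s : ℂ) (n : ℕ) (a : ℝ) : ℂ :=
  ∫ t in (0 : ℝ)..a, cexp (s * t) * cexp (-(uu n t : ℂ)) * (2 * (uu n t : ℂ) ^ 2 - 3 * uu n t)

@[fun_prop] lemma continuous_uu (n : ℕ) : Continuous (uu n) := by unfold uu; fun_prop

lemma uu_mono (n : ℕ) {s t : ℝ} (h : s ≤ t) : uu n s ≤ uu n t := by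
  unfold uu
  have := Real.pi_pos
  gcongr

lemma pow_exp_mono {u U : ℝ} {m : ℕ} (hu : 0 < u) (h : u ≤ U) (hm : U ≤ m) :
    u ^ m * Real.exp (-u) ≤ U ^ m * Real.exp (-U) := by
  have hU : 0 < U := hu.trans_le h
  have h1 : u / U ≤ Real.exp (-((U - u) / U)) := by
    have := Real.add_one_le_exp (-((U - u) / U))
    have e : -((U - u) / U) + 1 = u / U := by field_simp; ring
    rwa [e] at this
  have h2 : (u / U) ^ m ≤ Real.exp (-(U - u)) := by
    refine (pow_le_pow_left₀ (by positivity) h1 m).trans ?_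
    rw [← Real.exp_nat_mul]
    apply Real.exp_le_exp.2
    have : U - u ≤ m * ((U - u) / U) := by
      rw [← mul_div_assoc, le_div_iff₀ hU]
      nlinarith
    linarith
  rw [div_pow, div_le_iff₀ (by positivity)] at h2
  calc u ^ m * Real.exp (-u) ≤ Real.exp (-(U - u)) * U ^ m * Real.exp (-u) := by gcongr
    _ = U ^ m * (Real.exp (-(U - u)) * Real.exp (-u)) := by ring
    _ = _ := by rw [← Real.exp_add]; congr 2; ring

lemma GG_approx {s : ℂ} (hs : s.im ≠ 0) (J n : ℕ) {a : ℝ} (h0 : 0 ≤ a) (h1 : a ≤ 1)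
    (hU : uu n a ≤ J + 3) :
    ‖GG s n a - (cexp (s * a) * (cexp (-(uu n a : ℂ)) * KS s (J + 2) (uu n a))
        + -(cexp (-(uu n 0 : ℂ)) * KS s (J + 2) (uu n 0)))‖
      ≤ ‖kc s (J + 2) * (uu n a : ℂ) ^ (J + 2) * ((uu n a : ℂ) * 4) * cexp (-(uu n a : ℂ))‖
        + ‖kc s (J + 2) * (uu n a : ℂ) ^ (J + 2) * ((uu n a : ℂ) * 4) * cexp (-(uu n a : ℂ))
          * cexp (s * a)‖ := by
  have h := intervalIntegral.integral_eq_sub_of_hasDerivAt (a := 0) (b := a)
    (fun t _ => hasDerivAt_HH hs J n t) (Continuous.intervalIntegrable (by fun_prop) _ _)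
  rw [intervalIntegral.integral_sub (Continuous.intervalIntegrable (by fun_prop) _ _)
    (Continuous.intervalIntegrable (by fun_prop) _ _)] at h
  simp only [ofReal_zero, mul_zero, Complex.exp_zero, one_mul] at h
  have e : GG s n a - (cexp (s * a) * (cexp (-(uu n a : ℂ)) * KS s (J + 2) (uu n a))
        + -(cexp (-(uu n 0 : ℂ)) * KS s (J + 2) (uu n 0)))
      = ∫ t in (0 : ℝ)..a,
        cexp (s * t) * cexp (-(uu n t : ℂ)) * (4 * kc s (J + 2) * (uu n t : ℂ) ^ (J + 2 + 1)) := by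
    unfold GG
    linear_combination h
  rw [e]
  set q := kc s (J + 2) * (uu n a : ℂ) ^ (J + 2) * ((uu n a : ℂ) * 4) * cexp (-(uu n a : ℂ))
  refine (intervalIntegral.norm_integral_le_of_norm_le_const (C := ‖q‖ + ‖q * cexp (s * a)‖)
    fun t ht => ?_).trans ?_
  · rw [Set.uIoc_of_le h0] at ht
    have n1 : ∀ t, ‖cexp (-(uu n t : ℂ)) * (4 * kc s (J + 2) * (uu n t : ℂ) ^ (J + 2 + 1))‖
        = 4 * ‖kc s (J + 2)‖ * (uu n t ^ (J + 2 + 1) * Real.exp (-uu n t)) := fun t => by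
      rw [norm_mul, norm_mul, norm_mul, norm_pow, Complex.norm_exp, Complex.norm_real,
        Real.norm_of_nonneg (uu_pos n t).le]
      simp only [neg_re, ofReal_re, Complex.norm_ofNat]
      ring
    have n2 : ‖q‖ = 4 * ‖kc s (J + 2)‖ * (uu n a ^ (J + 2 + 1) * Real.exp (-uu n a)) := by
      rw [← n1]; congr 1; simp only [q]; ring
    have n3 : ‖cexp (s * t)‖ ≤ 1 + ‖cexp (s * a)‖ := by
      rw [Complex.norm_exp, Complex.norm_exp]
      simp only [mul_re, ofReal_re, ofReal_im, mul_zero, sub_zero]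
      rcases le_total s.re 0 with h | h
      · have : Real.exp (s.re * t) ≤ 1 :=
          Real.exp_le_one_iff.2 (mul_nonpos_of_nonpos_of_nonneg h ht.1.le)
        linarith [Real.exp_pos (s.re * a)]
      · have : Real.exp (s.re * t) ≤ Real.exp (s.re * a) :=
          Real.exp_le_exp.2 (mul_le_mul_of_nonneg_left ht.2 h)
        linarith
    have n4 := pow_exp_mono (m := J + 2 + 1) (uu_pos n t) (uu_mono n ht.2) (by push_cast; linarith)
    rw [mul_assoc, norm_mul, n1, norm_mul q, n2]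
    calc _ ≤ (1 + ‖cexp (s * a)‖)
          * (4 * ‖kc s (J + 2)‖ * (uu n a ^ (J + 2 + 1) * Real.exp (-uu n a))) := by
          have := uu_pos n t
          gcongr
      _ = _ := by ring
  · rw [sub_zero, abs_of_nonneg h0]
    exact mul_le_of_le_one_right (by positivity) h1

lemma tail_int {a : ℝ} (h0 : 0 ≤ a) (h1 : a ≤ 0.6) {z : ℂ} (hz : |z.im| ≤ 100) :
    ‖F a z - (GG (1 + I * z) 0 a + GG (1 + I * z) 1 a + (GG (1 - I * z) 0 a + GG (1 - I * z) 1 a))
      / (2 : ℕ)‖ ≤ 1 / 10 ^ 9 := by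
  have e : F a z - (GG (1 + I * z) 0 a + GG (1 + I * z) 1 a
      + (GG (1 - I * z) 0 a + GG (1 - I * z) 1 a)) / (2 : ℕ) = ∫ t in (0 : ℝ)..a,
        ((Phi t - ∑ n ∈ Finset.range 2, TT P0 n t : ℝ) : ℂ) * Complex.cos (z * t) := by
    unfold F GG
    rw [← intervalIntegral.integral_add, ← intervalIntegral.integral_add,
      ← intervalIntegral.integral_add, ← intervalIntegral.integral_div,
      ← intervalIntegral.integral_sub]
    · congr 1
      funext t
      have e1 : cexp ((1 + I * z) * t) = cexp t * cexp (z * t * I) := by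
        rw [← Complex.exp_add]; congr 1; ring
      have e2 : cexp ((1 - I * z) * t) = cexp t * cexp (-(z * t) * I) := by
        rw [← Complex.exp_add]; congr 1; ring
      rw [e1, e2, Complex.cos]
      simp only [Finset.sum_range_succ, Finset.sum_range_zero, TT, eval_P0]
      push_cast
      ring
    all_goals exact Continuous.intervalIntegrable (by fun_prop) _ _
  rw [e]
  refine (intervalIntegral.norm_integral_le_of_norm_le_const (C := 1.2e-9) fun t ht => ?_).trans ?_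
  · rw [Set.uIoc_of_le h0] at ht
    have ht0 := ht.1.le
    rw [norm_mul, Complex.norm_real, Real.norm_eq_abs]
    have c1 : ‖Complex.cos (z * t)‖ ≤ Real.exp (100 * t) := by
      refine (norm_cos_mul_le z t).trans ?_
      have h2 := abs_le.1 hz
      have a1 : Real.exp (z.im * t) ≤ Real.exp (100 * t) := Real.exp_le_exp.2 (by nlinarith)
      have a2 : Real.exp (-(z.im * t)) ≤ Real.exp (100 * t) := Real.exp_le_exp.2 (by nlinarith)
      rw [Real.cosh_eq]
      linarith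
    have p1 := Real.pi_gt_d2
    have p2 := Real.pi_lt_d2
    have u1 : uu 2 t = 9 * Real.pi * Real.exp (4 * t) := by unfold uu; norm_num
    have u2 : 28 + 113 * t ≤ uu 2 t := by
      rw [u1]
      have := Real.add_one_le_exp (4 * t)
      nlinarith
    have u3 : uu 2 t ^ 2 ≤ 804 * Real.exp (8 * t) := by
      have : Real.exp (8 * t) = Real.exp (4 * t) ^ 2 := by
        rw [← Real.exp_nat_mul]; congr 1; push_cast; ring
      rw [u1, this, mul_pow]
      gcongr
      nlinarith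
    have u4 : Real.exp t * Real.exp (8 * t) * Real.exp (-uu 2 t) * Real.exp (100 * t)
        ≤ Real.exp (-28) := by
      rw [← Real.exp_add, ← Real.exp_add, ← Real.exp_add]
      exact Real.exp_le_exp.2 (by linarith)
    have u5 : Real.exp (-28) ≤ 7e-13 := by
      rw [Real.exp_neg, inv_le_comm₀ (Real.exp_pos _) (by norm_num)]
      have := exp_ge_pow 28
      norm_num at this ⊢
      linarith
    calc _ ≤ 1.002 * (Real.exp t * 2 * uu 2 t ^ 2 * Real.exp (-uu 2 t)) * Real.exp (100 * t) :=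
          mul_le_mul (Phi_tail (by norm_num) ht0) c1 (norm_nonneg _) (by positivity)
      _ ≤ 1.002 * (Real.exp t * 2 * (804 * Real.exp (8 * t)) * Real.exp (-uu 2 t))
          * Real.exp (100 * t) := by gcongr
      _ = 1.002 * 2 * 804
          * (Real.exp t * Real.exp (8 * t) * Real.exp (-uu 2 t) * Real.exp (100 * t)) := by ring
      _ ≤ 1.002 * 2 * 804 * 7e-13 := by gcongr; exact u4.trans u5
      _ ≤ _ := by norm_num
  · rw [sub_zero, abs_of_nonneg h0]
    norm_num at h1 ⊢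
    linarith

end

namespace B

/-- division by the Gaussian rational `(p + q i) / d` -/
def divG (t : B) (p q : ℤ) (d : ℕ) : B :=
  (t.mulG (d * p) (-(d * q))).divN (p.natAbs ^ 2 + q.natAbs ^ 2)

lemma mem.divG {t : B} {z : ℂ} (h : t.mem z) (p : ℤ) {q : ℤ} (hq : q ≠ 0) {d : ℕ} (hd : 0 < d) :
    (t.divG p q d).mem (z / (((p : ℂ) + (q : ℂ) * I) / d)) := by
  have h1 : 0 < p.natAbs ^ 2 + q.natAbs ^ 2 := by
    have := Int.natAbs_pos.2 hq
    positivity
  have h2 := (h.mulG (d * p) (-(d * q))).divN h1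
  have e : ((p.natAbs ^ 2 + q.natAbs ^ 2 : ℕ) : ℂ) = ((p : ℂ) + q * I) * (p - q * I) := by
    have : ((p.natAbs ^ 2 + q.natAbs ^ 2 : ℕ) : ℤ) = p ^ 2 + q ^ 2 := by
      push_cast; rw [sq_abs, sq_abs]
    have h3 : ((p.natAbs ^ 2 + q.natAbs ^ 2 : ℕ) : ℂ) = (p : ℂ) ^ 2 + (q : ℂ) ^ 2 := by
      have h4 := congrArg (Int.cast : ℤ → ℂ) this
      rw [Int.cast_natCast] at h4
      rw [h4]
      push_cast
      ring
    rw [h3]
    linear_combination (q : ℂ) ^ 2 * I_mul_I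
  have n1 : (p : ℂ) + q * I ≠ 0 := fun h => hq (by simpa using congrArg Complex.im h)
  have n2 : (p : ℂ) - q * I ≠ 0 := fun h => hq (by simpa using congrArg Complex.im h)
  have n3 : (d : ℂ) ≠ 0 := by exact_mod_cast hd.ne'
  have e2 : z / (((p : ℂ) + (q : ℂ) * I) / d)
      = z * ((((d : ℤ) * p : ℤ) : ℂ) + ((-((d : ℤ) * q) : ℤ) : ℂ) * I)
        / ((p.natAbs ^ 2 + q.natAbs ^ 2 : ℕ) : ℂ) := by
    rw [e]
    push_cast
    field_simp
    ring
  rw [e2]
  exact h2

/-- loop of the Kummer series -/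
def kumL (w : B) (q : ℤ) (d : ℕ) : ℕ → ℤ → B → B → B × B
  | 0, _, t, s => (t, s)
  | n + 1, p, t, s => fI (p + 4 * d) fun p' => force ((t.mul w).divG p' q d) fun t' =>
      force (s.add t') fun s' => kumL w q d n p' t' s'

lemma mem_kumL {w : B} {u σ : ℂ} (hw : w.mem (u * 4)) {q : ℤ} (hq : q ≠ 0) {d : ℕ} (hd : 0 < d)
    (n : ℕ) : ∀ (j : ℕ) (p : ℤ) (t s : B), ((p : ℂ) + q * I) / d = σ + 4 * ((j + 2 : ℕ) : ℂ) →
      t.mem (kc σ (j + 2) * u ^ (j + 2)) → s.mem (KS σ (j + 2) u) →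
      (kumL w q d n p t s).1.mem (kc σ (n + j + 2) * u ^ (n + j + 2))
        ∧ (kumL w q d n p t s).2.mem (KS σ (n + j + 2) u) := by
  induction n with
  | zero => intro j p t s _ ht hs; simpa [kumL] using ⟨ht, hs⟩
  | succ n ih =>
    intro j p t s hp ht hs
    simp only [kumL, fI_eq, force_eq]
    have n3 : (d : ℂ) ≠ 0 := by exact_mod_cast hd.ne'
    have hp' : (((p + 4 * d : ℤ) : ℂ) + q * I) / d = σ + 4 * ((j + 1 + 2 : ℕ) : ℂ) := by
      have : (((p + 4 * d : ℤ) : ℂ) + q * I) / d = ((p : ℂ) + q * I) / d + 4 := by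
        push_cast; field_simp; ring
      rw [this, hp]; push_cast; ring
    have h1 := (ht.mul hw).divG (p + 4 * d) hq hd
    have e : kc σ (j + 2) * u ^ (j + 2) * (u * 4) / ((((p + 4 * d : ℤ) : ℂ) + q * I) / d)
        = kc σ (j + 1 + 2) * u ^ (j + 1 + 2) := by
      rw [hp', show j + 1 + 2 = j + 2 + 1 by ring, kc_succ σ (j + 2)]
      simp only [pc]
      rw [if_neg (by omega), if_neg (by omega)]
      ring
    rw [e] at h1
    have h2 := ih (j + 1) _ _ (s.add _) hp' h1 (by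
      have := hs.add h1
      unfold KS at this ⊢
      rwa [show j + 1 + 2 + 1 = j + 2 + 1 + 1 by ring, Finset.sum_range_succ _ (j + 2 + 1)])
    rwa [show n + (j + 1) = n + 1 + j by ring] at h2

/-- last term and sum of the Kummer series -/
def kum (u : B) (p q : ℤ) (d J : ℕ) : B × B :=
  force (u.mulG 4 0) fun w => force ((u.mulG (-3) 0).divG (p + 4 * d) q d) fun t1 =>
    force ((((u.mul u).mulG 2 0).add (t1.mul w)).divG (p + 8 * d) q d) fun t2 =>
      kumL w q d J (p + 8 * d) t2 (t1.add t2)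

lemma mem.four {b : B} {u : ℂ} (h : b.mem u) : (b.mulG 4 0).mem (u * 4) := by
  simpa using h.mulG 4 0

lemma mem_kum {b : B} {u : ℂ} (h : b.mem u) (p : ℤ) {q : ℤ} (hq : q ≠ 0) {d : ℕ} (hd : 0 < d)
    (J : ℕ) : (kum b p q d J).1.mem (kc (((p : ℂ) + q * I) / d) (J + 2) * u ^ (J + 2))
      ∧ (kum b p q d J).2.mem (KS (((p : ℂ) + q * I) / d) (J + 2) u) := by
  simp only [kum, force_eq]
  set σ := ((p : ℂ) + q * I) / d with hσ
  have n3 : (d : ℂ) ≠ 0 := by exact_mod_cast hd.ne'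
  have e1 : (((p + 4 * d : ℤ) : ℂ) + q * I) / d = σ + 4 * ((0 + 1 : ℕ) : ℂ) := by
    rw [hσ]; push_cast; field_simp; ring
  have e2 : (((p + 8 * d : ℤ) : ℂ) + q * I) / d = σ + 4 * ((0 + 2 : ℕ) : ℂ) := by
    rw [hσ]; push_cast; field_simp; ring
  have h1 : ((b.mulG (-3) 0).divG (p + 4 * d) q d).mem (kc σ 1 * u ^ 1) := by
    have := (h.mulG (-3) 0).divG (p + 4 * d) hq hd
    convert this using 1
    rw [e1]
    simp [kc, pc]
    ring
  have h2 : ((((b.mul b).mulG 2 0).add (((b.mulG (-3) 0).divG (p + 4 * d) q d).mul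
      (b.mulG 4 0))).divG (p + 8 * d) q d).mem (kc σ (0 + 2) * u ^ (0 + 2)) := by
    have := (((h.mul h).mulG 2 0).add (h1.mul h.four)).divG (p + 8 * d) hq hd
    convert this using 1
    rw [e2, kc]
    simp [pc]
    ring
  exact mem_kumL h.four hq hd J 0 _ _ _ e2 h2 (by
    have := h1.add h2
    convert this using 1
    simp [KS, Finset.sum_range_succ, kc])

/-- the integral of one term -/
def gn (E U eU u0 e0 : B) (p q : ℤ) (d J : ℕ) : B :=
  match kum U p q d J with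
  | (t, s) => force ((t.mul (U.mulG 4 0)).mul eU) fun r =>
    ((E.mul (eU.mul s)).add (e0.mul (kum u0 p q d J).2).neg).widen (r.ub + (r.mul E).ub)

lemma mem_gn {E U eU u0 e0 : B} {p q : ℤ} {d J n : ℕ} {a : ℝ} (hq : q ≠ 0) (hd : 0 < d)
    (h0 : 0 ≤ a) (h1 : a ≤ 1) (hJ : uu n a ≤ J + 3)
    (hE : E.mem (cexp (((p : ℂ) + q * I) / d * a))) (hU : U.mem (uu n a))
    (heU : eU.mem (cexp (-(uu n a : ℂ)))) (hu : u0.mem (uu n 0))
    (he : e0.mem (cexp (-(uu n 0 : ℂ)))) :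
    (gn E U eU u0 e0 p q d J).mem (GG (((p : ℂ) + q * I) / d) n a) := by
  obtain ⟨k1, k2⟩ := mem_kum hU p hq hd J
  obtain ⟨-, k3⟩ := mem_kum hu p hq hd J
  have hs : (((p : ℂ) + q * I) / d).im ≠ 0 := by
    have : (d : ℂ) = ((d : ℝ) : ℂ) := by push_cast; rfl
    rw [this, div_ofReal_im]
    have n3 : (d : ℝ) ≠ 0 := by exact_mod_cast hd.ne'
    simpa [n3] using hq
  have r1 := (k1.mul hU.four).mul heU
  have r2 := (r1.mul hE).norm_le
  simp only [gn, force_eq]
  refine ((hE.mul (heU.mul k2)).add (he.mul k3).neg).widen ((GG_approx hs J n h0 h1 hJ).trans ?_)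
  exact (add_le_add r1.norm_le r2).trans (le_of_eq (by push_cast; ring))

/-- the evaluator: truncation point `an / ad`, argument `(x + y i) / d` -/
def ev (an ad : ℕ) (x y : ℤ) (d J0 J1 : ℕ) : B :=
  force (pi.mul (ofQ (4 * an) 0 ad).exp) fun U0 => force (U0.mulG 4 0) fun U1 =>
  force U0.neg.exp fun f0 => force U1.neg.exp fun f1 =>
  force pi.neg.exp fun e0 => force (pi.mulG 4 0) fun u1 => force u1.neg.exp fun e1 =>
  force (ofQ ((d - y) * an) (x * an) (d * ad)).exp fun E =>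
  force (ofQ ((d + y) * an) (-x * an) (d * ad)).exp fun E' =>
  force (gn E U0 f0 pi e0 (d - y) x d J0) fun g0 => force (gn E U1 f1 u1 e1 (d - y) x d J1) fun g1 =>
  force (gn E' U0 f0 pi e0 (d + y) (-x) d J0) fun g2 =>
  force (gn E' U1 f1 u1 e1 (d + y) (-x) d J1) fun g3 =>
  force ((((g0.add g1).add (g2.add g3)).divN 2).widen (2 ^ 384 / 10 ^ 9 + 1)) fun r => r

lemma uu_six {a : ℝ} (h : a ≤ 0.6) : uu 0 a ≤ 35 := by
  have h1 := exp_sub_le 3 (s := 0.6) (by norm_num)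
  have h2 : Real.exp (4 * a) ≤ 11.1 := by
    refine (Real.exp_le_exp.2 (by push_cast; linarith)).trans (h1.trans (by norm_num))
  rw [uu0]
  nlinarith [Real.pi_lt_d2, Real.pi_pos, Real.exp_pos (4 * a)]

theorem ev_sound {an ad d J0 J1 : ℕ} {x y : ℤ} (had : 0 < ad) (hd : 0 < d) (ha : 5 * an ≤ 3 * ad)
    (hx : x ≠ 0) (hx' : x.natAbs ≤ 500 * d) (hy : y.natAbs ≤ 100 * d) (hJ0 : 32 ≤ J0)
    (hJ1 : 137 ≤ J1) :
    (ev an ad x y d J0 J1).mem (F ((an : ℝ) / ad) (((x : ℂ) + y * I) / d)) := by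
  set a : ℝ := (an : ℝ) / ad with haa
  have had' : (0 : ℝ) < ad := by exact_mod_cast had
  have hd' : (0 : ℝ) < d := by exact_mod_cast hd
  have a0 : 0 ≤ a := by positivity
  have a1 : a ≤ 0.6 := by
    rw [haa, div_le_iff₀ had']
    have : (5 : ℝ) * an ≤ 3 * ad := by exact_mod_cast ha
    linarith
  have ac : (a : ℂ) = (an : ℂ) / ad := by rw [haa]; push_cast; rfl
  have n1 : (ad : ℂ) ≠ 0 := by exact_mod_cast had.ne'
  have n2 : (d : ℂ) ≠ 0 := by exact_mod_cast hd.ne'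
  have nr : ∀ r : ℝ, 0 ≤ r → r ≤ 1000 → ‖-(r : ℂ)‖ ≤ 1000 := fun r h1 h2 => by
    rwa [norm_neg, norm_real, Real.norm_of_nonneg h1]
  have u6 := uu_six a1
  have u4 : ∀ t, uu 1 t = uu 0 t * 4 := fun t => by unfold uu; norm_num; ring
  have u00 : uu 0 0 = Real.pi := by simp [uu]
  have hU0 : (pi.mul (ofQ (4 * an) 0 ad).exp).mem (uu 0 a) := by
    have e : (((4 * an : ℤ) : ℂ) + ((0 : ℤ) : ℂ) * I) / ad = ((4 * a : ℝ) : ℂ) := by
      push_cast; rw [ac]; ring
    have h1 := mem_ofQ (4 * an) 0 had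
    rw [e] at h1
    have h2 := mem_pi.mul (h1.exp (by
      rw [norm_real, Real.norm_of_nonneg (by positivity)]; linarith))
    convert h2 using 1
    rw [uu0]; push_cast; rfl
  have hU1 := hU0.four
  have hu1 := mem_pi.four
  have c4 : ∀ t, (uu 0 t : ℂ) * 4 = uu 1 t := fun t => by rw [u4]; push_cast; rfl
  have hu0 : pi.mem (uu 0 0) := u00 ▸ mem_pi
  rw [← u00, c4] at hu1
  rw [c4] at hU1
  have p4 := Real.pi_lt_four
  have hf0 := hU0.neg.exp (nr _ (uu_pos _ _).le (by linarith))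
  have hf1 := hU1.neg.exp (nr _ (uu_pos _ _).le (by rw [u4]; linarith))
  have he0 := hu0.neg.exp (nr _ (uu_pos _ _).le (by linarith))
  have he1 := hu1.neg.exp (nr _ (uu_pos _ _).le (by rw [u4]; linarith))
  have hxr : ((x.natAbs : ℕ) : ℝ) ≤ 500 * d := by exact_mod_cast hx'
  have hyr : ((y.natAbs : ℕ) : ℝ) ≤ 100 * d := by exact_mod_cast hy
  have hE : ∀ p q : ℤ, p.natAbs + q.natAbs ≤ 601 * d →
      (ofQ (p * an) (q * an) (d * ad)).exp.mem (cexp (((p : ℂ) + q * I) / d * a)) := by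
    intro p q h
    have e : (((p * an : ℤ) : ℂ) + ((q * an : ℤ) : ℂ) * I) / ((d * ad : ℕ) : ℂ)
        = ((p : ℂ) + q * I) / d * a := by
      rw [ac]; push_cast; field_simp
    have h1 := mem_ofQ (p * an) (q * an) (Nat.mul_pos hd had)
    rw [e] at h1
    refine h1.exp ?_
    rw [norm_mul, norm_div, norm_real, Real.norm_of_nonneg a0, Complex.norm_natCast]
    have h2 : ‖(p : ℂ) + q * I‖ / d ≤ 601 := by
      rw [div_le_iff₀ hd']
      exact (norm_g p q).trans (by exact_mod_cast h)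
    nlinarith [div_nonneg (norm_nonneg ((p : ℂ) + q * I)) hd'.le]
  have hE1 := hE (d - y) x (by omega)
  have hE2 := hE (d + y) (-x) (by omega)
  have j0 : uu 0 a ≤ J0 + 3 := by
    have : (32 : ℝ) ≤ J0 := by exact_mod_cast hJ0
    linarith
  have j1 : uu 1 a ≤ J1 + 3 := by
    have : (137 : ℝ) ≤ J1 := by exact_mod_cast hJ1
    rw [u4]; linarith
  have a2 : a ≤ 1 := by linarith
  have g0 := mem_gn hx hd a0 a2 j0 hE1 hU0 hf0 hu0 he0
  have g1 := mem_gn hx hd a0 a2 j1 hE1 hU1 hf1 hu1 he1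
  have g2 := mem_gn (neg_ne_zero.2 hx) hd a0 a2 j0 hE2 hU0 hf0 hu0 he0
  have g3 := mem_gn (neg_ne_zero.2 hx) hd a0 a2 j1 hE2 hU1 hf1 hu1 he1
  have s1 : ((((d : ℤ) - y : ℤ) : ℂ) + x * I) / d = 1 + I * (((x : ℂ) + y * I) / d) := by
    push_cast; field_simp; linear_combination (-(y : ℂ)) * I_mul_I
  have s2 : ((((d : ℤ) + y : ℤ) : ℂ) + ((-x : ℤ) : ℂ) * I) / d = 1 - I * (((x : ℂ) + y * I) / d) := by
    push_cast; field_simp; linear_combination (y : ℂ) * I_mul_I
  rw [s1] at g0 g1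
  rw [s2] at g2 g3
  simp only [ev, force_eq]
  refine (((g0.add g1).add (g2.add g3)).divN (d := 2) (by norm_num)).widen
    ((tail_int a0 a1 ?_).trans ?_)
  · have : (d : ℂ) = ((d : ℝ) : ℂ) := by push_cast; rfl
    rw [this, div_ofReal_im, abs_div, abs_of_pos hd', div_le_iff₀ hd']
    rw [Nat.cast_natAbs, Int.cast_abs] at hyr
    simpa using hyr
  · have h := nat_div_ge (2 ^ 384) (d := 10 ^ 9) (by norm_num)
    rw [le_div_iff₀ (by positivity), Nat.cast_add, Nat.cast_one]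
    refine le_trans (le_of_eq ?_) h
    rw [Nat.cast_pow, Nat.cast_pow, Nat.cast_ofNat, Nat.cast_ofNat, one_div, inv_mul_eq_div]

end B

end Pool.Agent.Lib.XI
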