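import Pool.Agent.Lib.XI.Tail
import Pool.Agent.Lib.XI.Two

/-!
Reduction of the classification to finitely many real point values and to the range of large
truncation points.
-/

namespace Pool.Agent.Lib.XI

open Real Set Pool.Agent.Lib.MP_c54d0a_an

noncomputable section

/-- a pointwise inequality between cosines, integrated against the kernel -/
lemma comb {a b : ℝ} (hab : a ≤ b) {c1 c2 c3 c4 c5 x1 x2 x3 x4 x5 : ℝ}
    (h : ∀ t ∈ Icc a b, 0 ≤ c1 * cos (x1 * t) + c2 * cos (x2 * t) + c3 * cos (x3 * t)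
      + c4 * cos (x4 * t) + c5 * cos (x5 * t)) :
    0 ≤ c1 * (FR Phi b x1 - FR Phi a x1) + c2 * (FR Phi b x2 - FR Phi a x2)
      + c3 * (FR Phi b x3 - FR Phi a x3) + c4 * (FR Phi b x4 - FR Phi a x4)
      + c5 * (FR Phi b x5 - FR Phi a x5) := by
  have ii : ∀ c x : ℝ, IntervalIntegrable (fun t => c * (Phi t * cos (x * t)))
      MeasureTheory.volume a b := fun c x => Continuous.intervalIntegrable (by fun_prop) _ _
  simp only [FR_sub continuous_Phi, ← intervalIntegral.integral_const_mul]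
  rw [← intervalIntegral.integral_add (ii _ _) (ii _ _),
    ← intervalIntegral.integral_add ((ii _ _).add (ii _ _)) (ii _ _),
    ← intervalIntegral.integral_add (((ii _ _).add (ii _ _)).add (ii _ _)) (ii _ _),
    ← intervalIntegral.integral_add ((((ii _ _).add (ii _ _)).add (ii _ _)).add (ii _ _)) (ii _ _)]
  refine intervalIntegral.integral_nonneg hab fun t ht => ?_
  refine (mul_nonneg (Phi_pos t).le (h t ht)).trans_eq ?_
  ring

lemma FR_at_zero (x : ℝ) : FR Phi 0 x = 0 := by simp [FR]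

lemma concave_cos : ConcaveOn ℝ univ fun u : ℝ => cos u - u ^ 2 / 2 := by
  have hd : ∀ u : ℝ, HasDerivAt (fun u : ℝ => cos u - u ^ 2 / 2) (-sin u - u) u := fun u => by
    exact ((hasDerivAt_cos u).fun_sub ((hasDerivAt_pow 2 u).div_const 2)).congr_deriv (by simp)
  refine Antitone.concaveOn_univ_of_deriv (fun u => (hd u).differentiableAt) fun u v huv => ?_
  rw [(hd u).deriv, (hd v).deriv]
  have h1 := Real.abs_sin_sub_sin_le u v
  rw [abs_of_nonpos (sub_nonpos.2 huv)] at h1
  linarith [(abs_le.1 h1).2]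

lemma cos_two {t : ℝ} (h0 : 0 ≤ t) (h1 : t ≤ 0.2563) : 1.445 * t ^ 2 ≤ cos t - cos (2 * t) := by
  have h2 := Real.one_sub_sq_div_two_le_cos (x := t)
  have h3 := (abs_le.1 (Real.cos_bound (x := 2 * t) (by
    rw [abs_of_nonneg (by linarith)]; linarith))).2
  rw [abs_of_nonneg (by linarith : (0 : ℝ) ≤ 2 * t)] at h3
  have h4 : t ^ 2 ≤ 0.2563 ^ 2 := by gcongr
  nlinarith [mul_le_mul_of_nonneg_left h4 (sq_nonneg t)]

/-- positivity between two neighbouring points -/
lemma pos_step {b p q : ℝ} (hb0 : 0 ≤ b) (hb : b ≤ 0.2563)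
    (hM : FR Phi b 1 - FR Phi b 2 ≤ 0.00096) (hpq : p < q)
    (hp : 831 / 10 ^ 7 * (q - p) ^ 2 < FR Phi b p) (hq : 831 / 10 ^ 7 * (q - p) ^ 2 < FR Phi b q) :
    ∀ x ∈ Icc p q, 0 < FR Phi b x := by
  intro x hx
  have hd : 0 < q - p := by linarith
  obtain ⟨l, hl⟩ : ∃ l, l = (q - x) / (q - p) := ⟨_, rfl⟩
  have l0 : 0 ≤ l := hl ▸ div_nonneg (by linarith [hx.2]) hd.le
  have l1 : 0 ≤ 1 - l := by
    rw [hl, sub_nonneg, div_le_one hd]; linarith [hx.1]
  have ex : x = l * p + (1 - l) * q := by rw [hl]; field_simp; ring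
  have key := comb hb0 (c1 := 1) (c2 := -l) (c3 := -(1 - l)) (c4 := (q - p) ^ 2 / 11.56)
    (c5 := -((q - p) ^ 2 / 11.56)) (x1 := x) (x2 := p) (x3 := q) (x4 := 1) (x5 := 2) fun t ht => by
      have h1 := concave_cos.2 (mem_univ (p * t)) (mem_univ (q * t)) l0 l1 (by ring)
      simp only [smul_eq_mul] at h1
      have e : l * (p * t) + (1 - l) * (q * t) = x * t := by rw [ex]; ring
      rw [e] at h1
      have h2 := mul_le_mul_of_nonneg_left (cos_two ht.1 (ht.2.trans hb))
        (show 0 ≤ (q - p) ^ 2 / 11.56 by positivity)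
      have h3 : l * (p * t) ^ 2 + (1 - l) * (q * t) ^ 2 - (x * t) ^ 2
          = (l * (1 - l)) * ((q - p) ^ 2 * t ^ 2) := by rw [ex]; ring
      have h4 : l * (1 - l) * ((q - p) ^ 2 * t ^ 2) ≤ 1 / 4 * ((q - p) ^ 2 * t ^ 2) :=
        mul_le_mul_of_nonneg_right (by nlinarith [sq_nonneg (l - 1 / 2)]) (by positivity)
      rw [one_mul t]
      norm_num at h2 ⊢
      linarith
  simp only [FR_at_zero, sub_zero] at key
  have h5 := mul_le_mul_of_nonneg_left hM (show 0 ≤ (q - p) ^ 2 / 11.56 by positivity)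
  have h6 := mul_le_mul_of_nonneg_left hp.le l0
  have h7 := mul_le_mul_of_nonneg_left hq.le l1
  have h8 := pow_pos hd 2
  norm_num at key h5 h6 h7 ⊢
  nlinarith

/-- differences of two real values move slowly with the truncation point -/
lemma gap_drift {lo a c p x : ℝ} (h0 : 0 ≤ lo) (h1 : lo ≤ a) (h2 : a ≤ 0.2605)
    (hc : 0.27 * |p - x| ≤ c) :
    FR Phi lo p - FR Phi lo x - c * (FR Phi 0.2605 1 - FR Phi lo 1)
      ≤ FR Phi a p - FR Phi a x := by
  have c0 : 0 ≤ c := le_trans (by positivity) hc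
  have cs : ∀ t, 0 ≤ t → t ≤ 0.2605 → t ≤ 0.27 * cos t := fun t t0 t1 => by
    have := Real.one_sub_sq_div_two_le_cos (x := t)
    nlinarith
  have k1 := comb h1 (c1 := 1) (c2 := -1) (c3 := c) (c4 := 0) (c5 := 0) (x1 := p) (x2 := x)
    (x3 := 1) (x4 := 0) (x5 := 0) fun t ht => by
      have t0 := h0.trans ht.1
      have h3 := Real.abs_cos_sub_cos_le (p * t) (x * t)
      rw [← sub_mul, abs_mul, abs_of_nonneg t0] at h3
      have h4 := cs t t0 (ht.2.trans h2)
      have h5 := mul_le_mul_of_nonneg_left h4 (abs_nonneg (p - x))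
      have h6 := mul_le_mul_of_nonneg_right hc (show 0 ≤ cos t by linarith)
      rw [one_mul t]
      linarith [(abs_le.1 h3).1]
  have k2 := comb h2 (c1 := c) (c2 := 0) (c3 := 0) (c4 := 0) (c5 := 0) (x1 := 1) (x2 := 0)
    (x3 := 0) (x4 := 0) (x5 := 0) fun t ht => by
      have t0 := (h0.trans h1).trans ht.1
      have h4 := cs t t0 ht.2
      rw [one_mul t]
      linarith [mul_nonneg c0 (show 0 ≤ cos t by linarith)]
  linarith

lemma smPhi (a : ℝ) : Sm Phi Phi1 Phi2 a :=
  ⟨continuous_Phi, continuous_Phi2, fun t _ => hasDerivAt_Phi t, fun t _ => hasDerivAt_Phi1 t⟩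

lemma xk_le {a b x₀ : ℝ} (h0 : 0 < b) (hab : b ≤ a) {k : ℕ} (hx0 : 0 ≤ x₀)
    (h : ((k : ℝ) + 1 / 2) * 3.1416 ≤ x₀ * b) : xk a k ≤ x₀ := by
  unfold xk
  rw [div_le_iff₀ (h0.trans_le hab)]
  have h2 := mul_le_mul_of_nonneg_left hab hx0
  have h3 := mul_le_mul_of_nonneg_left Real.pi_lt_d4.le
    (show 0 ≤ (k : ℝ) + 1 / 2 by positivity)
  linarith

/-- the finitely many real values that are used -/
structure Pts : Prop where
  pos : ∀ x ∈ Icc (26 : ℝ) 34.2, 0 < FR Phi 0.256206 x
  h0 : FR Phi 0.2562052 26.725 ≤ 0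
  h1 : 0.000026 ≤ FR Phi 0.2562052 26
  h2 : 0.00006 ≤ FR Phi 0.2562052 28
  h3 : FR Phi 0.2605 1 - FR Phi 0.2562052 1 ≤ 0.000103

/-- real zeros only, as soon as a non-positive value is known in the window -/
lemma low (P : Pts) {a : ℝ} (h0 : 0 < a) (ha : a ≤ 0.256206)
    (hx : 0.185 ≤ a → ∃ x ∈ Icc (26 : ℝ) 28, FR Phi a x ≤ 0) {z : ℂ} (hz : F a z = 0) :
    z.im = 0 := by
  have p3 := Real.pi_gt_d4
  have p4 := Real.pi_lt_d4
  refine realroot continuous_Phi h0 (fun t _ => (Phi_pos t).le)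
    (bk_zero_pos continuous_Phi h0 fun t _ _ => Phi_pos t) (fun k hk => ?_) ?_ hz
  · rcases hk.eq_or_lt with rfl | hk
    · rcases le_total a 0.23 with h | h
      · exact (bk_pos_two h0 h).le
      have x1 : (26 : ℝ) ≤ xk a 2 := xk_ge h0 ha (j := 2) le_rfl (by norm_num) (by norm_num)
      have x2 : xk a 2 ≤ 34.2 := xk_le (by norm_num) h (by norm_num) (by norm_num)
      refine bk_nonneg continuous_Phi (fun t _ => (Phi_pos t).le) antitoneOn_Phi h0 2
        (b := 0.256206) (by norm_num) (by push_cast; linarith) ?_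
      have := P.pos _ ⟨x1, x2⟩
      positivity
    · exact (bk_pos_three h0 (by linarith) hk).le
  · rcases le_total a 0.185 with h | h
    · exact Or.inl (bk_pos_one h0 h).le
    obtain ⟨x, hx1, hx2⟩ := hx h
    have x1 : xk a 1 ≤ 25.5 := xk_le (by norm_num) h (by norm_num) (by norm_num)
    have x2 : (30 : ℝ) ≤ xk a 2 := xk_ge h0 ha (j := 2) le_rfl (by norm_num) (by norm_num)
    exact Or.inr ⟨x, by linarith [hx1.1], by linarith [hx1.2], hx2⟩

/-- the classification from the point values and the range of large truncation points -/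
theorem glue (P : Pts) (hup : ∀ a : ℝ, 0.2605 ≤ a → ∃ z : ℂ, z.im ≠ 0 ∧ F a z = 0) :
    ∃ s : ℝ, 0.256205 < s ∧ s < 0.256206 ∧
      ∀ a : ℝ, 0 < a → ((∀ z : ℂ, F a z = 0 → z.im = 0) ↔ a ≤ s) := by
  have p3 := Real.pi_gt_d4
  have p4 := Real.pi_lt_d4
  have hP : ∀ t, 0 ≤ t → 0 ≤ Phi t := fun t _ => (Phi_pos t).le
  have hJ : ∀ x ∈ Icc (26 : ℝ) 28, 0 < FR Phi 0.256206 x := fun x hx =>
    P.pos x ⟨hx.1, by linarith [hx.2]⟩
  obtain ⟨s, s1, s2, s3, s4⟩ := threshold continuous_Phi hP (lo := 0.2562052) (hi := 0.256206)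
    (p := 26) (q := 28) (by norm_num) (by norm_num) (by norm_num) (by linarith) (by linarith)
    ⟨26.725, ⟨by norm_num, by norm_num⟩, P.h0⟩ hJ
  refine ⟨s, by linarith, s2, fun a h0 => ⟨fun h => ?_, fun h z hz => ?_⟩⟩
  · by_contra hc
    have hs : s < a := not_le.1 hc
    obtain ⟨z, z1, z2⟩ : ∃ z : ℂ, z.im ≠ 0 ∧ F a z = 0 := by
      rcases le_total 0.2605 a with h1 | h1
      · exact hup a h1
      have g1 := gap_drift (lo := 0.2562052) (a := a) (p := 26) (x := 26.725) (c := 0.2)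
        (by norm_num) (by linarith) h1 (by norm_num [abs_of_nonneg])
      have g2 := gap_drift (lo := 0.2562052) (a := a) (p := 28) (x := 26.725) (c := 0.35)
        (by norm_num) (by linarith) h1 (by norm_num [abs_of_nonneg])
      refine three_point h0 (smPhi a) (Phi_pos a).ne' (p := 26) (q := 28) (x := 26.725)
        ⟨by norm_num, by norm_num⟩ (fun t ht => ?_) (by linarith [P.h0, P.h1, P.h3])
        (by linarith [P.h0, P.h2, P.h3])
      rcases le_total a 0.256206 with h2 | h2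
      · exact s4 a hs h2 t ht
      have := FR_mono continuous_Phi hP 2 (a := 0.256206) (b := a) (x := t) (by norm_num) h2
        (by linarith [ht.1]) (by push_cast; linarith [ht.1])
        (by push_cast; nlinarith [mul_le_mul h1 ht.2 (by linarith [ht.1]) (by norm_num)])
      norm_num at this
      have := hJ t ht
      norm_num at this
      linarith
    exact z1 (h z z2)
  · refine low P h0 (by linarith) (fun h1 => ?_) hz
    rcases le_total a 0.2562052 with h2 | h2
    · refine ⟨26.725, ⟨by norm_num, by norm_num⟩, ?_⟩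
      have := FR_mono continuous_Phi hP 2 (a := a) (b := 0.2562052) (x := 26.725) h0.le h2
        (by norm_num) (by push_cast; linarith) (by push_cast; linarith)
      simp only [even_two, Even.neg_pow, one_pow, one_mul] at this
      exact this.trans P.h0
    · exact s3 a h2 h

end

end Pool.Agent.Lib.XI
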