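import Pool.Agent.Lib.MP_c54d0a_an.Defs

/-!
The kernel of the Xi function: termwise derivatives, evenness, positivity, monotonicity, tails.
-/

namespace Pool.Agent.Lib.XI

open Real Polynomial Pool.Agent.Lib.MP_c54d0a_an

noncomputable section

/-- the argument of the n-th term -/
def uu (n : ℕ) (t : ℝ) : ℝ := ((n : ℝ) + 1) ^ 2 * π * exp (4 * t)

/-- a term of a series of the type of the kernel -/
def TT (P : ℝ[X]) (n : ℕ) (t : ℝ) : ℝ := exp t * P.eval (uu n t) * exp (-uu n t)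

/-- a series of the type of the kernel -/
def SS (P : ℝ[X]) (t : ℝ) : ℝ := ∑' n, TT P n t

/-- the action of the derivative on the polynomial -/
def DD (P : ℝ[X]) : ℝ[X] := P + C 4 * X * derivative P - C 4 * X * P

lemma eval_DD (P : ℝ[X]) (u : ℝ) :
    (DD P).eval u = P.eval u + 4 * u * (derivative P).eval u - 4 * u * P.eval u := by
  simp [DD]

lemma uu_pos (n : ℕ) (t : ℝ) : 0 < uu n t := by
  unfold uu
  have := pi_pos
  positivity

lemma hasDerivAt_uu (n : ℕ) (t : ℝ) : HasDerivAt (uu n) (4 * uu n t) t := by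
  have h := (((hasDerivAt_id t).const_mul 4).exp).const_mul (((n : ℝ) + 1) ^ 2 * π)
  refine HasDerivAt.congr_deriv (f := uu n) ?_ (f' := ((n : ℝ) + 1) ^ 2 * π * (exp (4 * t) * (4 * 1))) ?_
  · exact h
  · unfold uu; ring

lemma hasDerivAt_TT (P : ℝ[X]) (n : ℕ) (t : ℝ) : HasDerivAt (TT P n) (TT (DD P) n t) t := by
  have h1 := hasDerivAt_uu n t
  have h2 : HasDerivAt (fun s => P.eval (uu n s)) ((derivative P).eval (uu n t) * (4 * uu n t)) t :=
    (P.hasDerivAt (uu n t)).comp t h1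
  have h3 := ((Real.hasDerivAt_exp t).mul h2).mul h1.neg.exp
  refine HasDerivAt.congr_deriv (f := TT P n) h3 ?_
  unfold TT
  rw [eval_DD]
  simp only [Pi.mul_apply, Pi.neg_apply]
  ring

lemma poly_le_exp (P : ℝ[X]) : ∃ K, 0 ≤ K ∧ ∀ u, 0 ≤ u → |P.eval u| ≤ K * exp (u / 2) := by
  induction P using Polynomial.induction_on' with
  | add p q hp hq =>
    obtain ⟨K, hK, h1⟩ := hp
    obtain ⟨L, hL, h2⟩ := hq
    refine ⟨K + L, by positivity, fun u hu => ?_⟩
    rw [eval_add, add_mul]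
    exact (abs_add_le _ _).trans (add_le_add (h1 u hu) (h2 u hu))
  | monomial m a =>
    refine ⟨|a| * (2 ^ m * m.factorial), by positivity, fun u hu => ?_⟩
    rw [eval_monomial, abs_mul, mul_assoc]
    refine mul_le_mul_of_nonneg_left ?_ (abs_nonneg _)
    have h := Real.pow_div_factorial_le_exp (u / 2) (by positivity) m
    rw [div_le_iff₀ (by positivity), div_pow, div_le_iff₀ (by positivity)] at h
    rw [abs_of_nonneg (by positivity)]
    linarith

lemma TT_bound (P : ℝ[X]) (R : ℝ) : ∃ b : ℕ → ℝ, Summable b ∧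
    ∀ n t, |t| ≤ R → |TT P n t| ≤ b n := by
  obtain ⟨K, hK, h⟩ := poly_le_exp P
  set c : ℝ := π * exp (-(4 * R)) / 2 with hc
  have hc0 : 0 < c := by have := pi_pos; positivity
  refine ⟨fun n => exp R * K * exp (-c) ^ n, ?_, fun n t ht => ?_⟩
  · exact (summable_geometric_of_lt_one (exp_pos _).le (by
      rw [Real.exp_lt_one_iff]; linarith)).mul_left _
  · obtain ⟨h1, h2⟩ := abs_le.1 ht
    have hu := uu_pos n t
    have h3 : (n : ℝ) * c ≤ uu n t / 2 := by
      unfold uu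
      have e1 : exp (-(4 * R)) ≤ exp (4 * t) := exp_le_exp.2 (by linarith)
      have e2 : (n : ℝ) ≤ ((n : ℝ) + 1) ^ 2 := by nlinarith [Nat.cast_nonneg (α := ℝ) n]
      have e3 : π * exp (-(4 * R)) ≤ π * exp (4 * t) := mul_le_mul_of_nonneg_left e1 pi_pos.le
      have e4 := mul_le_mul e2 e3 (by have := pi_pos; positivity) (by positivity)
      rw [hc]
      nlinarith
    unfold TT
    rw [abs_mul, abs_mul, abs_of_pos (exp_pos _), abs_of_pos (exp_pos _)]
    calc exp t * |P.eval (uu n t)| * exp (-uu n t)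
        ≤ exp R * (K * exp (uu n t / 2)) * exp (-uu n t) := by
          gcongr
          exact h _ hu.le
      _ = exp R * K * exp (-(uu n t / 2)) := by
          rw [mul_assoc, mul_assoc, mul_assoc, ← exp_add]
          congr 3; ring
      _ ≤ exp R * K * exp (-c) ^ n := by
          rw [← Real.exp_nat_mul]
          gcongr
          linarith

lemma summable_TT (P : ℝ[X]) (t : ℝ) : Summable fun n => TT P n t := by
  obtain ⟨b, hb, h⟩ := TT_bound P |t|
  exact Summable.of_norm_bounded hb fun n => h n t le_rfl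

theorem hasDerivAt_SS (P : ℝ[X]) (t : ℝ) : HasDerivAt (SS P) (SS (DD P) t) t := by
  obtain ⟨b, hb, h⟩ := TT_bound (DD P) (|t| + 1)
  refine hasDerivAt_tsum_of_isPreconnected (t := Metric.ball t 1) (y₀ := t) hb Metric.isOpen_ball
    (convex_ball t 1).isPreconnected (fun n y _ => hasDerivAt_TT P n y) (fun n y hy => h n y ?_)
    (Metric.mem_ball_self one_pos) (summable_TT P t) (Metric.mem_ball_self one_pos)
  rw [Metric.mem_ball, Real.dist_eq] at hy
  have := abs_sub_abs_le_abs_sub y t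
  linarith

theorem continuous_SS (P : ℝ[X]) : Continuous (SS P) :=
  continuous_iff_continuousAt.2 fun t => (hasDerivAt_SS P t).continuousAt

lemma SS_congr {P Q : ℝ[X]} (h : ∀ u, P.eval u = Q.eval u) : SS P = SS Q := by
  funext t
  unfold SS TT
  simp_rw [h]

/-- polynomial of the kernel -/
def P0 : ℝ[X] := C 2 * X ^ 2 - C 3 * X
/-- polynomial of the first derivative -/
def P1 : ℝ[X] := C (-8) * X ^ 3 + C 30 * X ^ 2 - C 15 * X
/-- polynomial of the second derivative -/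
def P2 : ℝ[X] := C 32 * X ^ 4 - C 224 * X ^ 3 + C 330 * X ^ 2 - C 75 * X
/-- polynomial of the third derivative -/
def P3 : ℝ[X] := C (-128) * X ^ 5 + C 1440 * X ^ 4 - C 4232 * X ^ 3 + C 3270 * X ^ 2 - C 375 * X

lemma eval_P0 (u : ℝ) : P0.eval u = 2 * u ^ 2 - 3 * u := by simp [P0]
lemma eval_P1 (u : ℝ) : P1.eval u = -8 * u ^ 3 + 30 * u ^ 2 - 15 * u := by simp [P1]
lemma eval_P2 (u : ℝ) : P2.eval u = 32 * u ^ 4 - 224 * u ^ 3 + 330 * u ^ 2 - 75 * u := by simp [P2]
lemma eval_P3 (u : ℝ) :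
    P3.eval u = -128 * u ^ 5 + 1440 * u ^ 4 - 4232 * u ^ 3 + 3270 * u ^ 2 - 375 * u := by simp [P3]

lemma DD_P0 : SS (DD P0) = SS P1 := SS_congr fun u => by
  rw [eval_DD, eval_P1]; simp [P0]; ring
lemma DD_P1 : SS (DD P1) = SS P2 := SS_congr fun u => by
  rw [eval_DD, eval_P2]; simp [P1]; ring
lemma DD_P2 : SS (DD P2) = SS P3 := SS_congr fun u => by
  rw [eval_DD, eval_P3]; simp [P2]; ring

theorem Phi_eq_SS : Phi = SS P0 := by
  funext t
  unfold Phi SS TT uu
  refine tsum_congr fun n => ?_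
  have e9 : exp (9 * t) = exp t * exp (4 * t) ^ 2 := by
    rw [← Real.exp_nat_mul, ← Real.exp_add]; congr 1; push_cast; ring
  have e5 : exp (5 * t) = exp t * exp (4 * t) := by
    rw [← Real.exp_add]; congr 1; ring
  rw [e9, e5, eval_P0]; ring

/-- first derivative of the kernel -/
def Phi1 : ℝ → ℝ := SS P1
/-- second derivative of the kernel -/
def Phi2 : ℝ → ℝ := SS P2
/-- third derivative of the kernel -/
def Phi3 : ℝ → ℝ := SS P3

theorem hasDerivAt_Phi (t : ℝ) : HasDerivAt Phi (Phi1 t) t := by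
  have := hasDerivAt_SS P0 t
  rwa [DD_P0, ← Phi_eq_SS] at this
theorem hasDerivAt_Phi1 (t : ℝ) : HasDerivAt Phi1 (Phi2 t) t := by
  have := hasDerivAt_SS P1 t
  rwa [DD_P1] at this
theorem hasDerivAt_Phi2 (t : ℝ) : HasDerivAt Phi2 (Phi3 t) t := by
  have := hasDerivAt_SS P2 t
  rwa [DD_P2] at this

@[fun_prop] theorem continuous_Phi : Continuous Phi := Phi_eq_SS ▸ continuous_SS P0
@[fun_prop] theorem continuous_Phi1 : Continuous Phi1 := continuous_SS P1
@[fun_prop] theorem continuous_Phi2 : Continuous Phi2 := continuous_SS P2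
@[fun_prop] theorem continuous_Phi3 : Continuous Phi3 := continuous_SS P3

/-! ### evenness -/

lemma theta_split (x : ℝ) (hx : 0 < x) :
    ∑' n : ℤ, exp (-π * x * (n : ℝ) ^ 2) = 1 + 2 * ∑' n : ℕ, exp (-π * x * ((n : ℝ) + 1) ^ 2) := by
  have hs : Summable fun n : ℕ => exp (-π * x * (n : ℝ) ^ 2) := by
    refine Summable.of_nonneg_of_le (fun n => (exp_pos _).le) (fun n => ?_)
      (summable_geometric_of_lt_one (r := exp (-(π * x))) (exp_pos _).le (by
        rw [Real.exp_lt_one_iff]; have := mul_pos pi_pos hx; linarith))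
    rw [← Real.exp_nat_mul]
    apply exp_le_exp.2
    have h1 : (n : ℝ) ≤ (n : ℝ) ^ 2 := by exact_mod_cast Nat.le_self_pow two_ne_zero n
    have := mul_pos pi_pos hx
    nlinarith
  have hs1 : Summable fun n : ℕ => exp (-π * x * ((n : ℝ) + 1) ^ 2) := by
    have := (summable_nat_add_iff 1).2 hs
    simpa using this
  have e1 : ∀ n : ℕ, exp (-π * x * ((((n : ℤ) + 1 : ℤ)) : ℝ) ^ 2)
      = exp (-π * x * ((n : ℝ) + 1) ^ 2) := fun n => by push_cast; rfl
  have e2 : ∀ n : ℕ, exp (-π * x * (((-((n : ℤ) + 1) : ℤ)) : ℝ) ^ 2)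
      = exp (-π * x * ((n : ℝ) + 1) ^ 2) := fun n => by push_cast; rw [neg_sq]
  rw [tsum_of_add_one_of_neg_add_one (f := fun n : ℤ => exp (-π * x * (n : ℝ) ^ 2))
    (hs1.congr fun n => (e1 n).symm) (hs1.congr fun n => (e2 n).symm)]
  simp only [e1, e2]
  simp
  ring

lemma psi_eq (t : ℝ) :
    exp t + 2 * SS 1 t = exp t * ∑' n : ℤ, exp (-π * exp (4 * t) * (n : ℝ) ^ 2) := by
  rw [theta_split _ (exp_pos _)]
  unfold SS TT uu
  rw [mul_add, mul_one, mul_left_comm, ← tsum_mul_left (a := exp t)]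
  congr 2
  refine tsum_congr fun n => ?_
  rw [eval_one, mul_one]
  congr 2
  ring

lemma psi_even (t : ℝ) : exp (-t) + 2 * SS 1 (-t) = exp t + 2 * SS 1 t := by
  rw [psi_eq, psi_eq, Real.tsum_exp_neg_mul_int_sq (exp_pos (4 * -t))]
  have e1 : exp (4 * -t) ^ (1 / 2 : ℝ) = exp (-(2 * t)) := by
    rw [← Real.exp_mul]; congr 1; ring
  have e2 : ∀ n : ℤ, -π / exp (4 * -t) * (n : ℝ) ^ 2 = -π * exp (4 * t) * (n : ℝ) ^ 2 := fun n => by
    rw [mul_neg, Real.exp_neg, div_inv_eq_mul]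
  simp only [e1, e2]
  rw [← mul_assoc]
  congr 1
  rw [one_div, ← Real.exp_neg, ← Real.exp_add]
  congr 1; ring

lemma deriv_odd {f g : ℝ → ℝ} (h : ∀ t, HasDerivAt f (g t) t) (he : ∀ t, f (-t) = f t) (t : ℝ) :
    g (-t) = -g t := by
  have h1 : HasDerivAt (fun s => f (-s)) (g (-t) * -1) t := (h (-t)).comp t (hasDerivAt_neg t)
  simp only [he] at h1
  have := h1.unique (h t)
  linarith

lemma deriv_even {f g : ℝ → ℝ} (h : ∀ t, HasDerivAt f (g t) t) (he : ∀ t, f (-t) = -f t) (t : ℝ) :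
    g (-t) = g t := by
  have h1 : HasDerivAt (fun s => f (-s)) (g (-t) * -1) t := (h (-t)).comp t (hasDerivAt_neg t)
  simp only [he] at h1
  have := h1.unique (h t).neg
  linarith

theorem Phi_even (t : ℝ) : Phi (-t) = Phi t := by
  have d1 : ∀ s, HasDerivAt (fun s => exp s + 2 * SS 1 s) (exp s + 2 * SS (DD 1) s) s := fun s =>
    (Real.hasDerivAt_exp s).add ((hasDerivAt_SS 1 s).const_mul 2)
  have d2 : ∀ s, HasDerivAt (fun s => exp s + 2 * SS (DD 1) s) (exp s + 2 * SS (DD (DD 1)) s) s :=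
    fun s => (Real.hasDerivAt_exp s).add ((hasDerivAt_SS _ s).const_mul 2)
  have h2 := deriv_even d2 (deriv_odd d1 psi_even) t
  have h0 := psi_even t
  have key : ∀ s, SS (DD (DD 1)) s - SS 1 s = 8 * Phi s := fun s => by
    rw [Phi_eq_SS]
    unfold SS
    rw [← (summable_TT _ s).tsum_sub (summable_TT _ s), ← tsum_mul_left]
    refine tsum_congr fun n => ?_
    unfold TT
    rw [eval_DD, eval_P0]
    simp [DD]
    ring
  have k1 := key t
  have k2 := key (-t)
  linarith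

theorem Phi1_odd (t : ℝ) : Phi1 (-t) = -Phi1 t := deriv_odd hasDerivAt_Phi Phi_even t
theorem Phi2_even (t : ℝ) : Phi2 (-t) = Phi2 t := deriv_even hasDerivAt_Phi1 Phi1_odd t
theorem Phi3_odd (t : ℝ) : Phi3 (-t) = -Phi3 t := deriv_odd hasDerivAt_Phi2 Phi2_even t

theorem Phi1_zero : Phi1 0 = 0 := by
  have := Phi1_odd 0
  rw [neg_zero] at this
  linarith

theorem Phi3_zero : Phi3 0 = 0 := by
  have := Phi3_odd 0
  rw [neg_zero] at this
  linarith

/-! ### tails -/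

lemma uu_ge (n : ℕ) {t : ℝ} (ht : 0 ≤ t) : ((n : ℝ) + 1) ^ 2 * π ≤ uu n t := by
  unfold uu
  have h1 : 1 ≤ exp (4 * t) := Real.one_le_exp (by linarith)
  have h2 : 0 ≤ ((n : ℝ) + 1) ^ 2 * π := by have := pi_pos; positivity
  nlinarith

lemma uu_ge_pi (n : ℕ) {t : ℝ} (ht : 0 ≤ t) : π ≤ uu n t := by
  have h1 := uu_ge n ht
  have h2 : 1 ≤ ((n : ℝ) + 1) ^ 2 := one_le_pow₀ (by linarith [Nat.cast_nonneg (α := ℝ) n])
  nlinarith [pi_pos]

lemma uu_ge_twelve {n : ℕ} (hn : 1 ≤ n) {t : ℝ} (ht : 0 ≤ t) : 12 ≤ uu n t := by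
  have h1 := uu_ge n ht
  have h2 : (1 : ℝ) ≤ n := by exact_mod_cast hn
  have h3 : 4 ≤ ((n : ℝ) + 1) ^ 2 := by nlinarith
  nlinarith [pi_gt_three]

lemma exp_ge_pow (n : ℕ) : (2.718 : ℝ) ^ n ≤ exp n := by
  rw [← Real.exp_one_pow]
  exact pow_le_pow_left₀ (by norm_num) (le_of_lt (lt_trans (by norm_num) Real.exp_one_gt_d9)) n

lemma ratio_le {m n : ℕ} (hm : m ≤ 8) (hn : 1 ≤ n) {t : ℝ} (ht : 0 ≤ t) :
    uu (n + 1) t ^ m * exp (-uu (n + 1) t) ≤ 1 / 1000 * (uu n t ^ m * exp (-uu n t)) := by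
  have h2 : (1 : ℝ) ≤ n := by exact_mod_cast hn
  have hc : 3 ≤ π * exp (4 * t) := by
    have := uu_ge_pi 0 ht
    unfold uu at this
    simp at this
    linarith [pi_gt_three]
  have a1 : uu (n + 1) t ≤ 9 / 4 * uu n t := by
    unfold uu
    push_cast
    have : ((n : ℝ) + 1 + 1) ^ 2 ≤ 9 / 4 * ((n : ℝ) + 1) ^ 2 := by nlinarith
    nlinarith
  have a2 : uu n t + 15 ≤ uu (n + 1) t := by
    unfold uu
    push_cast
    nlinarith
  have a3 : exp (-uu (n + 1) t) ≤ exp (-uu n t) * exp (-15) := by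
    rw [← exp_add]; exact exp_le_exp.2 (by linarith)
  have a4 : exp (-15) ≤ 3.1e-7 := by
    rw [Real.exp_neg, inv_le_comm₀ (exp_pos _) (by norm_num)]
    have := exp_ge_pow 15
    norm_num at this ⊢
    linarith
  have a5 : uu (n + 1) t ^ m ≤ 657 * uu n t ^ m := by
    calc uu (n + 1) t ^ m ≤ (9 / 4 * uu n t) ^ m := pow_le_pow_left₀ (uu_pos _ _).le a1 m
      _ = (9 / 4) ^ m * uu n t ^ m := mul_pow _ _ _
      _ ≤ (9 / 4) ^ 8 * uu n t ^ m := by
          have := uu_pos n t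
          gcongr
          norm_num
      _ ≤ 657 * uu n t ^ m := by
          have := uu_pos n t
          gcongr
          norm_num
  have p1 : 0 ≤ uu n t ^ m := (pow_pos (uu_pos _ _) m).le
  have p2 := exp_pos (-uu n t)
  calc uu (n + 1) t ^ m * exp (-uu (n + 1) t)
      ≤ (657 * uu n t ^ m) * (exp (-uu n t) * 3.1e-7) :=
        mul_le_mul a5 (a3.trans (by gcongr)) (exp_pos _).le (by positivity)
    _ = 657 * 3.1e-7 * (uu n t ^ m * exp (-uu n t)) := by ring
    _ ≤ _ := by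
        have : 0 ≤ uu n t ^ m * exp (-uu n t) := by positivity
        nlinarith

/-- The tail of a series after `N ≥ 1` terms is at most 1.002 times a bound of its first term. -/
theorem SS_tail {P : ℝ[X]} {A : ℝ} {m : ℕ} (hm : m ≤ 8)
    (hP : ∀ u, 12 ≤ u → |P.eval u| ≤ A * u ^ m) {N : ℕ} (hN : 1 ≤ N) {t : ℝ} (ht : 0 ≤ t) :
    |SS P t - ∑ n ∈ Finset.range N, TT P n t|
      ≤ 1.002 * (exp t * A * uu N t ^ m * exp (-uu N t)) := by
  have hA : 0 ≤ A := by
    have := (abs_nonneg _).trans (hP 12 le_rfl)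
    exact nonneg_of_mul_nonneg_left this (by positivity)
  have h1 : ∀ j, uu (j + N) t ^ m * exp (-uu (j + N) t)
      ≤ (uu N t ^ m * exp (-uu N t)) * (1 / 1000) ^ j := by
    intro j
    induction j with
    | zero => simp
    | succ j ih =>
      rw [show j + 1 + N = (j + N) + 1 by ring]
      refine (ratio_le hm (by omega) ht).trans ?_
      rw [pow_succ]
      nlinarith
  have h2 : ∀ j, ‖TT P (j + N) t‖ ≤ exp t * A * (uu N t ^ m * exp (-uu N t)) * (1 / 1000) ^ j := by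
    intro j
    unfold TT
    rw [Real.norm_eq_abs, abs_mul, abs_mul, abs_of_pos (exp_pos _), abs_of_pos (exp_pos _)]
    calc exp t * |P.eval (uu (j + N) t)| * exp (-uu (j + N) t)
        ≤ exp t * (A * uu (j + N) t ^ m) * exp (-uu (j + N) t) := by
          gcongr
          exact hP _ (uu_ge_twelve (by omega) ht)
      _ = exp t * A * (uu (j + N) t ^ m * exp (-uu (j + N) t)) := by ring
      _ ≤ exp t * A * ((uu N t ^ m * exp (-uu N t)) * (1 / 1000) ^ j) :=
          mul_le_mul_of_nonneg_left (h1 j) (by positivity)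
      _ = _ := by ring
  have h3 := tsum_of_norm_bounded
    ((hasSum_geometric_of_lt_one (r := (1 / 1000 : ℝ)) (by norm_num) (by norm_num)).mul_left
      (exp t * A * (uu N t ^ m * exp (-uu N t)))) h2
  unfold SS
  rw [← (summable_TT P t).sum_add_tsum_nat_add N, add_sub_cancel_left, ← Real.norm_eq_abs]
  refine h3.trans ?_
  have p : 0 ≤ exp t * A * (uu N t ^ m * exp (-uu N t)) := by
    have := uu_pos N t
    positivity
  have e : exp t * A * uu N t ^ m * exp (-uu N t) = exp t * A * (uu N t ^ m * exp (-uu N t)) := by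
    ring
  rw [e]
  norm_num
  linarith

lemma abs_P0 (u : ℝ) (hu : 12 ≤ u) : |P0.eval u| ≤ 2 * u ^ 2 := by
  rw [eval_P0, abs_le]; constructor <;> nlinarith

lemma abs_P1 (u : ℝ) (hu : 12 ≤ u) : |P1.eval u| ≤ 8 * u ^ 3 := by
  rw [eval_P1, abs_le]
  have h2 : 0 ≤ u ^ 2 := by positivity
  constructor <;> nlinarith

lemma abs_P2 (u : ℝ) (hu : 12 ≤ u) : |P2.eval u| ≤ 32 * u ^ 4 := by
  rw [eval_P2, abs_le]
  have h2 : 0 ≤ u ^ 2 := by positivity
  have h3 : 0 ≤ u ^ 3 := by positivity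
  have h4 : 12 * u ^ 3 ≤ u ^ 4 := by nlinarith
  have h5 : 12 * u ^ 2 ≤ u ^ 3 := by nlinarith
  constructor <;> nlinarith

lemma abs_P3 (u : ℝ) (hu : 12 ≤ u) : |P3.eval u| ≤ 128 * u ^ 5 := by
  rw [eval_P3, abs_le]
  have h2 : 0 ≤ u ^ 2 := by positivity
  have h3 : 0 ≤ u ^ 3 := by positivity
  have h4 : 12 * u ^ 3 ≤ u ^ 4 := by nlinarith
  have h5 : 12 * u ^ 2 ≤ u ^ 3 := by nlinarith
  have h6 : 12 * u ^ 4 ≤ u ^ 5 := by nlinarith
  constructor <;> nlinarith

theorem Phi_tail {N : ℕ} (hN : 1 ≤ N) {t : ℝ} (ht : 0 ≤ t) :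
    |Phi t - ∑ n ∈ Finset.range N, TT P0 n t|
      ≤ 1.002 * (exp t * 2 * uu N t ^ 2 * exp (-uu N t)) := by
  rw [Phi_eq_SS]; exact SS_tail (by norm_num) abs_P0 hN ht

theorem Phi1_tail {N : ℕ} (hN : 1 ≤ N) {t : ℝ} (ht : 0 ≤ t) :
    |Phi1 t - ∑ n ∈ Finset.range N, TT P1 n t|
      ≤ 1.002 * (exp t * 8 * uu N t ^ 3 * exp (-uu N t)) := SS_tail (by norm_num) abs_P1 hN ht

theorem Phi2_tail {N : ℕ} (hN : 1 ≤ N) {t : ℝ} (ht : 0 ≤ t) :
    |Phi2 t - ∑ n ∈ Finset.range N, TT P2 n t|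
      ≤ 1.002 * (exp t * 32 * uu N t ^ 4 * exp (-uu N t)) := SS_tail (by norm_num) abs_P2 hN ht

theorem Phi3_tail {N : ℕ} (hN : 1 ≤ N) {t : ℝ} (ht : 0 ≤ t) :
    |Phi3 t - ∑ n ∈ Finset.range N, TT P3 n t|
      ≤ 1.002 * (exp t * 128 * uu N t ^ 5 * exp (-uu N t)) := SS_tail (by norm_num) abs_P3 hN ht

/-! ### positivity and monotonicity -/

lemma TT_P0_pos (n : ℕ) {t : ℝ} (ht : 0 ≤ t) : 0 < TT P0 n t := by
  unfold TT
  have h1 := uu_ge_pi n ht
  have h2 : 0 < P0.eval (uu n t) := by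
    rw [eval_P0]; nlinarith [pi_gt_three]
  positivity

theorem Phi_pos_of_nonneg {t : ℝ} (ht : 0 ≤ t) : 0 < Phi t := by
  rw [Phi_eq_SS]
  exact (summable_TT P0 t).tsum_pos (fun n => (TT_P0_pos n ht).le) 0 (TT_P0_pos 0 ht)

theorem Phi_pos (t : ℝ) : 0 < Phi t := by
  rcases le_total 0 t with h | h
  · exact Phi_pos_of_nonneg h
  · rw [← Phi_even]; exact Phi_pos_of_nonneg (by linarith)

/-- partial sums are lower bounds -/
theorem sum_le_Phi (N : ℕ) {t : ℝ} (ht : 0 ≤ t) : ∑ n ∈ Finset.range N, TT P0 n t ≤ Phi t := by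
  rw [Phi_eq_SS]
  exact (summable_TT P0 t).sum_le_tsum _ fun n _ => (TT_P0_pos n ht).le

lemma Phi2_neg_small {t : ℝ} (h0 : 0 ≤ t) (h1 : t ≤ 0.002) : Phi2 t < 0 := by
  have h := (abs_le.1 (Phi2_tail (N := 1) le_rfl h0)).2
  rw [Finset.sum_range_one] at h
  have e1 : exp (4 * t) ≤ 1.0081 := by
    have := Real.exp_bound' (x := 0.008) (by norm_num) (by norm_num) (n := 2) (by norm_num)
    refine (exp_le_exp.2 (by linarith : 4 * t ≤ 0.008)).trans (this.trans ?_)
    norm_num [Finset.sum_range_succ, Nat.factorial]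
  have p1 := Real.pi_gt_d4
  have p2 := Real.pi_lt_d4
  have e0 : 1 ≤ exp (4 * t) := Real.one_le_exp (by linarith)
  have u0 : uu 0 t = π * exp (4 * t) := by simp [uu]
  have u1 : uu 1 t = 4 * (π * exp (4 * t)) := by simp [uu]; ring
  set c := π * exp (4 * t) with hc
  have c1 : 3.14 ≤ c := by nlinarith
  have c2 : c ≤ 3.17 := by nlinarith
  have b1 : P2.eval c ≤ -740 := by
    rw [eval_P2]
    have a1 : c ^ 3 ≤ 3.17 * c ^ 2 := by nlinarith
    have a2 : 9.85 ≤ c ^ 2 := by nlinarith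
    have : 32 * c ^ 3 - 224 * c ^ 2 + 330 * c - 75 ≤ -236 := by linarith
    nlinarith
  have b2 : 1 / 55 ≤ exp (-c) := by
    have : exp 4 ≤ 55 := by
      have h4 := Real.exp_one_lt_d9
      have : exp 4 = exp 1 ^ 4 := by rw [← Real.exp_nat_mul]; norm_num
      rw [this]
      calc exp 1 ^ 4 ≤ 2.7182818286 ^ 4 := by gcongr
        _ ≤ 55 := by norm_num
    rw [Real.exp_neg, one_div]
    exact inv_anti₀ (exp_pos _) ((exp_le_exp.2 (by linarith)).trans this)
  have b3 : exp (-(4 * c)) ≤ 6.2e-6 := by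
    refine (exp_le_exp.2 (by linarith : -(4 * c) ≤ -12)).trans ?_
    rw [Real.exp_neg, inv_le_comm₀ (exp_pos _) (by norm_num)]
    have := exp_ge_pow 12
    norm_num at this ⊢
    linarith
  have b4 : (4 * c) ^ 4 ≤ 12.68 ^ 4 := pow_le_pow_left₀ (by linarith) (by linarith) 4
  have b5 : (4 * c) ^ 4 * exp (-(4 * c)) ≤ 12.68 ^ 4 * 6.2e-6 :=
    mul_le_mul b4 b3 (exp_pos _).le (by norm_num)
  have b6 : P2.eval c * exp (-c) ≤ -740 * (1 / 55) := by nlinarith [exp_pos (-c)]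
  unfold TT at h
  rw [u0, u1] at h
  have et := exp_pos t
  have : Phi2 t ≤ exp t * (P2.eval c * exp (-c) + 1.002 * 32 * ((4 * c) ^ 4 * exp (-(4 * c)))) := by
    linarith
  refine this.trans_lt (mul_neg_of_pos_of_neg et ?_)
  norm_num at b5 b6 ⊢
  linarith

theorem Phi1_neg {t : ℝ} (ht : 0 < t) : Phi1 t < 0 := by
  rcases le_or_gt t 0.002 with h | h
  · have := strictAntiOn_of_deriv_neg (convex_Icc (0 : ℝ) 0.002) continuous_Phi1.continuousOn
      (fun x hx => by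
        rw [interior_Icc] at hx
        rw [(hasDerivAt_Phi1 x).deriv]
        exact Phi2_neg_small hx.1.le hx.2.le) ⟨le_rfl, by norm_num⟩ ⟨ht.le, h⟩ ht
    rwa [Phi1_zero] at this
  · have hneg : ∀ n, TT P1 n t < 0 := fun n => by
      unfold TT
      have h1 : 3.16 ≤ uu n t := by
        unfold uu
        have a1 : 1.008 ≤ exp (4 * t) := by linarith [Real.add_one_le_exp (4 * t)]
        have a2 : 1 ≤ ((n : ℝ) + 1) ^ 2 := one_le_pow₀ (by linarith [Nat.cast_nonneg (α := ℝ) n])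
        have a3 : 3.16 ≤ π * exp (4 * t) := by nlinarith [Real.pi_gt_d4]
        nlinarith
      have h2 : P1.eval (uu n t) < 0 := by
        rw [eval_P1]
        have : 0 < 8 * uu n t ^ 2 - 30 * uu n t + 15 := by nlinarith
        nlinarith
      exact mul_neg_of_neg_of_pos (mul_neg_of_pos_of_neg (exp_pos _) h2) (exp_pos _)
    have := (summable_TT P1 t).neg.tsum_pos (fun n => (neg_pos.2 (hneg n)).le) 0
      (neg_pos.2 (hneg 0))
    rw [tsum_neg] at this
    unfold Phi1 SS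
    linarith

theorem Phi1_nonpos {t : ℝ} (ht : 0 ≤ t) : Phi1 t ≤ 0 := by
  rcases ht.eq_or_lt with h | h
  · rw [← h, Phi1_zero]
  · exact (Phi1_neg h).le

theorem strictAntiOn_Phi : StrictAntiOn Phi (Set.Ici 0) :=
  strictAntiOn_of_deriv_neg (convex_Ici 0) continuous_Phi.continuousOn fun x hx => by
    rw [interior_Ici] at hx
    rw [(hasDerivAt_Phi x).deriv]
    exact Phi1_neg hx

theorem antitoneOn_Phi : AntitoneOn Phi (Set.Ici 0) := strictAntiOn_Phi.antitoneOn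

theorem Phi_le_Phi {s t : ℝ} (hs : 0 ≤ s) (hst : s ≤ t) : Phi t ≤ Phi s :=
  antitoneOn_Phi hs (hs.trans hst) hst

end

end Pool.Agent.Lib.XI
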