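import Pool.Agent.Lib.XI.Chk

/-!
Tables of intervals of truncation points.
-/

namespace Pool.Agent.Lib.XI

theorem tab7 : chkL 43364
    [(43831, 4068, 2470, 2798, 36, 137),
    (44283, 4111, 2560, 2902, 37, 137),
    (44720, 4154, 2720, 3005, 37, 137),
    (45146, 4195, 2810, 3107, 37, 137)] 45146 = true := by decide +kernel

theorem tab8 : chkL 45146
    [(45563, 4236, 2910, 3209, 37, 137),
    (45968, 4276, 3000, 3310, 37, 137),
    (46363, 4316, 3090, 3410, 39, 137),
    (46745, 4355, 3180, 3509, 39, 139)] 46745 = true := by decide +kernel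

theorem tab9 : chkL 46745
    [(47117, 4392, 3350, 3607, 44, 140),
    (47482, 4430, 3440, 3704, 43, 142),
    (47840, 4467, 3530, 3801, 41, 145),
    (48191, 4503, 3620, 3897, 42, 146)] 48191 = true := by decide +kernel

theorem tab10 : chkL 48191
    [(48535, 4539, 3710, 3993, 40, 149),
    (48870, 4574, 3800, 4088, 44, 150),
    (49197, 4609, 3880, 4183, 42, 152),
    (49517, 4644, 3970, 4276, 41, 154)] 49517 = true := by decide +kernel

theorem tab11 : chkL 49517
    [(49831, 4677, 4060, 4369, 42, 156),
    (50136, 4710, 4140, 4461, 41, 158),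
    (50435, 4743, 4320, 4552, 43, 159),
    (50730, 4775, 4410, 4643, 43, 161)] 50730 = true := by decide +kernel

end Pool.Agent.Lib.XI
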