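import Pool.Agent.Lib.XI.Chk

/-!
Tables of intervals of truncation points.
-/

namespace Pool.Agent.Lib.XI

theorem tab12 : chkL 50730
    [(51021, 4807, 4490, 4734, 42, 163),
    (51308, 4839, 4580, 4824, 44, 165),
    (51589, 4870, 4660, 4915, 43, 166),
    (51866, 4902, 4750, 5004, 47, 168)] 51866 = true := by decide +kernel

theorem tab13 : chkL 51866
    [(52139, 4932, 4830, 5094, 40, 170),
    (52408, 4963, 4920, 5183, 39, 172),
    (52672, 4993, 5000, 5272, 39, 173),
    (52931, 5023, 5090, 5360, 39, 175)] 52931 = true := by decide +kernel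

theorem tab14 : chkL 52931
    [(53187, 5052, 5170, 5448, 39, 177),
    (53437, 5081, 5250, 5535, 42, 178),
    (53683, 5110, 5330, 5622, 39, 180),
    (53925, 5138, 5420, 5708, 39, 181)] 53925 = true := by decide +kernel

theorem tab15 : chkL 53925
    [(54163, 5166, 5500, 5794, 41, 183),
    (54397, 5194, 5580, 5879, 40, 185),
    (54626, 5221, 5760, 5963, 40, 186),
    (54851, 5248, 5740, 6047, 40, 188)] 54851 = true := by decide +kernel

theorem tab16 : chkL 54851
    [(55001, 5275, 5930, 6129, 40, 187)] 55001 = true := by decide +kernel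

end Pool.Agent.Lib.XI
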