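import Pool.Agent.Lib.XI.MidA
import Pool.Agent.Lib.XI.MidB
import Pool.Agent.Lib.XI.MidC

/-!
A zero off the real axis for truncation points in the middle range.
-/

namespace Pool.Agent.Lib.XI

open Pool.Agent.Lib.MP_c54d0a_an

theorem mid {a : ℝ} (ha : 0.2605 ≤ a) (hb : a ≤ 11 / 20) : ∃ z : ℂ, z.im ≠ 0 ∧ F a z = 0 := by
  have h0 : ((26049 : ℕ) : ℝ) / 100000 < a := by norm_num at ha ⊢; linarith
  rcases le_or_gt a (((29870 : ℕ) : ℝ) / 100000) with h | h1
  · exact chkL_sound h _ _ tab1 h0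
  rcases le_or_gt a (((32781 : ℕ) : ℝ) / 100000) with h | h2
  · exact chkL_sound h _ _ tab2 h1
  rcases le_or_gt a (((36189 : ℕ) : ℝ) / 100000) with h | h3
  · exact chkL_sound h _ _ tab3 h2
  rcases le_or_gt a (((38995 : ℕ) : ℝ) / 100000) with h | h4
  · exact chkL_sound h _ _ tab4 h3
  rcases le_or_gt a (((41341 : ℕ) : ℝ) / 100000) with h | h5
  · exact chkL_sound h _ _ tab5 h4
  rcases le_or_gt a (((43364 : ℕ) : ℝ) / 100000) with h | h6
  · exact chkL_sound h _ _ tab6 h5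
  rcases le_or_gt a (((45146 : ℕ) : ℝ) / 100000) with h | h7
  · exact chkL_sound h _ _ tab7 h6
  rcases le_or_gt a (((46745 : ℕ) : ℝ) / 100000) with h | h8
  · exact chkL_sound h _ _ tab8 h7
  rcases le_or_gt a (((48191 : ℕ) : ℝ) / 100000) with h | h9
  · exact chkL_sound h _ _ tab9 h8
  rcases le_or_gt a (((49517 : ℕ) : ℝ) / 100000) with h | h10
  · exact chkL_sound h _ _ tab10 h9
  rcases le_or_gt a (((50730 : ℕ) : ℝ) / 100000) with h | h11
  · exact chkL_sound h _ _ tab11 h10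
  rcases le_or_gt a (((51866 : ℕ) : ℝ) / 100000) with h | h12
  · exact chkL_sound h _ _ tab12 h11
  rcases le_or_gt a (((52931 : ℕ) : ℝ) / 100000) with h | h13
  · exact chkL_sound h _ _ tab13 h12
  rcases le_or_gt a (((53925 : ℕ) : ℝ) / 100000) with h | h14
  · exact chkL_sound h _ _ tab14 h13
  rcases le_or_gt a (((54851 : ℕ) : ℝ) / 100000) with h | h15
  · exact chkL_sound h _ _ tab15 h14
  exact chkL_sound (hb.trans (by norm_num)) _ _ tab16 h15

end Pool.Agent.Lib.XI
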