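import Pool.Agent.Lib.XI.Chk

/-!
Tables of intervals of truncation points.
-/

namespace Pool.Agent.Lib.XI

theorem tab1 : chkL 26049
    [(26555, 2680, 0, 179, 32, 137),
    (27457, 2696, 0, 254, 32, 137),
    (28703, 2739, 0, 336, 32, 137),
    (29870, 2827, 0, 415, 32, 137)] 29870 = true := by decide +kernel

theorem tab2 : chkL 29870
    [(30556, 2934, 190, 495, 32, 137),
    (31178, 3011, 320, 583, 32, 137),
    (31922, 3074, 380, 685, 32, 137),
    (32781, 3136, 440, 803, 32, 137)] 32781 = true := by decide +kernel

theorem tab3 : chkL 32781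
    [(33679, 3201, 550, 931, 32, 137),
    (34557, 3267, 670, 1062, 32, 137),
    (35395, 3332, 790, 1192, 32, 137),
    (36189, 3396, 920, 1320, 32, 137)] 36189 = true := by decide +kernel

theorem tab4 : chkL 36189
    [(36942, 3457, 1060, 1444, 32, 137),
    (37660, 3516, 1200, 1567, 32, 137),
    (38342, 3573, 1290, 1687, 32, 137),
    (38995, 3629, 1440, 1805, 32, 137)] 38995 = true := by decide +kernel

theorem tab5 : chkL 38995
    [(39618, 3683, 1590, 1921, 32, 137),
    (40215, 3735, 1680, 2036, 33, 137),
    (40788, 3786, 1780, 2148, 33, 137),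
    (41341, 3836, 1930, 2260, 34, 137)] 41341 = true := by decide +kernel

theorem tab6 : chkL 41341
    [(41874, 3885, 2030, 2370, 34, 137),
    (42387, 3932, 2120, 2479, 35, 137),
    (42884, 3978, 2280, 2586, 35, 137),
    (43364, 4023, 2370, 2693, 36, 137)] 43364 = true := by decide +kernel

end Pool.Agent.Lib.XI
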