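import Mathlib

/-!
Expansion of a truncated cosine transform over the zeros of the cosine, and a criterion for
real zeros.
-/

namespace Pool.Agent.Lib.XI

open Real Filter

noncomputable section

/-- truncated cosine transform of an arbitrary kernel -/
def FC (f : ℝ → ℝ) (a : ℝ) (z : ℂ) : ℂ := ∫ t in (0 : ℝ)..a, (f t : ℂ) * Complex.cos (z * t)

/-- the same at a real point -/
def FR (f : ℝ → ℝ) (a x : ℝ) : ℝ := ∫ t in (0 : ℝ)..a, f t * cos (x * t)

/-- the positive zeros of the cosine at scale `a` -/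
def xk (a : ℝ) (k : ℕ) : ℝ := ((k : ℝ) + 1 / 2) * π / a

/-- the residues -/
def bk (f : ℝ → ℝ) (a : ℝ) (k : ℕ) : ℝ := (-1) ^ k * xk a k * FR f a (xk a k)

lemma hs_congr {E : Type*} [AddCommMonoid E] [TopologicalSpace E] {f g : ℕ → E} {a b : E}
    (h : HasSum f a) (h1 : ∀ k, g k = f k) (h2 : b = a) : HasSum g b := by
  rw [funext h1, h2]; exact h

lemma FC_real (f : ℝ → ℝ) (a x : ℝ) : FC f a x = FR f a x := by
  unfold FC FR
  rw [← intervalIntegral.integral_ofReal]
  refine intervalIntegral.integral_congr fun t _ => ?_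
  push_cast; ring

lemma xk_pos {a : ℝ} (ha : 0 < a) (k : ℕ) : 0 < xk a k := by
  unfold xk; have := pi_pos; positivity

lemma xk_lt {a : ℝ} (ha : 0 < a) {j k : ℕ} (h : j < k) : xk a j < xk a k := by
  unfold xk
  have : (j : ℝ) < k := by exact_mod_cast h
  have := pi_pos
  gcongr

lemma a_xk {a : ℝ} (ha : 0 < a) (k : ℕ) : a * xk a k = k * π + π / 2 := by
  unfold xk; field_simp

lemma sum_inv {a : ℝ} (ha : 0 < a) (w : ℂ) :
    Summable fun k : ℕ => ‖1 / (((xk a k : ℝ) : ℂ) ^ 2 - w)‖ := by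
  have hs : Summable fun k : ℕ => (2 * a ^ 2) * (1 / (k : ℝ) ^ 2) :=
    (summable_one_div_nat_pow.2 (by norm_num)).mul_left _
  refine Summable.of_norm_bounded_eventually_nat hs ?_
  have ht : Tendsto (fun k : ℕ => (k : ℝ)) atTop atTop := tendsto_natCast_atTop_atTop
  filter_upwards [ht.eventually_ge_atTop (2 * a ^ 2 * ‖w‖ + 1)] with k hk
  have hw := norm_nonneg w
  have hk1 : (1 : ℝ) ≤ k := by nlinarith [sq_nonneg a, mul_nonneg (sq_nonneg a) hw]
  have h1 : (k : ℝ) / a ≤ xk a k := by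
    unfold xk
    have := pi_gt_three
    gcongr
    nlinarith
  have h0 : 0 < (k : ℝ) / a := by positivity
  have h2 : (k : ℝ) ^ 2 / a ^ 2 ≤ xk a k ^ 2 := by
    rw [← div_pow]; gcongr
  have h3 : ‖w‖ ≤ (k : ℝ) ^ 2 / a ^ 2 / 2 := by
    rw [div_div, le_div_iff₀ (by positivity)]; nlinarith
  have h4 : (k : ℝ) ^ 2 / a ^ 2 / 2 ≤ ‖((xk a k : ℝ) : ℂ) ^ 2 - w‖ := by
    have := norm_sub_norm_le (((xk a k : ℝ) : ℂ) ^ 2) w
    rw [norm_pow, Complex.norm_real, Real.norm_eq_abs, sq_abs] at this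
    linarith
  rw [norm_norm, norm_div, norm_one]
  calc 1 / ‖((xk a k : ℝ) : ℂ) ^ 2 - w‖ ≤ 1 / ((k : ℝ) ^ 2 / a ^ 2 / 2) :=
        one_div_le_one_div_of_le (by positivity) h4
    _ = _ := by field_simp

lemma sq_ne {a : ℝ} (ha : 0 < a) {z : ℂ} (hz : Complex.cos (a * z) ≠ 0) (k : ℕ) :
    ((xk a k : ℝ) : ℂ) ^ 2 - z ^ 2 ≠ 0 := by
  have h0 : Complex.cos (a * (xk a k : ℝ)) = 0 := by
    rw [← Complex.ofReal_mul, ← Complex.ofReal_cos, a_xk ha, cos_add_pi_div_two, sin_nat_mul_pi]
    simp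
  intro h
  rcases sq_eq_sq_iff_eq_or_eq_neg.1 (sub_eq_zero.1 h) with h | h
  · exact hz (h ▸ h0)
  · apply hz
    have : z = -((xk a k : ℝ) : ℂ) := by rw [h]; ring
    rw [this, mul_neg, Complex.cos_neg, h0]

/-- the basic integral -/
lemma int_exp {a : ℝ} {z y E : ℂ} (hy : y ≠ 0) (hyz : y ^ 2 - z ^ 2 ≠ 0)
    (h1 : Complex.exp (-(Complex.I * y * a)) = -Complex.I * E)
    (h2 : Complex.exp (Complex.I * y * a) = Complex.I * E) :
    ∫ t in (-a)..a, Complex.exp (-(Complex.I * y * t)) * (Complex.cos (z * t) - Complex.cos (a * z))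
      = 2 * E * Complex.cos (a * z) * y * (1 / (y ^ 2 - z ^ 2) - 1 / y ^ 2) := by
  set G : ℂ → ℂ := fun t => Complex.exp (-(Complex.I * y * t)) *
    (Complex.I * y / (y ^ 2 - z ^ 2) * Complex.cos (z * t) - z / (y ^ 2 - z ^ 2) *
      Complex.sin (z * t) - Complex.I * Complex.cos (a * z) / y) with hG
  have hd : ∀ t : ℂ, HasDerivAt G
      (Complex.exp (-(Complex.I * y * t)) * (Complex.cos (z * t) - Complex.cos (a * z))) t := by
    intro t
    have e1 : HasDerivAt (fun t : ℂ => -(Complex.I * y * t)) (-(Complex.I * y)) t := by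
      simpa using ((hasDerivAt_id t).const_mul (Complex.I * y)).fun_neg
    have e2 : HasDerivAt (fun t : ℂ => z * t) z t := by
      simpa using (hasDerivAt_id t).const_mul z
    have e3 := e1.cexp.mul (((e2.ccos.const_mul (Complex.I * y / (y ^ 2 - z ^ 2))).sub
      (e2.csin.const_mul (z / (y ^ 2 - z ^ 2)))).sub_const (Complex.I * Complex.cos (a * z) / y))
    refine HasDerivAt.congr_deriv e3 ?_
    simp only [Pi.sub_apply]
    field_simp
    ring_nf
    simp only [Complex.I_sq]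
    ring
  rw [intervalIntegral.integral_eq_sub_of_hasDerivAt (f := fun t : ℝ => G t)
    (fun t _ => (hd t).comp_ofReal) (Continuous.intervalIntegrable (by fun_prop) _ _)]
  simp only [hG, Complex.ofReal_neg, mul_neg, neg_neg, Complex.cos_neg, Complex.sin_neg, h1, h2,
    mul_comm z (a : ℂ)]
  field_simp
  ring_nf
  simp only [Complex.I_sq]
  ring

/-- the coefficients -/
def ck (a : ℝ) (z : ℂ) (k : ℕ) : ℂ :=
  1 / a * (-1) ^ k * Complex.cos (a * z) * (xk a k : ℝ) *
    (1 / (((xk a k : ℝ) : ℂ) ^ 2 - z ^ 2) - 1 / ((xk a k : ℝ) : ℂ) ^ 2)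

lemma ck_sum {a : ℝ} (ha : 0 < a) {z : ℂ} (hz : Complex.cos (a * z) ≠ 0) :
    Summable fun k => ‖ck a z k‖ := by
  refine Summable.of_nonneg_of_le (fun _ => norm_nonneg _) (fun k => ?_)
    ((sum_inv ha (z ^ 2)).mul_left (1 / a * ‖Complex.cos (a * z)‖ * ‖z‖ ^ 2 * (1 / xk a 0)))
  have h0 := xk_pos ha k
  have h1 : ((xk a k : ℝ) : ℂ) ≠ 0 := by exact_mod_cast h0.ne'
  have h2 := sq_ne ha hz k
  have h3 : (a : ℂ) ≠ 0 := by exact_mod_cast ha.ne'
  have e : ck a z k = ((1 / a : ℝ) : ℂ) * (-1) ^ k * Complex.cos (a * z) * z ^ 2 *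
      ((1 / xk a k : ℝ) : ℂ) * (1 / (((xk a k : ℝ) : ℂ) ^ 2 - z ^ 2)) := by
    unfold ck; push_cast; field_simp; ring
  have h4 : 1 / xk a k ≤ 1 / xk a 0 := by
    rcases Nat.eq_zero_or_pos k with rfl | hk
    · exact le_rfl
    · exact one_div_le_one_div_of_le (xk_pos ha 0) (xk_lt ha hk).le
  rw [e]
  simp only [norm_mul, norm_pow, norm_neg, norm_one, one_pow, mul_one, Complex.norm_real,
    Real.norm_eq_abs]
  rw [abs_of_pos (by positivity), abs_of_pos (by positivity)]
  gcongr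

lemma exp_xk {a : ℝ} (ha : 0 < a) (k : ℕ) :
    Complex.exp (Complex.I * (xk a k : ℝ) * a) = Complex.I * (-1) ^ k ∧
    Complex.exp (-(Complex.I * (xk a k : ℝ) * a)) = -Complex.I * (-1) ^ k := by
  have h : Complex.I * (xk a k : ℝ) * a = (k : ℂ) * (π * Complex.I) + π / 2 * Complex.I := by
    have := congrArg (fun x : ℝ => (x : ℂ)) (a_xk ha k)
    push_cast at this
    linear_combination Complex.I * this
  have h1 : Complex.exp (Complex.I * (xk a k : ℝ) * a) = Complex.I * (-1) ^ k := by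
    rw [h, Complex.exp_add, Complex.exp_nat_mul, Complex.exp_pi_mul_I,
      Complex.exp_pi_div_two_mul_I, mul_comm]
  refine ⟨h1, ?_⟩
  rw [Complex.exp_neg, h1]
  refine inv_eq_of_mul_eq_one_right ?_
  have : ((-1 : ℂ) ^ k) * (-1) ^ k = 1 := by rw [← mul_pow]; simp
  linear_combination (-Complex.I ^ 2) * this - Complex.I_sq

/-- the Fourier expansion of the cosine -/
lemma cos_exp {a : ℝ} (ha : 0 < a) {z : ℂ} (hz : Complex.cos (a * z) ≠ 0) {t : ℝ}
    (ht : t ∈ Set.Ioc (-a) a) :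
    HasSum (fun k => 2 * ck a z k * Complex.cos ((xk a k : ℝ) * t))
      (Complex.cos (z * t) - Complex.cos (a * z)) := by
  have : Fact (0 < 2 * a) := ⟨by positivity⟩
  have h3 : (a : ℂ) ≠ 0 := by exact_mod_cast ha.ne'
  set h : ℝ → ℂ := fun t => Complex.exp (-(Complex.I * (π / (2 * a)) * t)) *
    (Complex.cos (z * t) - Complex.cos (a * z)) with hh
  have e0 : -a + 2 * a = a := by ring
  have hc : Continuous (AddCircle.liftIoc (2 * a) (-a) h) := by
    refine AddCircle.liftIoc_continuous ?_ (Continuous.continuousOn (by fun_prop))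
    rw [e0]
    simp [hh, mul_comm z]
  set H : C(AddCircle (2 * a), ℂ) := ⟨_, hc⟩ with hH
  have hco : ∀ (n : ℤ) (y : ℂ), y = ((n : ℂ) + 1 / 2) * π / a → fourierCoeff H n =
      1 / (2 * a) * ∫ t in (-a)..a, Complex.exp (-(Complex.I * y * t)) *
        (Complex.cos (z * t) - Complex.cos (a * z)) := by
    intro n y hy
    rw [fourierCoeff_eq_intervalIntegral _ _ (-a), e0, Complex.real_smul]
    push_cast
    congr 1
    rw [intervalIntegral.integral_of_le (by linarith), intervalIntegral.integral_of_le (by linarith)]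
    refine MeasureTheory.setIntegral_congr_fun measurableSet_Ioc fun x hx => ?_
    simp only [hH, ContinuousMap.coe_mk]
    rw [AddCircle.liftIoc_coe_apply (by rwa [e0]), fourier_coe_apply, hh, smul_eq_mul, ← mul_assoc,
      ← Complex.exp_add]
    congr 2
    rw [hy]; push_cast; field_simp; ring
  have hx : ∀ k : ℕ, ((xk a k : ℝ) : ℂ) ≠ 0 := fun k => by exact_mod_cast (xk_pos ha k).ne'
  have c1 : ∀ k : ℕ, fourierCoeff H (k : ℤ) = ck a z k := by
    intro k
    rw [hco k (xk a k : ℝ) (by unfold xk; push_cast; ring),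
      int_exp (hx k) (sq_ne ha hz k) (exp_xk ha k).2 (exp_xk ha k).1]
    unfold ck; field_simp
  have c2 : ∀ k : ℕ, fourierCoeff H (-((k : ℤ) + 1)) = ck a z k := by
    intro k
    rw [hco _ (-((xk a k : ℝ) : ℂ)) (by unfold xk; push_cast; ring),
      int_exp (E := -(-1) ^ k) (neg_ne_zero.2 (hx k)) (by rw [neg_sq]; exact sq_ne ha hz k)
        (by rw [mul_neg, neg_mul, neg_neg, (exp_xk ha k).1]; ring)
        (by rw [mul_neg, neg_mul, (exp_xk ha k).2]; ring), neg_sq]
    unfold ck; field_simp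
  have hs : Summable (fourierCoeff H) := by
    refine Summable.of_nat_of_neg_add_one ?_ ?_
    · simp only [c1]; exact (ck_sum ha hz).of_norm
    · simp only [c2]; exact (ck_sum ha hz).of_norm
  have hp := ((has_pointwise_sum_fourier_series_of_summable hs (t : AddCircle (2 * a))).mul_left
    (Complex.exp (Complex.I * (π / (2 * a)) * t))).nat_add_neg_add_one
  refine hs_congr hp (fun k => ?_) ?_
  · rw [c1, c2, fourier_coe_apply, fourier_coe_apply, smul_eq_mul, smul_eq_mul, mul_left_comm,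
      mul_left_comm (Complex.exp _), ← Complex.exp_add, ← Complex.exp_add, ← mul_add, mul_comm 2,
      mul_assoc, Complex.two_cos]
    congr 3
    · unfold xk; push_cast; field_simp; ring
    · unfold xk; push_cast; field_simp; ring
  · simp only [hH, ContinuousMap.coe_mk]
    rw [AddCircle.liftIoc_coe_apply (by rwa [e0]), hh, ← mul_assoc, ← Complex.exp_add]
    simp

/-- expansion over the zeros of the cosine -/
theorem pf {f : ℝ → ℝ} (hf : Continuous f) {a : ℝ} (ha : 0 < a) {z : ℂ}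
    (hz : Complex.cos (a * z) ≠ 0) :
    HasSum (fun k : ℕ => (2 / a : ℂ) * (bk f a k : ℝ) *
      (1 / (((xk a k : ℝ) : ℂ) ^ 2 - z ^ 2) - 1 / ((xk a k : ℝ) : ℂ) ^ 2))
      (FC f a z / Complex.cos (a * z) - FC f a 0) := by
  have h3 : (a : ℂ) ≠ 0 := by exact_mod_cast ha.ne'
  have hi := intervalIntegral.hasSum_integral_of_dominated_convergence (μ := MeasureTheory.volume)
    (a := 0) (b := a)
    (F := fun k t => (f t : ℂ) * (2 * ck a z k * Complex.cos ((xk a k : ℝ) * t)))
    (f := fun t => (f t : ℂ) * (Complex.cos (z * t) - Complex.cos (a * z)))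
    (fun k t => |f t| * (2 * ‖ck a z k‖))
    (fun k => Continuous.aestronglyMeasurable (by fun_prop))
    (fun k => MeasureTheory.ae_of_all _ fun t _ => by
      rw [norm_mul, norm_mul, norm_mul, Complex.norm_real, Real.norm_eq_abs, ← Complex.ofReal_mul,
        ← Complex.ofReal_cos, Complex.norm_real, Real.norm_eq_abs, Complex.norm_two]
      have := abs_cos_le_one (xk a k * t)
      have h2 : 0 ≤ 2 * ‖ck a z k‖ := by positivity
      exact mul_le_mul_of_nonneg_left (mul_le_of_le_one_right h2 this) (abs_nonneg _))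
    (MeasureTheory.ae_of_all _ fun t _ => ((ck_sum ha hz).mul_left 2).mul_left _)
    (by
      simp only [tsum_mul_left]
      exact Continuous.intervalIntegrable (by fun_prop) _ _)
    (MeasureTheory.ae_of_all _ fun t ht => by
      rw [Set.uIoc_of_le ha.le] at ht
      exact (cos_exp ha hz ⟨by linarith [ht.1], ht.2⟩).mul_left _)
  refine hs_congr (hi.div_const (Complex.cos (a * z))) (fun k => ?_) ?_
  · have : ∫ t in (0 : ℝ)..a, (f t : ℂ) * (2 * ck a z k * Complex.cos ((xk a k : ℝ) * t)) =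
        2 * ck a z k * FC f a (xk a k : ℝ) := by
      unfold FC
      rw [← intervalIntegral.integral_const_mul]
      refine intervalIntegral.integral_congr fun t _ => ?_
      ring
    rw [this, FC_real]
    unfold ck bk; push_cast; field_simp
  · have : ∫ t in (0 : ℝ)..a, (f t : ℂ) * (Complex.cos (z * t) - Complex.cos (a * z)) =
        FC f a z - Complex.cos (a * z) * FC f a 0 := by
      unfold FC
      rw [← intervalIntegral.integral_const_mul, ← intervalIntegral.integral_sub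
        (Continuous.intervalIntegrable (by fun_prop) _ _)
        (Continuous.intervalIntegrable (by fun_prop) _ _)]
      refine intervalIntegral.integral_congr fun t _ => ?_
      simp; ring
    rw [this]; field_simp

lemma cos_ne {a : ℝ} (ha : 0 < a) {z : ℂ} (hz : z.im ≠ 0) : Complex.cos (a * z) ≠ 0 := by
  intro h
  obtain ⟨k, hk⟩ := Complex.cos_eq_zero_iff.1 h
  have := congrArg Complex.im hk
  have e : (2 * (k : ℂ) + 1) * π / 2 = (((2 * (k : ℝ) + 1) * π / 2 : ℝ) : ℂ) := by push_cast; ring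
  rw [e, Complex.ofReal_im] at this
  simp [ha.ne', hz] at this

lemma FC_imag {f : ℝ → ℝ} (hf : Continuous f) {a : ℝ} (ha : 0 < a)
    (h0 : ∀ t ∈ Set.Icc 0 a, 0 ≤ f t) (hb : 0 < bk f a 0) {z : ℂ} (hz : z.re = 0) :
    FC f a z ≠ 0 := by
  have e : FC f a z = ((∫ t in (0 : ℝ)..a, f t * cosh (z.im * t) : ℝ) : ℂ) := by
    unfold FC
    rw [← intervalIntegral.integral_ofReal]
    refine intervalIntegral.integral_congr fun t _ => ?_
    have : z * t = (z.im * t : ℝ) * Complex.I := by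
      apply Complex.ext <;> simp [hz]
    simp only [this, Complex.cos_mul_I]
    push_cast; ring
  have h1 : 0 < FR f a (xk a 0) := by
    unfold bk at hb
    have := xk_pos ha 0
    simp only [pow_zero, one_mul] at hb
    exact (mul_pos_iff_of_pos_left this).1 hb
  have h2 : FR f a (xk a 0) ≤ ∫ t in (0 : ℝ)..a, f t * cosh (z.im * t) := by
    refine intervalIntegral.integral_mono_on ha.le (Continuous.intervalIntegrable (by fun_prop) _ _)
      (Continuous.intervalIntegrable (by fun_prop) _ _) fun t ht => ?_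
    exact mul_le_mul_of_nonneg_left ((cos_le_one _).trans (one_le_cosh _)) (h0 t ht)
  rw [e]
  exact_mod_cast (h1.trans_le h2).ne'

lemma im_one_div (x : ℝ) (w : ℂ) : (1 / ((x : ℂ) - w)).im = w.im / Complex.normSq (x - w) := by
  rw [one_div, Complex.inv_im]; simp

/-- criterion for real zeros -/
theorem realroot {f : ℝ → ℝ} (hf : Continuous f) {a : ℝ} (ha : 0 < a)
    (h0 : ∀ t ∈ Set.Icc 0 a, 0 ≤ f t) (hb0 : 0 < bk f a 0) (hb : ∀ k, 2 ≤ k → 0 ≤ bk f a k)
    (hb1 : 0 ≤ bk f a 1 ∨ ∃ p, xk a 1 < p ∧ p < xk a 2 ∧ FR f a p ≤ 0)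
    {z : ℂ} (hz : FC f a z = 0) : z.im = 0 := by
  by_contra him
  have hre : z.re ≠ 0 := fun h => FC_imag hf ha h0 hb0 h hz
  have hw : (z ^ 2).im ≠ 0 := by
    rw [sq, Complex.mul_im]
    intro h
    exact mul_ne_zero hre him (by linarith)
  have hs := pf hf ha (cos_ne ha him)
  rw [hz, zero_div] at hs
  set w := z ^ 2
  have hn : ∀ x : ℝ, (x : ℂ) - w ≠ 0 := fun x h => hw (by simpa using congrArg Complex.im h)
  have hN : ∀ x : ℝ, 0 < Complex.normSq (x - w) := fun x => Complex.normSq_pos.2 (hn x)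
  have h3 : (a : ℂ) ≠ 0 := by exact_mod_cast ha.ne'
  rcases hb1 with hb1 | ⟨p, hp1, hp2, hp⟩
  · have hk : ∀ k, 0 ≤ bk f a k := by
      intro k
      rcases k with _ | _ | k
      · exact hb0.le
      · exact hb1
      · exact hb _ (by omega)
    have h1 : HasSum (fun k => 2 / a * bk f a k / Complex.normSq ((xk a k ^ 2 : ℝ) - w)) 0 := by
      refine hs_congr ((Complex.hasSum_im hs).div_const w.im) (fun k => ?_) ?_
      · have e : (2 / a : ℂ) * (bk f a k : ℝ) = ((2 / a * bk f a k : ℝ) : ℂ) := by push_cast; ring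
        rw [e, Complex.im_ofReal_mul, Complex.sub_im, ← Complex.ofReal_pow, im_one_div,
          ← Complex.ofReal_one, ← Complex.ofReal_div, Complex.ofReal_im]
        field_simp
        ring
      · have := FC_real f a 0
        rw [Complex.ofReal_zero] at this
        rw [this]; simp
    have h2 := le_hasSum h1 0 fun j _ => div_nonneg (mul_nonneg (by positivity) (hk j)) (hN _).le
    have := hN (xk a 0 ^ 2)
    have : 0 < 2 / a * bk f a 0 / Complex.normSq ((xk a 0 ^ 2 : ℝ) - w) := by positivity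
    linarith
  · have hc : 0 < cos (a * p) := by
      have e1 := a_xk ha 1
      have e2 := a_xk ha 2
      have l1 := mul_lt_mul_of_pos_left hp1 ha
      have l2 := mul_lt_mul_of_pos_left hp2 ha
      push_cast at e1 e2
      rw [← cos_sub_two_pi]
      exact cos_pos_of_mem_Ioo ⟨by linarith, by linarith⟩
    have hc2 : Complex.cos (a * (p : ℂ)) = (cos (a * p) : ℝ) := by push_cast; rfl
    have hc3 : Complex.cos (a * (p : ℂ)) ≠ 0 := by rw [hc2]; exact_mod_cast hc.ne'
    have hs2 := pf hf ha hc3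
    rw [FC_real, hc2, ← Complex.ofReal_div] at hs2
    set g := FR f a p / cos (a * p)
    have hg : g ≤ 0 := div_nonpos_of_nonpos_of_nonneg hp hc.le
    have x0 := xk_pos ha
    have hp0 : 0 < p := (x0 1).trans hp1
    have hP : ∀ k, xk a k ^ 2 - p ^ 2 ≠ 0 := fun k => by
      have := sq_ne ha hc3 k
      exact_mod_cast this
    have h1 : HasSum (fun k => 2 / a * bk f a k * ((xk a k ^ 2 - xk a 1 ^ 2) /
        (xk a k ^ 2 - p ^ 2)) / Complex.normSq ((xk a k ^ 2 : ℝ) - w))
        (g * (p ^ 2 - xk a 1 ^ 2) / Complex.normSq ((p ^ 2 : ℝ) - w)) := by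
      refine hs_congr ((Complex.hasSum_im ((hs.sub hs2).mul_left
        ((((xk a 1 ^ 2 : ℝ) : ℂ) - w) / (((p ^ 2 : ℝ) : ℂ) - w)))).div_const w.im) (fun k => ?_) ?_
      · have n1 := hn (xk a k ^ 2)
        have n2 := hn (p ^ 2)
        have n3 : ((xk a k : ℝ) : ℂ) ^ 2 - (p : ℂ) ^ 2 ≠ 0 := sq_ne ha hc3 k
        have n4 : ((xk a k : ℝ) : ℂ) ≠ 0 := by exact_mod_cast (x0 k).ne'
        have e : (((xk a 1 ^ 2 : ℝ) : ℂ) - w) / (((p ^ 2 : ℝ) : ℂ) - w) *
            ((2 / a : ℂ) * (bk f a k : ℝ) * (1 / (((xk a k : ℝ) : ℂ) ^ 2 - w) -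
              1 / ((xk a k : ℝ) : ℂ) ^ 2) - (2 / a : ℂ) * (bk f a k : ℝ) *
              (1 / (((xk a k : ℝ) : ℂ) ^ 2 - (p : ℂ) ^ 2) - 1 / ((xk a k : ℝ) : ℂ) ^ 2)) =
            ((-(2 / a * bk f a k / (xk a k ^ 2 - p ^ 2)) : ℝ) : ℂ) +
            ((2 / a * bk f a k * ((xk a k ^ 2 - xk a 1 ^ 2) / (xk a k ^ 2 - p ^ 2)) : ℝ) : ℂ) *
              (1 / (((xk a k ^ 2 : ℝ) : ℂ) - w)) := by
          push_cast at n1 n2 ⊢
          field_simp
          ring
        rw [e, Complex.add_im, Complex.ofReal_im, Complex.im_ofReal_mul, im_one_div]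
        field_simp
        ring
      · have n2 := hn (p ^ 2)
        have e : (((xk a 1 ^ 2 : ℝ) : ℂ) - w) / (((p ^ 2 : ℝ) : ℂ) - w) *
            (0 - FC f a 0 - ((g : ℂ) - FC f a 0)) =
            ((-g : ℝ) : ℂ) + ((g * (p ^ 2 - xk a 1 ^ 2) : ℝ) : ℂ) *
              (1 / (((p ^ 2 : ℝ) : ℂ) - w)) := by
          push_cast at n2 ⊢
          field_simp
          ring
        rw [e, Complex.add_im, Complex.ofReal_im, Complex.im_ofReal_mul, im_one_div]
        field_simp
        ring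
    have q1 : xk a 1 ^ 2 < p ^ 2 := by have := x0 1; gcongr
    have q0 : xk a 0 ^ 2 < xk a 1 ^ 2 := by
      have := x0 0; have := xk_lt ha (show 0 < 1 by norm_num); gcongr
    have h2 := le_hasSum h1 0 fun j hj => by
      refine div_nonneg ?_ (hN _).le
      rcases j with _ | _ | j
      · exact absurd rfl hj
      · simp
      · have l : p ≤ xk a (j + 1 + 1) := by
          rcases Nat.eq_zero_or_pos j with rfl | h
          · exact hp2.le
          · exact (hp2.trans (xk_lt ha (by omega))).le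
        have : p ^ 2 ≤ xk a (j + 1 + 1) ^ 2 := by gcongr
        exact mul_nonneg (mul_nonneg (by positivity) (hb _ (by omega)))
          (div_nonneg (by linarith) (by linarith))
    have h4 : 0 < (xk a 0 ^ 2 - xk a 1 ^ 2) / (xk a 0 ^ 2 - p ^ 2) :=
      div_pos_of_neg_of_neg (by linarith) (by linarith)
    have h5 := hN (xk a 0 ^ 2)
    have h6 : 0 < 2 / a * bk f a 0 * ((xk a 0 ^ 2 - xk a 1 ^ 2) / (xk a 0 ^ 2 - p ^ 2)) /
      Complex.normSq ((xk a 0 ^ 2 : ℝ) - w) := by positivity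
    have h7 : g * (p ^ 2 - xk a 1 ^ 2) / Complex.normSq ((p ^ 2 : ℝ) - w) ≤ 0 :=
      div_nonpos_of_nonpos_of_nonneg (mul_nonpos_of_nonpos_of_nonneg hg (by linarith)) (hN _).le
    linarith

end

end Pool.Agent.Lib.XI
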