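import Pool.Agent.Lib.XI.Ev

/-!
The computations behind the certified real point values.
-/

namespace Pool.Agent.Lib.XI

/-- the evaluator at the real point `x / 1000` and the truncation point `an / 10 ^ 7` -/
def evR (an x : ℕ) : B := B.ev an 10000000 x 0 1000 40 137

/-- lower end of the real part -/
def lowR (x : ℕ) : ℤ := B.force (evR 2562060 x) fun b => b.x - b.r

/-- the test for one step -/
def stepOK (x y : ℕ) (l : ℤ) : Bool := decide (831 * ((y : ℤ) - x) ^ 2 * 2 ^ 384 < l * 10 ^ 13)

/-- the chain of points -/
def chain : ℕ → ℤ → List ℕ → ℕ → Bool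
  | x, _, [], e => decide (x = e)
  | x, l, y :: ys, e => B.fI (lowR y) fun m =>
      decide (x < y) && decide (y ≤ 500000) && stepOK x y l && stepOK x y m && chain y m ys e

lemma chkM : ((evR 2562060 1000).add (evR 2562060 2000).neg).reLe 96 100000 = true := by
  decide +kernel

lemma chk1 : chain 25990 (lowR 25990) [26300, 26480, 26580, 26642, 26678, 26699, 26713, 26724]
    26724 = true := by decide +kernel

lemma chk2 : chain 26713 (lowR 26713) [26724, 26735, 26748, 26768, 26801, 26857, 26953, 27113]
    27113 = true := by decide +kernel

lemma chk3 : chain 26953 (lowR 26953) [27113, 27383, 27843, 28593, 29783, 31533, 33833, 34200]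
    34200 = true := by decide +kernel

lemma chk4 : (evR 2562052 26725).reLe 0 1 = true := by decide +kernel
lemma chk5 : (evR 2562052 26000).reGe 26 1000000 = true := by decide +kernel
lemma chk6 : (evR 2562052 28000).reGe 6 100000 = true := by decide +kernel
lemma chk7 : ((evR 2605000 1000).add (evR 2562052 1000).neg).reLe 103 1000000 = true := by
  decide +kernel

end Pool.Agent.Lib.XI
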