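import Pool.Agent.Lib.XI.Glue
import Pool.Agent.Lib.XI.PtsA

/-!
The certified real point values.
-/

namespace Pool.Agent.Lib.XI

open Set Pool.Agent.Lib.MP_c54d0a_an

lemma evR_mem {an x : ℕ} (ha : an ≤ 6000000) (hx : 0 < x) (hx' : x ≤ 500000) {a u : ℝ}
    (h1 : a = an / 10000000) (h2 : u = x / 1000) : (evR an x).mem (FR Phi a u : ℝ) := by
  have := B.ev_sound (an := an) (ad := 10000000) (x := x) (y := 0) (d := 1000) (J0 := 40)
    (J1 := 137) (by norm_num) (by norm_num) (by omega) (by omega) (by simpa using hx')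
    (by norm_num) (by norm_num) le_rfl
  rw [← F_ofReal, h1, h2]
  unfold evR
  convert this using 2 <;> simp

lemma lowR_le {x : ℕ} (hx : 0 < x) (hx' : x ≤ 500000) :
    (lowR x : ℝ) / 2 ^ 384 ≤ FR Phi 0.256206 ((x : ℝ) / 1000) := by
  have h := (abs_le.1 (evR_mem (an := 2562060) (a := 0.256206) (by norm_num) hx hx'
    (by norm_num) rfl).abs_re).1
  rw [Complex.ofReal_re] at h
  simp only [lowR, B.force_eq]
  push_cast
  rw [sub_div]
  linarith

lemma lt_of_int {x y : ℕ} {l : ℤ} {v : ℝ} (h : stepOK x y l = true)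
    (hv : (l : ℝ) / 2 ^ 384 ≤ v) :
    831 / 10 ^ 7 * ((y : ℝ) / 1000 - (x : ℝ) / 1000) ^ 2 < v := by
  refine lt_of_lt_of_le ?_ hv
  have h1 : (831 : ℝ) * ((y : ℝ) - x) ^ 2 * 2 ^ 384 < l * 10 ^ 13 := by
    exact_mod_cast of_decide_eq_true h
  have hS : (0 : ℝ) < 2 ^ 384 := by positivity
  generalize (2 : ℝ) ^ 384 = S at *
  rw [lt_div_iff₀ hS]
  linarith

lemma chain_sound (hM : FR Phi 0.256206 1 - FR Phi 0.256206 2 ≤ 0.00096) (e : ℕ) (ys : List ℕ) :
    ∀ (x : ℕ) (l : ℤ), chain x l ys e = true →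
      (l : ℝ) / 2 ^ 384 ≤ FR Phi 0.256206 ((x : ℝ) / 1000) →
      ∀ t : ℝ, (x : ℝ) / 1000 < t → t ≤ (e : ℝ) / 1000 → 0 < FR Phi 0.256206 t := by
  induction ys with
  | nil =>
    intro x l h _ t h1 h2
    have : x = e := of_decide_eq_true h
    subst this
    linarith
  | cons y ys ih =>
    intro x l h hl t h1 h2
    simp only [chain, B.fI_eq, Bool.and_eq_true, decide_eq_true_eq] at h
    obtain ⟨⟨⟨⟨k1, k2⟩, k3⟩, k4⟩, k5⟩ := h
    have hy := lowR_le (x := y) (by omega) k2
    rcases le_or_gt t ((y : ℝ) / 1000) with h3 | h3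
    · exact pos_step (by norm_num) (by norm_num) hM (h1.trans_le h3)
        (lt_of_int k3 hl) (lt_of_int k4 hy) t ⟨h1.le, h3⟩
    · exact ih y _ k5 hy t h3 h2

theorem pts : Pts := by
  have hM : FR Phi 0.256206 1 - FR Phi 0.256206 2 ≤ 0.00096 := by
    have := ((evR_mem (an := 2562060) (x := 1000) (a := 0.256206) (u := 1) (by norm_num)
      (by norm_num) (by norm_num) (by norm_num) (by norm_num)).add
      (evR_mem (an := 2562060) (x := 2000) (a := 0.256206) (u := 2) (by norm_num)
      (by norm_num) (by norm_num) (by norm_num) (by norm_num)).neg).reLe (by norm_num) chkM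
    simp only [Complex.add_re, Complex.neg_re, Complex.ofReal_re] at this
    norm_num at this ⊢
    linarith
  refine ⟨fun x hx => ?_, ?_, ?_, ?_, ?_⟩
  · rcases le_or_gt x 26.724 with h1 | h1
    · exact chain_sound hM _ _ _ _ chk1 (lowR_le (by norm_num) (by norm_num)) x
        (by push_cast; linarith [hx.1]) (by push_cast; linarith)
    rcases le_or_gt x 27.113 with h2 | h2
    · exact chain_sound hM _ _ _ _ chk2 (lowR_le (by norm_num) (by norm_num)) x
        (by push_cast; linarith) (by push_cast; linarith)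
    · exact chain_sound hM _ _ _ _ chk3 (lowR_le (by norm_num) (by norm_num)) x
        (by push_cast; linarith) (by push_cast; linarith [hx.2])
  · have := (evR_mem (an := 2562052) (x := 26725) (a := 0.2562052) (u := 26.725) (by norm_num)
      (by norm_num) (by norm_num) (by norm_num) (by norm_num)).reLe (by norm_num) chk4
    rw [Complex.ofReal_re] at this
    simpa using this
  · have := (evR_mem (an := 2562052) (x := 26000) (a := 0.2562052) (u := 26) (by norm_num)
      (by norm_num) (by norm_num) (by norm_num) (by norm_num)).reGe (by norm_num) chk5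
    rw [Complex.ofReal_re] at this
    refine le_trans (by norm_num) this
  · have := (evR_mem (an := 2562052) (x := 28000) (a := 0.2562052) (u := 28) (by norm_num)
      (by norm_num) (by norm_num) (by norm_num) (by norm_num)).reGe (by norm_num) chk6
    rw [Complex.ofReal_re] at this
    refine le_trans (by norm_num) this
  · have := ((evR_mem (an := 2605000) (x := 1000) (a := 0.2605) (u := 1) (by norm_num)
      (by norm_num) (by norm_num) (by norm_num) (by norm_num)).add
      (evR_mem (an := 2562052) (x := 1000) (a := 0.2562052) (u := 1) (by norm_num)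
      (by norm_num) (by norm_num) (by norm_num) (by norm_num)).neg).reLe (by norm_num) chk7
    simp only [Complex.add_re, Complex.neg_re, Complex.ofReal_re] at this
    norm_num at this ⊢
    linarith

/-- the classification from the two ranges of larger truncation points -/
theorem main (mid : ∀ a : ℝ, 0.2605 ≤ a → a ≤ 11 / 20 → ∃ z : ℂ, z.im ≠ 0 ∧ F a z = 0)
    (big : ∀ a : ℝ, 11 / 20 ≤ a → ∃ z : ℂ, z.im ≠ 0 ∧ F a z = 0) :
    ∃ s : ℝ, 0.256205 < s ∧ s < 0.256206 ∧
      ∀ a : ℝ, 0 < a → ((∀ z : ℂ, F a z = 0 → z.im = 0) ↔ a ≤ s) :=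
  glue pts fun a h => (le_total a (11 / 20)).elim (mid a h) (big a)

end Pool.Agent.Lib.XI
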