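import Pool.Agent.Lib.XI.Ent

/-!
Signs of the coefficients from four integrations by parts and a bound of the total variation of
the third derivative of the kernel.
-/

namespace Pool.Agent.Lib.XI

open Real Polynomial Pool.Agent.Lib.MP_c54d0a_an MeasureTheory

noncomputable section

/-- polynomial of the fourth derivative -/
def P4 : ℝ[X] :=
  C 512 * X ^ 6 - C 8448 * X ^ 5 + C 41408 * X ^ 4 - C 68096 * X ^ 3 + C 30930 * X ^ 2 - C 1875 * X

lemma eval_P4 (u : ℝ) : P4.eval u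
    = 512 * u ^ 6 - 8448 * u ^ 5 + 41408 * u ^ 4 - 68096 * u ^ 3 + 30930 * u ^ 2 - 1875 * u := by
  simp [P4]

lemma eval_DD_P3 (u : ℝ) : (DD P3).eval u = P4.eval u := by
  rw [eval_DD, eval_P4]; simp [P3]; ring

/-- fourth derivative of the kernel -/
def Phi4 : ℝ → ℝ := SS P4

theorem hasDerivAt_Phi3 (t : ℝ) : HasDerivAt Phi3 (Phi4 t) t := by
  have := hasDerivAt_SS P3 t
  rwa [SS_congr eval_DD_P3] at this

@[fun_prop] theorem continuous_Phi4 : Continuous Phi4 := continuous_SS P4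

@[fun_prop] theorem continuous_TT (P : ℝ[X]) (n : ℕ) : Continuous (TT P n) :=
  continuous_iff_continuousAt.2 fun t => (hasDerivAt_TT P n t).continuousAt

lemma hasDerivAt_T3 (t : ℝ) : HasDerivAt (TT P3 0) (TT P4 0 t) t := by
  have := hasDerivAt_TT P3 0 t
  unfold TT at this ⊢
  rwa [eval_DD_P3] at this

lemma SS_sub_first (P : ℝ[X]) (t : ℝ) : SS P t - TT P 0 t = ∑' n, TT P (n + 1) t := by
  unfold SS
  rw [(summable_TT P t).tsum_eq_zero_add, add_sub_cancel_left]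

lemma rest_nonneg {P : ℝ[X]} (h : ∀ u, 12 ≤ u → 0 ≤ P.eval u) {t : ℝ} (ht : 0 ≤ t) :
    0 ≤ SS P t - TT P 0 t := by
  rw [SS_sub_first]
  refine tsum_nonneg fun n => ?_
  unfold TT
  have := h _ (uu_ge_twelve (n := n + 1) (by omega) ht)
  positivity

lemma rest_nonpos {P : ℝ[X]} (h : ∀ u, 12 ≤ u → P.eval u ≤ 0) {t : ℝ} (ht : 0 ≤ t) :
    SS P t - TT P 0 t ≤ 0 := by
  rw [SS_sub_first]
  refine tsum_nonpos fun n => ?_
  unfold TT
  exact mul_nonpos_of_nonpos_of_nonneg (mul_nonpos_of_nonneg_of_nonpos (exp_pos _).le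
    (h _ (uu_ge_twelve (n := n + 1) (by omega) ht))) (exp_pos _).le

/-- four integrations by parts -/
theorem bk_ibp4 {a : ℝ} (ha : 0 < a) (k : ℕ) :
    xk a k ^ 3 * bk Phi a k = xk a k ^ 3 * Phi a - xk a k * Phi2 a
      + (-1) ^ k * ∫ t in (0 : ℝ)..a, Phi4 t * cos (xk a k * t) := by
  have h := bk_ibp3 ha k
  have h2 := ibp_sin hasDerivAt_Phi3 continuous_Phi4 0 a (xk a k)
  have e : xk a k * a = π / 2 + k * π := by rw [mul_comm, a_xk ha]; ring
  rw [e, Real.cos_add_nat_mul_pi, Real.cos_pi_div_two, Phi3_zero] at h2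
  linear_combination xk a k * h + (-1) ^ k * h2

/-- total variation of an almost unimodal function -/
lemma tv_le {g h : ℝ → ℝ} (hd : ∀ t, HasDerivAt g (h t) t) (hc : Continuous h) {a τ E : ℝ}
    (ha : 0 ≤ a) (hτ : 0 ≤ τ) (hE : 0 ≤ E) (h1 : ∀ t ∈ Set.Icc 0 τ, 0 ≤ h t)
    (h2 : ∀ t ∈ Set.Icc τ a, h t ≤ E) :
    ∫ t in (0 : ℝ)..a, |h t| ≤ 2 * g τ - g 0 - g a + 2 * E * a := by
  have ftc : ∀ p q, ∫ t in p..q, h t = g q - g p := fun p q =>
    intervalIntegral.integral_eq_sub_of_hasDerivAt (fun t _ => hd t) (hc.intervalIntegrable _ _)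
  have pos : ∀ q, 0 ≤ q → q ≤ τ → ∫ t in (0 : ℝ)..q, |h t| = g q - g 0 := fun q h0 hq => by
    rw [← ftc]
    refine intervalIntegral.integral_congr fun t ht => ?_
    rw [Set.uIcc_of_le h0] at ht
    exact abs_of_nonneg (h1 t ⟨ht.1, ht.2.trans hq⟩)
  rcases le_total a τ with hh | hh
  · have : 0 ≤ g τ - g a := by
      rw [← ftc]
      exact intervalIntegral.integral_nonneg hh fun t ht => h1 t ⟨ha.trans ht.1, ht.2⟩
    rw [pos a ha hh]
    nlinarith [mul_nonneg hE ha]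
  · rw [← intervalIntegral.integral_add_adjacent_intervals (b := τ)
      (hc.abs.intervalIntegrable _ _) (hc.abs.intervalIntegrable _ _), pos τ hτ le_rfl]
    have h3 : ∫ t in τ..a, |h t| ≤ ∫ t in τ..a, (2 * E - h t) := by
      refine intervalIntegral.integral_mono_on hh (hc.abs.intervalIntegrable _ _)
        (Continuous.intervalIntegrable (by fun_prop) _ _) fun t ht => ?_
      have := h2 t ht
      rw [abs_le]
      constructor <;> linarith
    rw [intervalIntegral.integral_sub intervalIntegrable_const (hc.intervalIntegrable _ _), ftc,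
      intervalIntegral.integral_const, smul_eq_mul] at h3
    nlinarith [mul_nonneg hE hτ]

lemma exp_add_ge (n : ℕ) {s : ℝ} (hs : 0 ≤ s) :
    2.718 ^ n * (1 + s + s ^ 2 / 2 + s ^ 3 / 6 + s ^ 4 / 24) ≤ exp (n + s) := by
  rw [exp_add]
  have h := Real.sum_le_exp_of_nonneg hs 5
  simp only [Finset.sum_range_succ, Finset.sum_range_zero, Nat.factorial] at h
  norm_num at h
  exact mul_le_mul (exp_ge_pow n) (by linarith) (by positivity) (exp_pos _).le

lemma exp_sub_le (n : ℕ) {s : ℝ} (hs : 0 ≤ s) :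
    exp (n - s) ≤ 2.7182818286 ^ n / (1 + s + s ^ 2 / 2 + s ^ 3 / 6) := by
  have h := Real.sum_le_exp_of_nonneg hs 4
  simp only [Finset.sum_range_succ, Finset.sum_range_zero, Nat.factorial] at h
  norm_num at h
  rw [exp_sub, ← Real.exp_one_pow]
  exact div_le_div₀ (by positivity) (pow_le_pow_left₀ (exp_pos _).le Real.exp_one_lt_d9.le n)
    (by positivity) (by linarith)

lemma mul_exp_neg_le {p K u : ℝ} (h : p ≤ K * exp u) : p * exp (-u) ≤ K := by
  rw [exp_neg, ← div_eq_mul_inv, div_le_iff₀ (exp_pos _)]; exact h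

lemma exp_hi {t : ℝ} (ht : t ≤ 0.2563) : exp t ≤ 1.293 := by
  refine (exp_le_exp.2 ht).trans
    ((Real.exp_bound' (x := 0.2563) (by norm_num) (by norm_num) (n := 4) (by norm_num)).trans ?_)
  norm_num [Finset.sum_range_succ, Nat.factorial]

lemma uu0 (t : ℝ) : uu 0 t = π * exp (4 * t) := by simp [uu]

lemma uu_hi {t : ℝ} (ht : t ≤ 0.2563) : uu 0 t ≤ 8.758 := by
  have h1 : exp (4 * t) ≤ 2.78768 := by
    have e : exp 1.0252 = exp 1 * exp 0.0252 := by rw [← exp_add]; norm_num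
    have h2 : exp 0.0252 ≤ 1.025522 :=
      (Real.exp_bound' (x := 0.0252) (by norm_num) (by norm_num) (n := 3) (by norm_num)).trans
        (by norm_num [Finset.sum_range_succ, Nat.factorial])
    refine (exp_le_exp.2 (by linarith : 4 * t ≤ 1.0252)).trans ?_
    rw [e]
    calc exp 1 * exp 0.0252 ≤ 2.7182818286 * 1.025522 :=
          mul_le_mul Real.exp_one_lt_d9.le h2 (exp_pos _).le (by norm_num)
      _ ≤ _ := by norm_num
  rw [uu0]
  calc π * exp (4 * t) ≤ 3.141593 * 2.78768 :=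
        mul_le_mul Real.pi_lt_d6.le h1 (exp_pos _).le (by norm_num)
    _ ≤ _ := by norm_num

lemma P2_exp {u : ℝ} (hu : 3 ≤ u) : P2.eval u * exp (-u) ≤ 15 := by
  apply mul_exp_neg_le
  rw [eval_P2]
  rcases le_total u 5 with h | h
  · have h1 : 32 * u ^ 3 - 224 * u ^ 2 + 330 * u - 75 ≤ 0 := by
      nlinarith [mul_nonneg (sub_nonneg.2 hu) (sub_nonneg.2 h)]
    nlinarith [exp_pos u]
  rcases le_total u 6 with h' | h'
  · obtain ⟨s, hs, rfl⟩ : ∃ s, 0 ≤ s ∧ u = 5 + s := ⟨u - 5, by linarith, by ring⟩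
    have := exp_add_ge 5 hs
    push_cast at this
    have h2 : 0 ≤ 1 - s := by linarith
    nlinarith [mul_nonneg hs h2, mul_nonneg (pow_nonneg hs 2) h2, pow_nonneg hs 4]
  · obtain ⟨s, hs, rfl⟩ : ∃ s, 0 ≤ s ∧ u = 6 + s := ⟨u - 6, by linarith, by ring⟩
    have := exp_add_ge 6 hs
    push_cast at this
    nlinarith [sq_nonneg (s - 1), mul_nonneg hs (sq_nonneg (s - 1)), pow_nonneg hs 4]

lemma pow4_exp {u : ℝ} (hu : 12.5 ≤ u) : u ^ 4 * exp (-u) ≤ 0.092 := by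
  apply mul_exp_neg_le
  obtain ⟨s, hs, rfl⟩ : ∃ s, 0 ≤ s ∧ u = 12.5 + s := ⟨u - 12.5, by linarith, by ring⟩
  have h := exp_add_ge 12 (s := 0.5 + s) (by linarith)
  push_cast at h
  rw [show (12 : ℝ) + (0.5 + s) = 12.5 + s by ring] at h
  nlinarith [pow_nonneg hs 2, pow_nonneg hs 3, pow_nonneg hs 4]

theorem Phi2_le {t : ℝ} (h0 : 0 ≤ t) (ht : t ≤ 0.2563) : Phi2 t ≤ 23.3 := by
  have h := (abs_le.1 (Phi2_tail (N := 1) le_rfl h0)).2
  rw [Finset.sum_range_one] at h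
  have h1 := P2_exp ((pi_gt_three.le).trans (uu_ge_pi 0 h0))
  have h2 : 12.5 ≤ uu 1 t := by
    have := uu_ge 1 h0
    push_cast at this
    linarith [Real.pi_gt_d2]
  have h3 := pow4_exp h2
  have h4 := exp_hi ht
  have h5 := exp_pos t
  unfold TT at h
  have : Phi2 t ≤ exp t * (P2.eval (uu 0 t) * exp (-uu 0 t)
      + 1.002 * 32 * (uu 1 t ^ 4 * exp (-uu 1 t))) := by linarith
  refine this.trans ?_
  calc _ ≤ exp t * (15 + 1.002 * 32 * 0.092) := by gcongr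
    _ ≤ 1.293 * (15 + 1.002 * 32 * 0.092) := by gcongr
    _ ≤ _ := by norm_num

lemma P3_exp {u : ℝ} (hu : 3.14 ≤ u) (hu' : u ≤ 8.758) : -P3.eval u * exp (-u) ≤ 120 := by
  apply mul_exp_neg_le
  rw [eval_P3]
  rcases le_total u 7 with h | h
  · have h1 : 0 ≤ -128 * u ^ 4 + 1440 * u ^ 3 - 4232 * u ^ 2 + 3270 * u - 375 := by
      obtain ⟨s, hs, rfl⟩ : ∃ s, 0 ≤ s ∧ u = 3.14 + s := ⟨u - 3.14, by linarith, by ring⟩
      have h2 : 0 ≤ 3.86 - s := by linarith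
      nlinarith [mul_nonneg hs h2, mul_nonneg (pow_nonneg hs 2) h2, mul_nonneg (pow_nonneg hs 3) h2]
    nlinarith [exp_pos u]
  · obtain ⟨s, hs, rfl⟩ : ∃ s, 0 ≤ s ∧ u = 7 + s := ⟨u - 7, by linarith, by ring⟩
    have h3 := exp_add_ge 7 hs
    push_cast at h3
    have h2 : 0 ≤ 1.758 - s := by linarith
    nlinarith [pow_nonneg h2 5, mul_nonneg hs (pow_nonneg h2 4),
      mul_nonneg (pow_nonneg hs 2) (pow_nonneg h2 3), mul_nonneg (pow_nonneg hs 3) (pow_nonneg h2 2),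
      mul_nonneg (pow_nonneg hs 4) h2, pow_nonneg hs 5]

lemma q4_split {u : ℝ} (hu : 3.14 ≤ u) (hu' : u ≤ 8.758) : ∃ w c, 0 ≤ w ∧ 0 ≤ c ∧ c ≤ 300 ∧
    P4.eval u = u * (c + (4.615 - u) * w) := by
  refine ⟨-(512 * u ^ 4 - 152128 / 25 * u ^ 3 + 8328232 / 625 * u ^ 2 - 103130233 / 15625 * u
    + 1467044941 / 3125000), 182207480543 / 625000000, ?_, by norm_num, by norm_num, ?_⟩
  · obtain ⟨s, hs, rfl⟩ : ∃ s, 0 ≤ s ∧ u = 3.14 + s := ⟨u - 3.14, by linarith, by ring⟩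
    have h2 : 0 ≤ 5.618 - s := by linarith
    nlinarith [mul_nonneg hs h2, mul_nonneg (pow_nonneg hs 2) h2, mul_nonneg (pow_nonneg hs 3) h2]
  · rw [eval_P4]; ring

theorem tv_Phi3 {a : ℝ} (h0 : 0 ≤ a) (ha : a ≤ 0.2563) : ∫ t in (0 : ℝ)..a, |Phi4 t| ≤ 980 := by
  have p1 := Real.pi_gt_d4
  have p2 := Real.pi_lt_d4
  set τ : ℝ := Real.log (4.615 / π) / 4 with hτ
  have hq : (1 : ℝ) ≤ 4.615 / π := by rw [le_div_iff₀ pi_pos]; linarith
  have hτ0 : 0 ≤ τ := by have := Real.log_nonneg hq; positivity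
  have eτ : exp (4 * τ) = 4.615 / π := by
    rw [hτ, mul_div_cancel₀ _ (by norm_num : (4 : ℝ) ≠ 0), exp_log (by linarith)]
  have uτ : uu 0 τ = 4.615 := by rw [uu0, eτ]; field_simp
  have mono : ∀ s t, s ≤ t → uu 0 s ≤ uu 0 t := fun s t h => by
    rw [uu0, uu0]; gcongr
  have lo : ∀ t, 0 ≤ t → 3.14 ≤ uu 0 t := fun t ht => by linarith [uu_ge_pi 0 ht]
  have t1 := tv_le hasDerivAt_T3 (continuous_TT P4 0) (E := 19) h0 hτ0 (by norm_num)
    (fun t ht => by
      have h1 := mono t τ ht.2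
      rw [uτ] at h1
      obtain ⟨w, c, hw, hc, -, e⟩ := q4_split (lo t ht.1) (by linarith)
      unfold TT
      rw [e]
      have := uu_pos 0 t
      have : 0 ≤ 4.615 - uu 0 t := by linarith
      positivity)
    (fun t ht => by
      have h1 := mono τ t ht.1
      rw [uτ] at h1
      obtain ⟨w, c, hw, hc, hc', e⟩ := q4_split (lo t (hτ0.trans ht.1)) (uu_hi (ht.2.trans ha))
      have h2 : P4.eval (uu 0 t) ≤ 300 * uu 0 t := by
        rw [e, mul_comm]
        have : (4.615 - uu 0 t) * w ≤ 0 := mul_nonpos_of_nonpos_of_nonneg (by linarith) hw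
        exact mul_le_mul_of_nonneg_right (by linarith) (uu_pos 0 t).le
      have h3 : P4.eval (uu 0 t) * exp (-uu 0 t) ≤ 14.5 := by
        apply mul_exp_neg_le
        have h4 := exp_add_ge 4 (s := uu 0 t - 4) (by linarith)
        push_cast at h4
        rw [add_sub_cancel] at h4
        obtain ⟨s, hs, e2⟩ : ∃ s, 0 ≤ s ∧ uu 0 t = 4.615 + s := ⟨uu 0 t - 4.615, by linarith, by ring⟩
        rw [e2] at h2 h4 ⊢
        nlinarith [pow_nonneg hs 2, pow_nonneg hs 3, pow_nonneg hs 4]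
      unfold TT
      rw [mul_assoc]
      calc _ ≤ exp t * 14.5 := mul_le_mul_of_nonneg_left h3 (exp_pos _).le
        _ ≤ 1.293 * 14.5 := by gcongr; exact exp_hi (ht.2.trans ha)
        _ ≤ _ := by norm_num)
  have t2 : TT P3 0 τ ≤ 406 := by
    unfold TT
    rw [uτ, mul_assoc]
    have h1 : exp τ ≤ 1.1012 := by
      have : exp τ ^ 4 ≤ 1.1012 ^ 4 := by
        rw [← Real.exp_nat_mul]
        push_cast
        rw [eτ, div_le_iff₀ pi_pos]
        nlinarith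
      exact le_of_pow_le_pow_left₀ (by norm_num) (by norm_num) this
    have h2 : P3.eval 4.615 * exp (-4.615) ≤ 368.6 := by
      apply mul_exp_neg_le
      have h4 := exp_add_ge 4 (s := 0.615) (by norm_num)
      rw [eval_P3]
      norm_num at h4 ⊢
      linarith
    calc _ ≤ exp τ * 368.6 := mul_le_mul_of_nonneg_left h2 (exp_pos _).le
      _ ≤ 1.1012 * 368.6 := by gcongr
      _ ≤ _ := by norm_num
  have t3 : -TT P3 0 a ≤ 156 := by
    have h1 := P3_exp (lo a h0) (uu_hi ha)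
    have e : -TT P3 0 a = exp a * (-P3.eval (uu 0 a) * exp (-uu 0 a)) := by unfold TT; ring
    rw [e]
    calc _ ≤ exp a * 120 := mul_le_mul_of_nonneg_left h1 (exp_pos _).le
      _ ≤ 1.293 * 120 := by gcongr; exact exp_hi ha
      _ ≤ _ := by norm_num
  have r4 : ∀ t, 0 ≤ t → 0 ≤ Phi4 t - TT P4 0 t := fun t ht => rest_nonneg (fun u hu => by
    rw [eval_P4]
    obtain ⟨s, hs, rfl⟩ : ∃ s, 0 ≤ s ∧ u = 12 + s := ⟨u - 12, by linarith, by ring⟩
    nlinarith [pow_nonneg hs 2, pow_nonneg hs 3, pow_nonneg hs 4, pow_nonneg hs 5,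
      pow_nonneg hs 6]) ht
  have r3 : Phi3 a - TT P3 0 a ≤ 0 := rest_nonpos (fun u hu => by
    rw [eval_P3]
    obtain ⟨s, hs, rfl⟩ : ∃ s, 0 ≤ s ∧ u = 12 + s := ⟨u - 12, by linarith, by ring⟩
    nlinarith [pow_nonneg hs 2, pow_nonneg hs 3, pow_nonneg hs 4, pow_nonneg hs 5]) h0
  have t4 : ∫ t in (0 : ℝ)..a, (Phi4 t - TT P4 0 t)
      = (Phi3 a - TT P3 0 a) - (Phi3 0 - TT P3 0 0) :=
    intervalIntegral.integral_eq_sub_of_hasDerivAt (f := fun t => Phi3 t - TT P3 0 t)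
      (fun t _ => (hasDerivAt_Phi3 t).sub (hasDerivAt_T3 t))
      (Continuous.intervalIntegrable (by fun_prop) _ _)
  have t5 : ∫ t in (0 : ℝ)..a, |Phi4 t|
      ≤ ∫ t in (0 : ℝ)..a, (|TT P4 0 t| + (Phi4 t - TT P4 0 t)) := by
    refine intervalIntegral.integral_mono_on h0 (Continuous.intervalIntegrable (by fun_prop) _ _)
      (Continuous.intervalIntegrable (by fun_prop) _ _) fun t ht => ?_
    have h1 := r4 t ht.1
    have h2 := abs_add_le (TT P4 0 t) (Phi4 t - TT P4 0 t)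
    rwa [add_sub_cancel, abs_of_nonneg h1] at h2
  rw [intervalIntegral.integral_add (Continuous.intervalIntegrable (by fun_prop) _ _)
    (Continuous.intervalIntegrable (by fun_prop) _ _), t4, Phi3_zero] at t5
  linarith

/-- the basic lower bound of the coefficients -/
theorem bk_lower {a : ℝ} (h0 : 0 < a) (ha : a ≤ 0.2563) (k : ℕ) :
    xk a k ^ 3 * Phi a - 23.3 * xk a k - 980 ≤ xk a k ^ 3 * bk Phi a k := by
  rw [bk_ibp4 h0]
  have h1 := Phi2_le h0.le ha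
  have h2 := tv_Phi3 h0.le ha
  have h3 : |(-1) ^ k * ∫ t in (0 : ℝ)..a, Phi4 t * cos (xk a k * t)|
      ≤ ∫ t in (0 : ℝ)..a, |Phi4 t| := by
    rw [abs_mul, abs_pow, abs_neg, abs_one, one_pow, one_mul]
    refine (intervalIntegral.abs_integral_le_integral_abs h0.le).trans
      (intervalIntegral.integral_mono_on h0.le (Continuous.intervalIntegrable (by fun_prop) _ _)
        (Continuous.intervalIntegrable (by fun_prop) _ _) fun t _ => ?_)
    rw [abs_mul]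
    exact mul_le_of_le_one_right (abs_nonneg _) (abs_cos_le_one _)
  have h4 := mul_le_mul_of_nonneg_left h1 (xk_pos h0 k).le
  linarith [(abs_le.1 h3).1]

lemma Phi_lower {a L U e E : ℝ} (ha : 0 ≤ a) (hL : 2 ≤ L) (h1 : L ≤ uu 0 a) (h2 : uu 0 a ≤ U)
    (h3 : e ≤ exp a) (h4 : exp U ≤ E) : e * (2 * L ^ 2 - 3 * L) / E ≤ Phi a := by
  have h := sum_le_Phi 1 ha
  rw [Finset.sum_range_one] at h
  refine le_trans ?_ h
  unfold TT
  rw [eval_P0, div_eq_mul_inv, exp_neg]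
  have : 0 ≤ 2 * L ^ 2 - 3 * L := by nlinarith
  have hE : 0 < E := (exp_pos _).trans_le h4
  refine mul_le_mul (mul_le_mul h3 (by nlinarith) this (exp_pos _).le)
    (inv_anti₀ (exp_pos _) ((exp_le_exp.2 h2).trans h4)) (by positivity) ?_
  exact mul_nonneg (exp_pos _).le (by nlinarith)

lemma exp_ge4 {s : ℝ} (hs : 0 ≤ s) : 1 + s + s ^ 2 / 2 + s ^ 3 / 6 + s ^ 4 / 24 ≤ exp s := by
  simpa using exp_add_ge 0 hs

lemma Phi_2563 : 0.0255 ≤ Phi 0.2563 := by
  refine le_trans ?_ (Phi_lower (a := 0.2563) (L := 8.75) (U := 8.758) (e := 1.29) (E := 6365)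
    (by norm_num) (by norm_num) ?_ (uu_hi le_rfl) ?_ ?_)
  · norm_num
  · have h := exp_add_ge 1 (s := 0.0252) (by norm_num)
    rw [uu0]
    norm_num at h ⊢
    nlinarith [Real.pi_gt_d4]
  · exact le_trans (by norm_num) (exp_ge4 (by norm_num))
  · have h := exp_sub_le 9 (s := 0.242) (by norm_num)
    norm_num at h ⊢
    linarith

lemma Phi_23 : 0.0474 ≤ Phi 0.23 := by
  refine le_trans ?_ (Phi_lower (a := 0.23) (L := 7.87) (U := 7.885) (e := 1.258) (E := 2658)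
    (by norm_num) (by norm_num) ?_ ?_ ?_ ?_)
  · norm_num
  · have h2 := Real.sum_le_exp_of_nonneg (x := 0.92) (by norm_num) 7
    rw [uu0]
    norm_num [Finset.sum_range_succ, Nat.factorial] at h2 ⊢
    nlinarith [Real.pi_gt_d4]
  · have h := exp_sub_le 1 (s := 0.08) (by norm_num)
    rw [uu0]
    norm_num at h ⊢
    nlinarith [Real.pi_lt_d4, Real.pi_pos, exp_pos (23 / 25)]
  · exact le_trans (by norm_num) (exp_ge4 (by norm_num))
  · have h := exp_sub_le 8 (s := 0.115) (by norm_num)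
    norm_num at h ⊢
    linarith

lemma Phi_185 : 0.11 ≤ Phi 0.185 := by
  refine le_trans ?_ (Phi_lower (a := 0.185) (L := 6.58) (U := 6.586) (e := 1.203) (E := 726)
    (by norm_num) (by norm_num) ?_ ?_ ?_ ?_)
  · norm_num
  · have h2 := Real.sum_le_exp_of_nonneg (x := 0.74) (by norm_num) 7
    rw [uu0]
    norm_num [Finset.sum_range_succ, Nat.factorial] at h2 ⊢
    nlinarith [Real.pi_gt_d4]
  · have h := exp_sub_le 1 (s := 0.26) (by norm_num)
    rw [uu0]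
    norm_num at h ⊢
    nlinarith [Real.pi_lt_d4, Real.pi_pos, exp_pos (37 / 50)]
  · exact le_trans (by norm_num) (exp_ge4 (by norm_num))
  · have h := exp_sub_le 7 (s := 0.414) (by norm_num)
    norm_num at h ⊢
    linarith

lemma bk_pos_of {a b c x₀ : ℝ} (h0 : 0 < a) (hab : a ≤ b) (hb : b ≤ 0.2563) (hc : c ≤ Phi b)
    {k : ℕ} (hx0 : 0 < x₀) (hx : x₀ ≤ xk a k) (h : 23.3 * x₀ + 980 < x₀ ^ 3 * c) :
    0 < bk Phi a k := by
  have h1 := bk_lower h0 (hab.trans hb) k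
  have h2 : c ≤ Phi a := hc.trans (Phi_le_Phi h0.le hab)
  have hp := xk_pos h0 k
  set x := xk a k
  have hc0 : 0 < c := by
    have : 0 < x₀ ^ 3 * c := by linarith
    exact (mul_pos_iff_of_pos_left (by positivity)).1 this
  obtain ⟨r, hr, e⟩ : ∃ r, 1 ≤ r ∧ x = r * x₀ :=
    ⟨x / x₀, (le_div_iff₀ hx0).2 (by linarith), by field_simp⟩
  have h3 : r ≤ r ^ 3 := le_self_pow₀ hr (by norm_num)
  have h4 : r * (x₀ ^ 3 * c) ≤ x ^ 3 * Phi a := by
    calc r * (x₀ ^ 3 * c) ≤ r ^ 3 * (x₀ ^ 3 * c) := by gcongr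
      _ = x ^ 3 * c := by rw [e]; ring
      _ ≤ _ := by gcongr
  have h5 : 23.3 * x + 980 < r * (x₀ ^ 3 * c) := by
    have := mul_lt_mul_of_pos_left h (by linarith : 0 < r)
    rw [e]
    nlinarith
  have : 0 < x ^ 3 * bk Phi a k := by linarith
  exact (mul_pos_iff_of_pos_left (by positivity)).1 this

lemma xk_ge {a b x₀ : ℝ} (h0 : 0 < a) (hab : a ≤ b) {j k : ℕ} (hjk : j ≤ k) (hx0 : 0 ≤ x₀)
    (h : x₀ * b ≤ ((j : ℝ) + 1 / 2) * 3.1415) : x₀ ≤ xk a k := by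
  unfold xk
  rw [le_div_iff₀ h0]
  have h1 : (j : ℝ) ≤ k := by exact_mod_cast hjk
  have h2 := mul_le_mul_of_nonneg_left hab hx0
  have h3 : ((j : ℝ) + 1 / 2) * 3.1415 ≤ ((k : ℝ) + 1 / 2) * π :=
    mul_le_mul (by linarith) Real.pi_gt_d4.le (by norm_num) (by positivity)
  linarith

theorem bk_pos_three {a : ℝ} (h0 : 0 < a) (ha : a ≤ 0.2563) {k : ℕ} (hk : 3 ≤ k) :
    0 < bk Phi a k :=
  bk_pos_of h0 ha le_rfl Phi_2563 (x₀ := 42.89) (by norm_num)
    (xk_ge h0 ha hk (by norm_num) (by norm_num)) (by norm_num)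

theorem bk_pos_two {a : ℝ} (h0 : 0 < a) (ha : a ≤ 0.23) : 0 < bk Phi a 2 :=
  bk_pos_of h0 ha (by norm_num) Phi_23 (x₀ := 34.14) (by norm_num)
    (xk_ge h0 ha (j := 2) le_rfl (by norm_num) (by norm_num)) (by norm_num)

theorem bk_pos_one {a : ℝ} (h0 : 0 < a) (ha : a ≤ 0.185) : 0 < bk Phi a 1 :=
  bk_pos_of h0 ha (by norm_num) Phi_185 (x₀ := 25.47) (by norm_num)
    (xk_ge h0 ha (j := 1) le_rfl (by norm_num) (by norm_num)) (by norm_num)

end

end Pool.Agent.Lib.XI
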